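import Pool.Agent.Lib.MP_7c4fde_an.Entire

set_option autoImplicit false

namespace Pool.Agent.Lib.MP_7c4fde_an

open Filter Topology

/-- A zero-free entire function of order at most `1/2` is constant (general form). -/
theorem zero_free_const (g : ℂ → ℂ) (C : ℝ) (hgd : Differentiable ℂ g)
    (hgb : ∀ z, ‖g z‖ ≤ C * Real.exp (√‖z‖)) (hgne : ∀ z, g z ≠ 0) (h0 : g 0 = 1) :
    ∀ z, g z = 1 := by
  have hC : 1 ≤ C := by
    have h1 := hgb 0
    rw [h0] at h1
    simpa using h1
  have hC0 : 0 < C := by linarith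
  have hdg : Differentiable ℂ (deriv g) := hgd.deriv
  have hq : Differentiable ℂ (fun z => deriv g z / g z) := hdg.div hgd hgne
  obtain ⟨F, hF0, hF⟩ := (hq.isExactOn_univ).with_val_at 0 0
  have hFd : Differentiable ℂ F := fun z => (hF z (Set.mem_univ z)).differentiableAt
  have hconst : ∀ z, g z * Complex.exp (-F z) = 1 := by
    have hd : ∀ z, HasDerivAt (fun z => g z * Complex.exp (-F z)) 0 z := by
      intro z
      have h1 := (hgd z).hasDerivAt
      have h2 := (hF z (Set.mem_univ z)).neg.cexp
      have h3 : HasDerivAt (fun z => g z * Complex.exp (-F z)) (deriv g z * Complex.exp (-F z) +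
          g z * (Complex.exp (-F z) * -(deriv g z / g z))) z := h1.mul h2
      refine h3.congr_deriv ?_
      have h4 := hgne z
      have h5 : g z * (Complex.exp (-F z) * -(deriv g z / g z)) =
          -(deriv g z * Complex.exp (-F z)) * (g z / g z) := by ring
      rw [h5, div_self h4]
      ring
    have hdd : Differentiable ℂ (fun z => g z * Complex.exp (-F z)) :=
      fun z => (hd z).differentiableAt
    intro z
    have h4 := is_const_of_deriv_eq_zero hdd (fun w => (hd w).deriv) z 0
    rw [h4, h0, hF0]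
    simp
  have hexp : ∀ z, g z = Complex.exp (F z) := by
    intro z
    have h1 := hconst z
    rw [Complex.exp_neg] at h1
    have h2 := Complex.exp_ne_zero (F z)
    field_simp at h1
    exact h1
  have hre : ∀ z, (F z).re ≤ Real.log C + √‖z‖ := by
    intro z
    have h1 := hgb z
    rw [hexp z, Complex.norm_exp] at h1
    have h2 := Real.log_le_log (Real.exp_pos _) h1
    rw [Real.log_exp, Real.log_mul hC0.ne' (Real.exp_pos _).ne', Real.log_exp] at h2
    exact h2
  have hlog : 0 ≤ Real.log C := Real.log_nonneg hC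
  have hFz : ∀ z, F z = 0 := by
    intro z
    have hb : ∀ R : ℝ, ‖z‖ < R → ‖F z‖ ≤ 2 * (Real.log C + √R + 1) * ‖z‖ / (R - ‖z‖) := by
      intro R hR
      have hR0 : 0 < R := lt_of_le_of_lt (norm_nonneg _) hR
      apply Complex.borelCaratheodory_zero (by positivity) hFd.differentiableOn _ hR0
        (by rwa [mem_ball_zero_iff]) hF0
      intro w hw
      rw [mem_ball_zero_iff] at hw
      have h1 := hre w
      have h2 : √‖w‖ ≤ √R := Real.sqrt_le_sqrt hw.le
      simp only [Set.mem_ofPred_eq]
      linarith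
    have hlim : Tendsto (fun R : ℝ => 2 * (Real.log C + √R + 1) * ‖z‖ / (R - ‖z‖)) atTop
        (𝓝 0) := by
      have h1 : Tendsto (fun R : ℝ => (Real.log C + √R + 1) / (R - ‖z‖)) atTop (𝓝 0) := by
        have h2 : Tendsto (fun R : ℝ => (Real.log C + 1) * R⁻¹ + (√R)⁻¹) atTop (𝓝 0) := by
          have h3 : Tendsto (fun R : ℝ => (Real.log C + 1) * R⁻¹) atTop
              (𝓝 ((Real.log C + 1) * 0)) := tendsto_inv_atTop_zero.const_mul _
          have h4 : Tendsto (fun R : ℝ => (√R)⁻¹) atTop (𝓝 0) :=
            tendsto_inv_atTop_zero.comp Real.tendsto_sqrt_atTop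
          simpa using h3.add h4
        have h5 : Tendsto (fun R : ℝ => 2 * ((Real.log C + 1) * R⁻¹ + (√R)⁻¹)) atTop
            (𝓝 0) := by simpa using h2.const_mul 2
        refine squeeze_zero' ?_ ?_ h5
        · filter_upwards [eventually_gt_atTop ‖z‖] with R hR
          have : 0 < R - ‖z‖ := by linarith
          positivity
        · filter_upwards [eventually_gt_atTop (2 * ‖z‖), eventually_gt_atTop 0] with R hR hR0
          have h6 : R / 2 ≤ R - ‖z‖ := by linarith
          have h7 : (Real.log C + √R + 1) / (R - ‖z‖) ≤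
              (Real.log C + √R + 1) / (R / 2) :=
            div_le_div_of_nonneg_left (by positivity) (by positivity) h6
          refine h7.trans (le_of_eq ?_)
          have h8 : (√R)⁻¹ = √R / R := by
            rw [inv_eq_one_div, div_eq_div_iff (by positivity) hR0.ne', one_mul,
              Real.mul_self_sqrt hR0.le]
          rw [h8]
          field_simp
          ring
      have h9 : Tendsto (fun R : ℝ => (2 * ‖z‖) * ((Real.log C + √R + 1) / (R - ‖z‖))) atTop
          (𝓝 ((2 * ‖z‖) * 0)) := h1.const_mul _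
      rw [mul_zero] at h9
      refine h9.congr ?_
      intro R
      ring
    have h10 : ‖F z‖ ≤ 0 := by
      apply ge_of_tendsto hlim
      filter_upwards [eventually_gt_atTop ‖z‖] with R hR
      exact hb R hR
    exact norm_le_zero_iff.1 h10
  intro z
  rw [hexp z, hFz z, Complex.exp_zero]

/-- An entire function with finitely many zeros is a monic polynomial times a zero-free entire
function. -/
theorem exists_factor (s : Finset ℂ) : ∀ g : ℂ → ℂ, Differentiable ℂ g →
    (∀ z, g z = 0 ↔ z ∈ s) → ∃ (P : Polynomial ℂ) (h : ℂ → ℂ), P.Monic ∧ Differentiable ℂ h ∧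
      (∀ z, h z ≠ 0) ∧ ∀ z, g z = P.eval z * h z := by
  induction s using Finset.induction_on with
  | empty =>
    intro g hg hz
    refine ⟨1, g, Polynomial.monic_one, hg, fun z h => ?_, fun z => by simp⟩
    have := (hz z).1 h
    simp at this
  | insert z₀ s hz₀ ih =>
    intro g hg hz
    have hne : ¬ ∀ᶠ z in 𝓝 z₀, g z = 0 := by
      intro hev
      have h1 : {z | g z = 0} ∈ 𝓝 z₀ := hev
      have h2 : {z | g z = 0} = ((insert z₀ s : Finset ℂ) : Set ℂ) := by
        ext z
        simp only [Set.mem_ofPred_eq, Finset.mem_coe]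
        exact hz z
      rw [h2] at h1
      exact (infinite_of_mem_nhds z₀ h1) (Finset.finite_toSet _)
    obtain ⟨n, h₀, hh₀, hh₀z, hev⟩ :=
      ((hg.analyticAt z₀).exists_eventuallyEq_pow_smul_nonzero_iff).2 hne
    have hn : n ≠ 0 := by
      intro hn
      subst hn
      have h1 := hev.self_of_nhds
      simp only [pow_zero, one_smul] at h1
      rw [(hz z₀).2 (Finset.mem_insert_self _ _)] at h1
      exact hh₀z h1.symm
    classical
    set G : ℂ → ℂ := fun z => if z = z₀ then h₀ z₀ else g z / (z - z₀) ^ n with hG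
    have hGne : ∀ z, z ≠ z₀ → G z = g z / (z - z₀) ^ n := by
      intro z hz
      simp only [hG, if_neg hz]
    have hGat : ∀ᶠ z in 𝓝 z₀, G z = h₀ z := by
      filter_upwards [hev] with z hz
      by_cases h : z = z₀
      · subst h
        simp [hG]
      · rw [hGne z h, hz, smul_eq_mul]
        rw [mul_comm, mul_div_assoc, div_self (pow_ne_zero _ (sub_ne_zero.2 h)), mul_one]
    have hGd : Differentiable ℂ G := by
      intro z
      by_cases h : z = z₀
      · subst h
        exact (hh₀.differentiableAt).congr_of_eventuallyEq hGat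
      · have h1 : DifferentiableAt ℂ (fun w => g w / (w - z₀) ^ n) z := by
          apply (hg z).div
          · fun_prop
          · exact pow_ne_zero _ (sub_ne_zero.2 h)
        apply h1.congr_of_eventuallyEq
        have h2 : ∀ᶠ w in 𝓝 z, w ≠ z₀ := isOpen_ne.mem_nhds h
        filter_upwards [h2] with w hw
        exact hGne w hw
    have hGz : ∀ z, G z = 0 ↔ z ∈ s := by
      intro z
      by_cases h : z = z₀
      · subst h
        have h1 : G z = h₀ z := by simp [hG]
        rw [h1]
        exact ⟨fun h2 => absurd h2 hh₀z, fun h2 => absurd h2 hz₀⟩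
      · rw [hGne z h, div_eq_zero_iff, hz z, Finset.mem_insert]
        have h2 : (z - z₀) ^ n ≠ 0 := pow_ne_zero _ (sub_ne_zero.2 h)
        tauto
    obtain ⟨P, k, hP, hk, hkz, hPk⟩ := ih G hGd hGz
    refine ⟨(Polynomial.X - Polynomial.C z₀) ^ n * P, k,
      ((Polynomial.monic_X_sub_C z₀).pow n).mul hP, hk, hkz, fun z => ?_⟩
    rw [Polynomial.eval_mul, Polynomial.eval_pow, Polynomial.eval_sub, Polynomial.eval_X,
      Polynomial.eval_C, mul_assoc, ← hPk]
    by_cases h : z = z₀
    · subst h
      rw [sub_self, zero_pow hn, zero_mul]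
      exact (hz z).2 (Finset.mem_insert_self _ _)
    · rw [hGne z h]
      have h2 : (z - z₀) ^ n ≠ 0 := pow_ne_zero _ (sub_ne_zero.2 h)
      field_simp

/-- An entire function of order at most `1/2` with finitely many zeros is a polynomial. -/
theorem polynomial_of_finite_zeros (g : ℂ → ℂ) (C : ℝ) (hgd : Differentiable ℂ g)
    (hgb : ∀ z, ‖g z‖ ≤ C * Real.exp (√‖z‖)) (hfin : {z | g z = 0}.Finite) :
    ∃ Q : Polynomial ℂ, ∀ z, g z = Q.eval z := by
  obtain ⟨P, h, hP, hhd, hhz, hfac⟩ := exists_factor hfin.toFinset g hgd (fun z => by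
    rw [Set.Finite.mem_toFinset]; rfl)
  have hC0 : 0 ≤ C := by
    have h1 := (norm_nonneg _).trans (hgb 0)
    have h2 := Real.exp_pos (√‖(0 : ℂ)‖)
    nlinarith
  -- outside a disk the polynomial is at least one
  obtain ⟨R, hR⟩ : ∃ R : ℝ, ∀ z : ℂ, R < ‖z‖ → 1 ≤ ‖P.eval z‖ := by
    by_cases hdeg : 0 < P.degree
    · have h1 := P.tendsto_norm_atTop hdeg (tendsto_norm_cocompact_atTop (E := ℂ))
      have h2 := h1.eventually_ge_atTop 1
      rw [← Metric.cobounded_eq_cocompact] at h2
      obtain ⟨R, -, hR⟩ := (Metric.hasBasis_cobounded_compl_closedBall (0 : ℂ)).eventually_iff.1 h2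
      refine ⟨R, fun z hz => hR ?_⟩
      simp only [Set.mem_compl_iff, mem_closedBall_zero_iff, not_le]
      exact hz
    · refine ⟨0, fun z _ => ?_⟩
      have h1 : P = 1 := by
        apply Polynomial.eq_one_of_monic_natDegree_zero hP
        rw [Polynomial.natDegree_eq_zero_iff_degree_le_zero]
        exact not_lt.1 hdeg
      rw [h1]
      simp
  obtain ⟨M, hM⟩ : ∃ M : ℝ, ∀ z : ℂ, ‖z‖ ≤ R → ‖h z‖ ≤ M := by
    have hcomp : IsCompact (Metric.closedBall (0 : ℂ) R) := isCompact_closedBall _ _
    obtain ⟨M, hM⟩ := hcomp.exists_bound_of_continuousOn hhd.continuous.continuousOn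
    exact ⟨M, fun z hz => hM z (by rwa [mem_closedBall_zero_iff])⟩
  have hh0 : h 0 ≠ 0 := hhz 0
  have hn0 : 0 < ‖h 0‖ := norm_pos_iff.2 hh0
  have hbound : ∀ z, ‖h z‖ ≤ (C + |M|) * Real.exp (√‖z‖) := by
    intro z
    have he : 1 ≤ Real.exp (√‖z‖) := Real.one_le_exp (Real.sqrt_nonneg _)
    have hM0 := abs_nonneg M
    rcases le_or_gt ‖z‖ R with hz | hz
    · have h1 := hM z hz
      have h2 := le_abs_self M
      nlinarith
    · have h1 := hR z hz
      have h2 := hgb z
      rw [hfac z, norm_mul] at h2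
      have h3 : ‖h z‖ ≤ ‖P.eval z‖ * ‖h z‖ := by
        have := norm_nonneg (h z)
        nlinarith
      nlinarith
  have hconst := zero_free_const (fun z => h z / h 0) ((C + |M|) / ‖h 0‖)
    (hhd.div_const _) (fun z => by
      rw [norm_div, div_mul_eq_mul_div]
      exact div_le_div_of_nonneg_right (hbound z) hn0.le)
    (fun z => div_ne_zero (hhz z) hh0) (div_self hh0)
  refine ⟨P * Polynomial.C (h 0), fun z => ?_⟩
  have h1 := hconst z
  rw [div_eq_one_iff_eq hh0] at h1
  rw [hfac z, h1, Polynomial.eval_mul, Polynomial.eval_C]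

/-- With infinitely many nonzero coefficients the function `1 - ∑ a_k z^(k+1)` has infinitely many
zeros. -/
theorem infinite_zeros (a : ℕ → ℂ) (C : ℝ)
    (ha : ∀ k, ‖a k‖ ≤ C * (1 / (Nat.factorial (2 * (k + 1)) : ℝ)))
    (hfin : {z : ℂ | ∑' k, a k * z ^ (k + 1) = 1}.Finite) : ∃ N, ∀ k, N ≤ k → a k = 0 := by
  have hC : 0 ≤ C := by
    have h1 := (norm_nonneg _).trans (ha 0)
    have h2 : (0 : ℝ) < 1 / (Nat.factorial (2 * (0 + 1)) : ℝ) := by positivity
    by_contra hcon
    push Not at hcon
    nlinarith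
  set g : ℂ → ℂ := fun z => 1 - ∑' k, a k * z ^ (k + 1) with hg
  have hsum : ∀ z : ℂ, Summable (fun k => ‖a k * z ^ (k + 1)‖) := by
    intro z
    have := (series_bound a C ha ‖z‖ (norm_nonneg _)).1
    simpa only [norm_mul, norm_pow] using this
  have hgb : ∀ z : ℂ, ‖g z‖ ≤ (1 + C) * Real.exp (√‖z‖) := by
    intro z
    have h1 : ‖∑' k, a k * z ^ (k + 1)‖ ≤ C * Real.exp (√‖z‖) := by
      refine (norm_tsum_le_tsum_norm (hsum z)).trans ?_
      have := (series_bound a C ha ‖z‖ (norm_nonneg _)).2
      simpa only [norm_mul, norm_pow] using this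
    have h2 : ‖g z‖ ≤ ‖(1 : ℂ)‖ + ‖∑' k, a k * z ^ (k + 1)‖ := norm_sub_le _ _
    rw [norm_one] at h2
    have h3 : 1 ≤ Real.exp (√‖z‖) := Real.one_le_exp (Real.sqrt_nonneg _)
    linarith
  have hgd : Differentiable ℂ g := by
    intro z
    have h1 : DifferentiableOn ℂ (fun w : ℂ => ∑' k, a k * w ^ (k + 1))
        (Metric.ball 0 (‖z‖ + 1)) := by
      apply Complex.differentiableOn_tsum_of_summable_norm
        (u := fun k => ‖a k‖ * (‖z‖ + 1) ^ (k + 1))
      · exact (series_bound a C ha (‖z‖ + 1) (by positivity)).1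
      · intro k
        fun_prop
      · exact Metric.isOpen_ball
      · intro k w hw
        rw [norm_mul, norm_pow]
        rw [mem_ball_zero_iff] at hw
        exact mul_le_mul_of_nonneg_left (pow_le_pow_left₀ (norm_nonneg _) hw.le _) (norm_nonneg _)
    have h2 : DifferentiableAt ℂ (fun w : ℂ => ∑' k, a k * w ^ (k + 1)) z :=
      h1.differentiableAt (Metric.isOpen_ball.mem_nhds (by rw [mem_ball_zero_iff]; linarith))
    exact (differentiableAt_const _).sub h2
  have hset : {z | g z = 0} = {z : ℂ | ∑' k, a k * z ^ (k + 1) = 1} := by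
    ext z
    simp only [hg, Set.mem_ofPred_eq]
    constructor
    · intro h; linear_combination -h
    · intro h; linear_combination -h
  obtain ⟨Q, hQ⟩ := polynomial_of_finite_zeros g (1 + C) hgd hgb (by rw [hset]; exact hfin)
  refine ⟨Q.natDegree, fun k hk => ?_⟩
  -- compare the coefficients
  set b : ℕ → ℂ := fun n => (if n = 0 then 1 else -a (n - 1)) - Q.coeff n with hb
  have hbs : ∀ k, b (k + 1) = -a k - Q.coeff (k + 1) := by
    intro k
    simp [hb]
  have hb0 : b 0 = 1 - Q.coeff 0 := by simp [hb]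
  have hQs : ∀ r : ℂ, Summable (fun n => ‖Q.coeff (n + 1) * r ^ (n + 1)‖) := by
    intro r
    apply summable_of_ne_finset_zero (s := Finset.range (Q.natDegree + 1))
    intro n hn
    have : Q.coeff (n + 1) = 0 := by
      apply Polynomial.coeff_eq_zero_of_natDegree_lt
      simp only [Finset.mem_range, not_lt] at hn
      omega
    rw [this, zero_mul, norm_zero]
  have hbsum : Summable (fun n => ‖b n‖) := by
    apply (summable_nat_add_iff 1).1
    have h1 := (series_bound a C ha 1 zero_le_one).1
    have h2 := hQs 1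
    simp only [one_pow, mul_one] at h1 h2
    apply Summable.of_nonneg_of_le (fun k => norm_nonneg _) (fun k => ?_) (h1.add h2)
    rw [hbs]
    refine (norm_sub_le _ _).trans ?_
    rw [norm_neg]
  have hzero : ∀ z : ℂ, ‖z‖ ≤ 1 → ∑' n, b n * z ^ n = 0 := by
    intro z hz
    have hs : Summable (fun n => b n * z ^ n) := by
      apply Summable.of_norm
      apply Summable.of_nonneg_of_le (fun k => norm_nonneg _) (fun k => ?_) hbsum
      rw [norm_mul, norm_pow]
      exact mul_le_of_le_one_right (norm_nonneg _) (pow_le_one₀ (norm_nonneg _) hz)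
    rw [hs.tsum_eq_zero_add]
    have h1 : ∑' n, b (n + 1) * z ^ (n + 1) =
        -(∑' n, a n * z ^ (n + 1)) - ∑' n, Q.coeff (n + 1) * z ^ (n + 1) := by
      rw [← tsum_neg, ← Summable.tsum_sub (Summable.of_norm (hsum z)).neg
        (Summable.of_norm (hQs z))]
      congr 1
      ext n
      rw [hbs]
      ring
    have h2 : ∑' n, Q.coeff (n + 1) * z ^ (n + 1) = Q.eval z - Q.coeff 0 := by
      have h3 : ∑' n, Q.coeff (n + 1) * z ^ (n + 1) =
          ∑ n ∈ Finset.range Q.natDegree, Q.coeff (n + 1) * z ^ (n + 1) := by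
        apply tsum_eq_sum
        intro n hn
        have : Q.coeff (n + 1) = 0 := by
          apply Polynomial.coeff_eq_zero_of_natDegree_lt
          simp only [Finset.mem_range, not_lt] at hn
          omega
        rw [this, zero_mul]
      rw [h3, Polynomial.eval_eq_sum_range, Finset.sum_range_succ']
      simp
    have h3 := hQ z
    simp only [hg] at h3
    rw [h1, h2, hb0]
    simp only [pow_zero, mul_one]
    linear_combination h3
  have h4 := coeff_eq_zero b hbsum hzero (k + 1)
  rw [hbs, Polynomial.coeff_eq_zero_of_natDegree_lt (by omega)] at h4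
  linear_combination -h4

end Pool.Agent.Lib.MP_7c4fde_an
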