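import Pool.Agent.Lib.MP_7c4fde_an.Final
import Pool.Agent.Lib.MP_7c4fde_an.Zeros

set_option autoImplicit false

namespace Pool.Agent.Lib.MP_7c4fde_an

open Filter Topology

/-- Hahn-Banach for a closed proper subspace. -/
theorem exists_functional {E : Type*} [NormedAddCommGroup E] [NormedSpace ℂ E]
    (M : Submodule ℂ E) (hM : IsClosed (M : Set E)) (x : E) (hx : x ∉ M) :
    ∃ φ : E →L[ℂ] ℂ, (∀ y ∈ M, φ y = 0) ∧ φ x ≠ 0 := by
  haveI := hM
  have hne : M.mkQ x ≠ 0 := by
    rw [Ne, Submodule.mkQ_apply, Submodule.Quotient.mk_eq_zero]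
    exact hx
  obtain ⟨g, -, hg⟩ := exists_dual_vector ℂ (M.mkQ x) (norm_ne_zero_iff.2 hne)
  refine ⟨g.comp M.mkQL, fun y hy => ?_, ?_⟩
  · have h1 : M.mkQ y = 0 := by
      rw [Submodule.mkQ_apply, Submodule.Quotient.mk_eq_zero]
      exact hy
    rw [ContinuousLinearMap.comp_apply, Submodule.mkQL_apply, h1, map_zero]
  · rw [ContinuousLinearMap.comp_apply, Submodule.mkQL_apply, hg]
    simpa using hne

/-- A continuous operator of rank one is `y ↦ φ y • v`. -/
theorem rank_one_repr {E : Type*} [NormedAddCommGroup E] [NormedSpace ℂ E] (F : E →L[ℂ] E)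
    (hF : Module.finrank ℂ (LinearMap.range (F : E →ₗ[ℂ] E)) = 1) :
    ∃ (v : E) (φ : E →L[ℂ] ℂ), v ≠ 0 ∧ φ ≠ 0 ∧ ∀ y, F y = (φ y) • v := by
  obtain ⟨v₀, hv₀, hspan⟩ := finrank_eq_one_iff'.1 hF
  obtain ⟨v, hv⟩ : ∃ v : E, v = (v₀ : E) := ⟨_, rfl⟩
  have hv0 : v ≠ 0 := by
    rw [hv]
    intro h
    exact hv₀ (Subtype.ext h)
  have hsp : ∀ y : E, ∃ c : ℂ, c • v = F y := by
    intro y
    obtain ⟨c, hc⟩ := hspan ⟨F y, ⟨y, rfl⟩⟩
    refine ⟨c, ?_⟩
    rw [hv]
    exact congrArg Subtype.val hc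
  choose c hc using hsp
  have hinj : ∀ a b : ℂ, a • v = b • v → a = b := by
    intro a b hab
    have : (a - b) • v = 0 := by rw [sub_smul, hab, sub_self]
    rcases smul_eq_zero.1 this with h | h
    · exact sub_eq_zero.1 h
    · exact absurd h hv0
  have hvpos : 0 < ‖v‖ := norm_pos_iff.2 hv0
  obtain ⟨φ, hφ⟩ : ∃ φ : E →L[ℂ] ℂ, ∀ y, F y = (φ y) • v := by
    refine ⟨LinearMap.mkContinuous
      { toFun := c
        map_add' := fun a b => hinj _ _ (by rw [hc, map_add, add_smul, hc, hc])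
        map_smul' := fun a b => hinj _ _ (by
          rw [hc, map_smul, RingHom.id_apply, smul_eq_mul, mul_smul, hc]) }
      (‖F‖ / ‖v‖) (fun y => ?_), fun y => ?_⟩
    · simp only [LinearMap.coe_mk, AddHom.coe_mk]
      have h1 := F.le_opNorm y
      rw [← hc y, norm_smul] at h1
      rw [div_mul_eq_mul_div, le_div_iff₀ hvpos]
      exact h1
    · show F y = (c y) • v
      rw [hc]
  refine ⟨v, φ, hv0, ?_, hφ⟩
  intro hφ0
  obtain ⟨y, hy⟩ := v₀.2
  apply hv0
  have h1 : F y = v := by rw [hv]; exact hy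
  rw [← h1, hφ, hφ0]
  simp

/-- The strong form of the answer: prescribed decay, no invariant subspace, and every rank-one
perturbation has infinitely many eigenvalues. -/
theorem strong_answer (ε : ℕ → ℝ) (hε : ∀ n, 0 < ε n) : ∃ T : E1 →L[ℂ] E1,
    (∀ n, 1 ≤ n → ‖T ^ n‖ ≤ ε n) ∧ spectrum ℂ T = {0} ∧
    (∀ M : Submodule ℂ E1, IsClosed (M : Set E1) → (∀ x ∈ M, T x ∈ M) → M = ⊥ ∨ M = ⊤) ∧
    ∀ F : E1 →L[ℂ] E1, Module.finrank ℂ (LinearMap.range (F : E1 →ₗ[ℂ] E1)) = 1 →
      {μ : ℂ | ∃ u : E1, u ≠ 0 ∧ (T + F) u = μ • u}.Infinite := by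
  -- a decreasing minorant
  have hmin : ∃ δ : ℕ → ℝ, Antitone δ ∧ (∀ n, 0 < δ n) ∧ (∀ n, δ n ≤ eps n) ∧ ∀ n, δ n ≤ ε n := by
    refine ⟨fun n => (Finset.range (n + 1)).inf' (by simp) (fun k => min (eps k) (ε k)),
      ?_, ?_, ?_, ?_⟩
    · intro m n hmn
      apply Finset.inf'_mono
      intro k hk
      simp only [Finset.mem_range] at hk ⊢
      omega
    · intro n
      rw [Finset.lt_inf'_iff]
      intro k _
      exact lt_min (eps_pos k) (hε k)
    · intro n
      exact (Finset.inf'_le _ (by simp : n ∈ Finset.range (n + 1))).trans (min_le_left _ _)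
    · intro n
      exact (Finset.inf'_le _ (by simp : n ∈ Finset.range (n + 1))).trans (min_le_right _ _)
  obtain ⟨δ, hδa, hδ0, hδe, hδε⟩ := hmin
  obtain ⟨T, hT, hcyc⟩ := exists_operator δ hδa hδ0 (fun k => (hδe k).trans (eps_le_one k))
  have hnt : Nontrivial E1 := ⟨⟨f 0, 0, fun h => by
    have := norm_f 0
    rw [h, norm_zero] at this
    exact zero_ne_one this⟩⟩
  have hTk : ∀ k, ‖T ^ k‖ ≤ 2 * eps k := by
    intro k
    rcases Nat.eq_zero_or_pos k with h | h
    · subst h
      rw [pow_zero]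
      refine ContinuousLinearMap.norm_id_le.trans ?_
      unfold eps
      norm_num [Nat.factorial]
    · have h1 := hT k h
      have h2 := hδe k
      have := eps_pos k
      linarith
  -- a nonzero vector and a vector outside a line
  have hline : ∀ v : E1, ∃ φ : E1 →L[ℂ] ℂ, φ ≠ 0 ∧ φ v = 0 := by
    intro v
    have hfin : FiniteDimensional ℂ (Submodule.span ℂ {v}) := inferInstance
    have hcl : IsClosed ((Submodule.span ℂ {v} : Submodule ℂ E1) : Set E1) :=
      Submodule.closed_of_finiteDimensional _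
    have hne : ∃ x : E1, x ∉ Submodule.span ℂ {v} := by
      by_contra hcon
      push Not at hcon
      apply not_finiteDimensional
      have h1 : (Submodule.span ℂ {v} : Submodule ℂ E1) = ⊤ := by
        rw [Submodule.eq_top_iff']
        exact hcon
      rw [h1] at hfin
      exact Module.Finite.of_surjective (Submodule.subtype (⊤ : Submodule ℂ E1))
        (fun x => ⟨⟨x, trivial⟩, rfl⟩)
    obtain ⟨x, hx⟩ := hne
    obtain ⟨φ, hφ, hφx⟩ := exists_functional _ hcl x hx
    refine ⟨φ, ?_, hφ v (Submodule.mem_span_singleton_self v)⟩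
    intro h
    rw [h] at hφx
    exact hφx (by simp)
  have hinj : ∀ v : E1, v ≠ 0 → T v ≠ 0 := by
    intro v hv hTv
    obtain ⟨φ, hφ0, hφv⟩ := hline v
    apply hφ0
    apply hcyc v hv
    intro k
    rcases Nat.eq_zero_or_pos k with h | h
    · subst h
      simpa using hφv
    · obtain ⟨m, rfl⟩ := Nat.exists_eq_succ_of_ne_zero h.ne'
      rw [Nat.succ_eq_add_one, pow_succ, mul_apply_eq_comp, hTv, map_zero, map_zero]
  have hpow : ∀ (n : ℕ) (v : E1), v ≠ 0 → (T ^ n) v ≠ 0 := by
    intro n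
    induction n with
    | zero => intro v hv; simpa using hv
    | succ n ih =>
      intro v hv
      rw [pow_succ, mul_apply_eq_comp]
      exact ih _ (hinj v hv)
  refine ⟨T, fun n hn => (hT n hn).trans (hδε n), ?_, ?_, ?_⟩
  · -- the spectrum of `T`
    apply Set.eq_singleton_iff_nonempty_unique_mem.2
    refine ⟨spectrum.nonempty T, ?_⟩
    intro μ hμ
    by_contra hμ0
    have hpos : 0 < ‖μ‖ := norm_pos_iff.2 hμ0
    have h1 : ∀ n : ℕ, ‖μ‖ ^ n ≤ 2 * eps n := by
      intro n
      have h2 := spectrum.pow_mem_pow T n hμ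
      have h3 := spectrum.norm_le_norm_of_mem h2
      rw [norm_pow] at h3
      exact h3.trans (hTk n)
    have h2 : ∀ n : ℕ, 1 ≤ 2 * ((‖μ‖⁻¹) ^ n / (Nat.factorial n : ℝ)) := by
      intro n
      have h3 := h1 n
      have h4 : eps n ≤ 1 / (Nat.factorial n : ℝ) := by
        unfold eps
        apply div_le_div_of_nonneg_left (by norm_num) (by positivity)
        exact_mod_cast Nat.factorial_le (by omega)
      have h5 : (‖μ‖⁻¹) ^ n * ‖μ‖ ^ n = 1 := by
        rw [← mul_pow, inv_mul_cancel₀ hpos.ne', one_pow]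
      calc 1 = (‖μ‖⁻¹) ^ n * ‖μ‖ ^ n := h5.symm
        _ ≤ (‖μ‖⁻¹) ^ n * (2 * (1 / (Nat.factorial n : ℝ))) := by
            apply mul_le_mul_of_nonneg_left _ (by positivity)
            linarith
        _ = _ := by ring
    have h3 := (FloorSemiring.tendsto_pow_div_factorial_atTop (‖μ‖⁻¹)).const_mul 2
    rw [mul_zero] at h3
    have h4 := ge_of_tendsto' h3 h2
    linarith
  · -- invariant subspaces
    intro M hM hinv
    by_contra hcon
    push Not at hcon
    obtain ⟨hbot, htop⟩ := hcon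
    obtain ⟨v, hvM, hv0⟩ := (Submodule.ne_bot_iff M).1 hbot
    obtain ⟨x, hx⟩ : ∃ x : E1, x ∉ M := by
      by_contra h
      push Not at h
      exact htop (Submodule.eq_top_iff'.2 h)
    obtain ⟨φ, hφ, hφx⟩ := exists_functional M hM x hx
    have horb : ∀ k, (T ^ k) v ∈ M := by
      intro k
      induction k with
      | zero => simpa using hvM
      | succ k ih =>
        rw [pow_succ', mul_apply_eq_comp]
        exact hinv _ ih
    have h1 := hcyc v hv0 φ (fun k => hφ _ (horb k))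
    rw [h1] at hφx
    exact hφx (by simp)
  · -- eigenvalues of the rank-one perturbation
    intro F hF hfinite
    obtain ⟨v, φ, hv0, hφ0, hφ⟩ := rank_one_repr F hF
    set a : ℕ → ℂ := fun k => φ ((T ^ k) v) with ha
    have habound : ∀ k, ‖a k‖ ≤ (2 * ‖φ‖ * ‖v‖) * (1 / (Nat.factorial (2 * (k + 1)) : ℝ)) := by
      intro k
      have h1 : ‖(T ^ k) v‖ ≤ 2 * eps k * ‖v‖ := (T ^ k).le_of_opNorm_le (hTk k) v
      calc ‖a k‖ ≤ ‖φ‖ * ‖(T ^ k) v‖ := φ.le_opNorm _
        _ ≤ ‖φ‖ * (2 * eps k * ‖v‖) := mul_le_mul_of_nonneg_left h1 (norm_nonneg _)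
        _ = _ := by unfold eps; ring
    -- every zero gives an eigenvalue
    have heig : ∀ z : ℂ, ∑' k, a k * z ^ (k + 1) = 1 →
        z ≠ 0 ∧ z⁻¹ ∈ {μ : ℂ | ∃ u : E1, u ≠ 0 ∧ (T + F) u = μ • u} := by
      intro z hz
      have hz0 : z ≠ 0 := by
        rintro rfl
        simp at hz
      refine ⟨hz0, ?_⟩
      have hsummable : Summable (fun k => z ^ (k + 1) • (T ^ k) v) := by
        apply Summable.of_norm
        have hr := (series_bound (fun k => ((eps k : ℝ) : ℂ)) 1 (by
          intro k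
          rw [Complex.norm_real, Real.norm_eq_abs, abs_of_pos (eps_pos k), one_mul]
          exact le_rfl) ‖z‖ (norm_nonneg _)).1
        apply Summable.of_nonneg_of_le (fun k => norm_nonneg _) (fun k => ?_)
          (hr.mul_left (2 * ‖v‖))
        rw [norm_smul, norm_pow, Complex.norm_real, Real.norm_eq_abs, abs_of_pos (eps_pos k)]
        have h1 : ‖(T ^ k) v‖ ≤ 2 * eps k * ‖v‖ := (T ^ k).le_of_opNorm_le (hTk k) v
        calc ‖z‖ ^ (k + 1) * ‖(T ^ k) v‖ ≤ ‖z‖ ^ (k + 1) * (2 * eps k * ‖v‖) :=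
              mul_le_mul_of_nonneg_left h1 (by positivity)
          _ = _ := by ring
      set u : E1 := ∑' k, z ^ (k + 1) • (T ^ k) v with hu
      have hφu : φ u = 1 := by
        rw [hu, φ.map_tsum hsummable]
        have h1 : (fun k => φ (z ^ (k + 1) • (T ^ k) v)) = fun k => a k * z ^ (k + 1) := by
          ext k
          rw [map_smul, smul_eq_mul, mul_comm]
        rw [h1]
        exact hz
      have hTu : T u = z⁻¹ • u - v := by
        have h1 : T u = ∑' k, z ^ (k + 1) • (T ^ (k + 1)) v := by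
          rw [hu, T.map_tsum hsummable]
          congr 1
          ext1 k
          rw [map_smul, pow_succ' T k, mul_apply_eq_comp]
        have h2 : z⁻¹ • u = ∑' k, z ^ k • (T ^ k) v := by
          rw [hu, ← hsummable.tsum_const_smul]
          congr 1
          ext1 k
          rw [smul_smul, pow_succ', ← mul_assoc, inv_mul_cancel₀ hz0, one_mul]
        have h3 : Summable (fun k => z ^ k • (T ^ k) v) := by
          have := hsummable.const_smul z⁻¹
          refine this.congr ?_
          intro k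
          rw [smul_smul, pow_succ', ← mul_assoc, inv_mul_cancel₀ hz0, one_mul]
        rw [h1, h2, h3.tsum_eq_zero_add]
        simp
      refine ⟨u, ?_, ?_⟩
      · intro hu0
        rw [hu0, map_zero] at hφu
        exact zero_ne_one hφu
      · rw [_root_.add_apply, hφ, hφu, hTu, one_smul]
        abel
    have hzfin : {z : ℂ | ∑' k, a k * z ^ (k + 1) = 1}.Finite := by
      apply Set.Finite.of_finite_image (f := fun z : ℂ => z⁻¹) _ inv_injective.injOn
      apply hfinite.subset
      rintro _ ⟨z, hz, rfl⟩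
      exact (heig z hz).2
    obtain ⟨N, hN⟩ := infinite_zeros a _ habound hzfin
    apply hφ0
    apply hcyc ((T ^ N) v) (hpow N v hv0)
    intro k
    rw [← mul_apply_eq_comp, ← pow_add]
    exact hN _ (by omega)

end Pool.Agent.Lib.MP_7c4fde_an
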