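import Mathlib

set_option autoImplicit false

namespace Pool.Agent.Lib.MP_7c4fde_an

open Filter Topology

/-- A power series vanishing on the unit disk has zero coefficients. -/
theorem coeff_eq_zero (b : ℕ → ℂ) (hs : Summable fun n => ‖b n‖)
    (h : ∀ z : ℂ, ‖z‖ ≤ 1 → ∑' n, b n * z ^ n = 0) : ∀ n, b n = 0 := by
  intro n
  induction n using Nat.strong_induction_on with
  | _ n ih =>
    have hsm : ∀ z : ℂ, ‖z‖ ≤ 1 → Summable (fun k => b k * z ^ k) := by
      intro z hz
      apply Summable.of_norm
      apply Summable.of_nonneg_of_le (fun k => norm_nonneg _) (fun k => ?_) hs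
      rw [norm_mul, norm_pow]
      exact mul_le_of_le_one_right (norm_nonneg _) (pow_le_one₀ (norm_nonneg _) hz)
    have hsn : Summable (fun k => ‖b (k + n)‖) := (summable_nat_add_iff n).2 hs
    have hkey : ∀ z : ℂ, z ≠ 0 → ‖z‖ ≤ 1 → ‖b n‖ ≤ ‖z‖ * ∑' k, ‖b (k + 1 + n)‖ := by
      intro z hz0 hz
      have h1 := h z hz
      rw [← (hsm z hz).sum_add_tsum_nat_add n] at h1
      have h2 : ∑ i ∈ Finset.range n, b i * z ^ i = 0 := by
        apply Finset.sum_eq_zero
        intro i hi
        rw [ih i (Finset.mem_range.1 hi), zero_mul]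
      rw [h2, zero_add] at h1
      have h3 : ∑' k, b (k + n) * z ^ (k + n) = z ^ n * ∑' k, b (k + n) * z ^ k := by
        rw [← tsum_mul_left]
        congr 1
        ext k
        rw [pow_add]; ring
      rw [h3] at h1
      have h4 : ∑' k, b (k + n) * z ^ k = 0 := by
        rcases mul_eq_zero.1 h1 with h5 | h5
        · exact absurd h5 (pow_ne_zero _ hz0)
        · exact h5
      have hs4 : Summable (fun k => b (k + n) * z ^ k) := by
        apply Summable.of_norm
        apply Summable.of_nonneg_of_le (fun k => norm_nonneg _) (fun k => ?_) hsn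
        rw [norm_mul, norm_pow]
        exact mul_le_of_le_one_right (norm_nonneg _) (pow_le_one₀ (norm_nonneg _) hz)
      rw [hs4.tsum_eq_zero_add] at h4
      simp only [zero_add, pow_zero, mul_one] at h4
      have h5 : b n = -∑' k, b (k + 1 + n) * z ^ (k + 1) := by
        linear_combination h4
      rw [h5, norm_neg]
      have hs5 : Summable (fun k => ‖b (k + 1 + n)‖) := by
        have := (summable_nat_add_iff (n + 1)).2 hs
        refine this.congr ?_
        intro k
        rw [show k + (n + 1) = k + 1 + n by ring]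
      have hs6 : Summable (fun k => ‖b (k + 1 + n) * z ^ (k + 1)‖) := by
        apply Summable.of_nonneg_of_le (fun k => norm_nonneg _) (fun k => ?_) hs5
        rw [norm_mul, norm_pow]
        exact mul_le_of_le_one_right (norm_nonneg _) (pow_le_one₀ (norm_nonneg _) hz)
      refine (norm_tsum_le_tsum_norm hs6).trans ?_
      rw [← tsum_mul_left]
      apply Summable.tsum_le_tsum _ hs6 (hs5.mul_left _)
      intro k
      rw [norm_mul, norm_pow, pow_succ]
      have h7 : ‖z‖ ^ k ≤ 1 := pow_le_one₀ (norm_nonneg _) hz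
      have h8 := norm_nonneg (b (k + 1 + n))
      have h9 := norm_nonneg z
      calc ‖b (k + 1 + n)‖ * (‖z‖ ^ k * ‖z‖) = (‖z‖ * ‖b (k + 1 + n)‖) * ‖z‖ ^ k := by ring
        _ ≤ (‖z‖ * ‖b (k + 1 + n)‖) * 1 := mul_le_mul_of_nonneg_left h7 (by positivity)
        _ = ‖z‖ * ‖b (k + 1 + n)‖ := by ring
    by_contra hb
    have hbpos : 0 < ‖b n‖ := norm_pos_iff.2 hb
    set S := ∑' k, ‖b (k + 1 + n)‖ with hS
    have hS0 : 0 ≤ S := tsum_nonneg fun k => norm_nonneg _
    have hr : 0 < min 1 (‖b n‖ / (2 * (S + 1))) := lt_min one_pos (by positivity)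
    set r : ℝ := min 1 (‖b n‖ / (2 * (S + 1))) with hrdef
    have hnr : ‖((r : ℝ) : ℂ)‖ = r := by
      rw [Complex.norm_real, Real.norm_eq_abs, abs_of_pos hr]
    have h1 := hkey ((r : ℝ) : ℂ) (by exact_mod_cast hr.ne') (by rw [hnr]; exact min_le_left _ _)
    rw [hnr] at h1
    have h2 : r ≤ ‖b n‖ / (2 * (S + 1)) := min_le_right _ _
    have h3 : r * S ≤ ‖b n‖ / (2 * (S + 1)) * S := mul_le_mul_of_nonneg_right h2 hS0
    have h4 : ‖b n‖ / (2 * (S + 1)) * S ≤ ‖b n‖ / 2 := by
      rw [div_mul_eq_mul_div, div_le_div_iff₀ (by positivity) (by norm_num)]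
      nlinarith
    linarith

/-- Growth bound of the series. -/
theorem series_bound (a : ℕ → ℂ) (C : ℝ)
    (ha : ∀ k, ‖a k‖ ≤ C * (1 / (Nat.factorial (2 * (k + 1)) : ℝ))) (r : ℝ) (hr : 0 ≤ r) :
    Summable (fun k => ‖a k‖ * r ^ (k + 1)) ∧
      ∑' k, ‖a k‖ * r ^ (k + 1) ≤ C * Real.exp (√r) := by
  have hC : 0 ≤ C := by
    have h1 := (norm_nonneg _).trans (ha 0)
    have h2 : (0 : ℝ) < 1 / (Nat.factorial (2 * (0 + 1)) : ℝ) := by positivity
    by_contra hcon
    push Not at hcon
    nlinarith
  have hcosh := Real.hasSum_cosh (√r)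
  have hsq : ∀ k : ℕ, (√r) ^ (2 * k) = r ^ k := by
    intro k
    rw [pow_mul, Real.sq_sqrt hr]
  have hle : ∀ k, ‖a k‖ * r ^ (k + 1) ≤
      C * ((√r) ^ (2 * (k + 1)) / (Nat.factorial (2 * (k + 1)) : ℝ)) := by
    intro k
    rw [hsq]
    calc ‖a k‖ * r ^ (k + 1) ≤ C * (1 / (Nat.factorial (2 * (k + 1)) : ℝ)) * r ^ (k + 1) :=
          mul_le_mul_of_nonneg_right (ha k) (pow_nonneg hr _)
      _ = _ := by ring
  have hs1 : Summable (fun k : ℕ => (√r) ^ (2 * (k + 1)) / (Nat.factorial (2 * (k + 1)) : ℝ)) :=
    (summable_nat_add_iff 1).2 hcosh.summable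
  have hs2 := hs1.mul_left C
  have hs3 : Summable (fun k => ‖a k‖ * r ^ (k + 1)) :=
    Summable.of_nonneg_of_le (fun k => by positivity) hle hs2
  refine ⟨hs3, ?_⟩
  calc ∑' k, ‖a k‖ * r ^ (k + 1)
      ≤ ∑' k : ℕ, C * ((√r) ^ (2 * (k + 1)) / (Nat.factorial (2 * (k + 1)) : ℝ)) :=
        hs3.tsum_le_tsum hle hs2
    _ = C * ∑' k : ℕ, (√r) ^ (2 * (k + 1)) / (Nat.factorial (2 * (k + 1)) : ℝ) := tsum_mul_left
    _ ≤ C * Real.cosh (√r) := by
        apply mul_le_mul_of_nonneg_left _ hC
        rw [← hcosh.tsum_eq, hcosh.summable.tsum_eq_zero_add]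
        have : 0 ≤ (√r) ^ (2 * 0) / (Nat.factorial (2 * 0) : ℝ) := by positivity
        linarith
    _ ≤ C * Real.exp (√r) := by
        apply mul_le_mul_of_nonneg_left _ hC
        rw [Real.cosh_eq]
        have h1 : Real.exp (-√r) ≤ Real.exp (√r) :=
          Real.exp_le_exp.2 (by have := Real.sqrt_nonneg r; linarith)
        linarith

/-- A zero-free entire function of order at most `1/2` is constant. -/
theorem entire_trivial (a : ℕ → ℂ) (C : ℝ)
    (ha : ∀ k, ‖a k‖ ≤ C * (1 / (Nat.factorial (2 * (k + 1)) : ℝ)))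
    (hz : ∀ z : ℂ, 1 - ∑' k, a k * z ^ (k + 1) ≠ 0) : ∀ k, a k = 0 := by
  have hC : 0 ≤ C := by
    have h1 := (norm_nonneg _).trans (ha 0)
    have h2 : (0 : ℝ) < 1 / (Nat.factorial (2 * (0 + 1)) : ℝ) := by positivity
    by_contra hcon
    push Not at hcon
    nlinarith
  set g : ℂ → ℂ := fun z => 1 - ∑' k, a k * z ^ (k + 1) with hg
  have hsum : ∀ z : ℂ, Summable (fun k => ‖a k * z ^ (k + 1)‖) := by
    intro z
    have := (series_bound a C ha ‖z‖ (norm_nonneg _)).1
    simpa only [norm_mul, norm_pow] using this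
  have hgb : ∀ z : ℂ, ‖g z‖ ≤ (1 + C) * Real.exp (√‖z‖) := by
    intro z
    have h1 : ‖∑' k, a k * z ^ (k + 1)‖ ≤ C * Real.exp (√‖z‖) := by
      refine (norm_tsum_le_tsum_norm (hsum z)).trans ?_
      have := (series_bound a C ha ‖z‖ (norm_nonneg _)).2
      simpa only [norm_mul, norm_pow] using this
    have h2 : ‖g z‖ ≤ ‖(1 : ℂ)‖ + ‖∑' k, a k * z ^ (k + 1)‖ := norm_sub_le _ _
    rw [norm_one] at h2
    have h3 : 1 ≤ Real.exp (√‖z‖) := Real.one_le_exp (Real.sqrt_nonneg _)
    linarith
  have hgd : Differentiable ℂ g := by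
    intro z
    have h1 : DifferentiableOn ℂ (fun w : ℂ => ∑' k, a k * w ^ (k + 1))
        (Metric.ball 0 (‖z‖ + 1)) := by
      apply Complex.differentiableOn_tsum_of_summable_norm
        (u := fun k => ‖a k‖ * (‖z‖ + 1) ^ (k + 1))
      · exact (series_bound a C ha (‖z‖ + 1) (by positivity)).1
      · intro k
        fun_prop
      · exact Metric.isOpen_ball
      · intro k w hw
        rw [norm_mul, norm_pow]
        rw [mem_ball_zero_iff] at hw
        exact mul_le_mul_of_nonneg_left (pow_le_pow_left₀ (norm_nonneg _) hw.le _) (norm_nonneg _)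
    have h2 : DifferentiableAt ℂ (fun w : ℂ => ∑' k, a k * w ^ (k + 1)) z :=
      h1.differentiableAt (Metric.isOpen_ball.mem_nhds (by rw [mem_ball_zero_iff]; linarith))
    exact (differentiableAt_const _).sub h2
  have hg0 : g 0 = 1 := by
    simp [hg]
  have hgne : ∀ z, g z ≠ 0 := hz
  -- logarithm
  have hdg : Differentiable ℂ (deriv g) := hgd.deriv
  have hq : Differentiable ℂ (fun z => deriv g z / g z) := hdg.div hgd hgne
  obtain ⟨F, hF0, hF⟩ := (hq.isExactOn_univ).with_val_at 0 0
  have hFd : Differentiable ℂ F := fun z => (hF z (Set.mem_univ z)).differentiableAt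
  have hconst : ∀ z, g z * Complex.exp (-F z) = 1 := by
    have hd : ∀ z, HasDerivAt (fun z => g z * Complex.exp (-F z)) 0 z := by
      intro z
      have h1 := (hgd z).hasDerivAt
      have h2 := (hF z (Set.mem_univ z)).neg.cexp
      have h3 : HasDerivAt (fun z => g z * Complex.exp (-F z)) (deriv g z * Complex.exp (-F z) +
          g z * (Complex.exp (-F z) * -(deriv g z / g z))) z := h1.mul h2
      refine h3.congr_deriv ?_
      have h4 := hgne z
      have h5 : g z * (Complex.exp (-F z) * -(deriv g z / g z)) =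
          -(deriv g z * Complex.exp (-F z)) * (g z / g z) := by ring
      rw [h5, div_self h4]
      ring
    have hdd : Differentiable ℂ (fun z => g z * Complex.exp (-F z)) :=
      fun z => (hd z).differentiableAt
    intro z
    have h4 := is_const_of_deriv_eq_zero hdd (fun w => (hd w).deriv) z 0
    rw [h4, hg0, hF0]
    simp
  have hexp : ∀ z, g z = Complex.exp (F z) := by
    intro z
    have h1 := hconst z
    rw [Complex.exp_neg] at h1
    have h2 := Complex.exp_ne_zero (F z)
    field_simp at h1
    exact h1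
  have hre : ∀ z, (F z).re ≤ Real.log (1 + C) + √‖z‖ := by
    intro z
    have h1 := hgb z
    rw [hexp z, Complex.norm_exp] at h1
    have h2 := Real.log_le_log (Real.exp_pos _) h1
    rw [Real.log_exp, Real.log_mul (by positivity) (Real.exp_pos _).ne', Real.log_exp] at h2
    exact h2
  have hlog : 0 ≤ Real.log (1 + C) := Real.log_nonneg (by linarith)
  have hFz : ∀ z, F z = 0 := by
    intro z
    -- Borel-Caratheodory on balls of radius `m^2`
    have hb : ∀ R : ℝ, ‖z‖ < R → ‖F z‖ ≤ 2 * (Real.log (1 + C) + √R + 1) * ‖z‖ / (R - ‖z‖) := by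
      intro R hR
      have hR0 : 0 < R := lt_of_le_of_lt (norm_nonneg _) hR
      apply Complex.borelCaratheodory_zero (by positivity) hFd.differentiableOn _ hR0
        (by rwa [mem_ball_zero_iff]) hF0
      intro w hw
      rw [mem_ball_zero_iff] at hw
      have h1 := hre w
      have h2 : √‖w‖ ≤ √R := Real.sqrt_le_sqrt hw.le
      simp only [Set.mem_ofPred_eq]
      linarith
    have hlim : Tendsto (fun R : ℝ => 2 * (Real.log (1 + C) + √R + 1) * ‖z‖ / (R - ‖z‖)) atTop
        (𝓝 0) := by
      have h1 : Tendsto (fun R : ℝ => (Real.log (1 + C) + √R + 1) / (R - ‖z‖)) atTop (𝓝 0) := by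
        have h2 : Tendsto (fun R : ℝ => (Real.log (1 + C) + 1) * R⁻¹ + (√R)⁻¹) atTop (𝓝 0) := by
          have h3 : Tendsto (fun R : ℝ => (Real.log (1 + C) + 1) * R⁻¹) atTop
              (𝓝 ((Real.log (1 + C) + 1) * 0)) := tendsto_inv_atTop_zero.const_mul _
          have h4 : Tendsto (fun R : ℝ => (√R)⁻¹) atTop (𝓝 0) :=
            tendsto_inv_atTop_zero.comp Real.tendsto_sqrt_atTop
          simpa using h3.add h4
        have h5 : Tendsto (fun R : ℝ => 2 * ((Real.log (1 + C) + 1) * R⁻¹ + (√R)⁻¹)) atTop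
            (𝓝 0) := by simpa using h2.const_mul 2
        refine squeeze_zero' ?_ ?_ h5
        · filter_upwards [eventually_gt_atTop ‖z‖] with R hR
          have : 0 < R - ‖z‖ := by linarith
          positivity
        · filter_upwards [eventually_gt_atTop (2 * ‖z‖), eventually_gt_atTop 0] with R hR hR0
          have h6 : R / 2 ≤ R - ‖z‖ := by linarith
          have h7 : (Real.log (1 + C) + √R + 1) / (R - ‖z‖) ≤
              (Real.log (1 + C) + √R + 1) / (R / 2) :=
            div_le_div_of_nonneg_left (by positivity) (by positivity) h6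
          refine h7.trans (le_of_eq ?_)
          have h8 : (√R)⁻¹ = √R / R := by
            rw [inv_eq_one_div, div_eq_div_iff (by positivity) hR0.ne', one_mul,
              Real.mul_self_sqrt hR0.le]
          rw [h8]
          field_simp
          ring
      have h9 : Tendsto (fun R : ℝ => (2 * ‖z‖) * ((Real.log (1 + C) + √R + 1) / (R - ‖z‖))) atTop
          (𝓝 ((2 * ‖z‖) * 0)) := h1.const_mul _
      rw [mul_zero] at h9
      refine h9.congr ?_
      intro R
      ring
    have h10 : ‖F z‖ ≤ 0 := by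
      apply ge_of_tendsto hlim
      filter_upwards [eventually_gt_atTop ‖z‖] with R hR
      exact hb R hR
    exact norm_le_zero_iff.1 h10
  -- the series vanishes
  have hser : ∀ z : ℂ, ∑' k, a k * z ^ (k + 1) = 0 := by
    intro z
    have h1 := hexp z
    rw [hFz z, Complex.exp_zero] at h1
    simp only [hg] at h1
    linear_combination -h1
  apply coeff_eq_zero a
  · have := (series_bound a C ha 1 zero_le_one).1
    simpa using this
  · intro z hz1
    by_cases h0 : z = 0
    · -- value at zero by continuity: use the identity for the shifted series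
      subst h0
      have hs : Summable (fun k => ‖a k‖) := by
        have := (series_bound a C ha 1 zero_le_one).1
        simpa using this
      have hcont : ContinuousOn (fun z : ℂ => ∑' k, a k * z ^ k) (Metric.closedBall 0 1) := by
        apply continuousOn_tsum (u := fun k => ‖a k‖)
        · intro k; fun_prop
        · exact hs
        · intro k w hw
          rw [mem_closedBall_zero_iff] at hw
          rw [norm_mul, norm_pow]
          exact mul_le_of_le_one_right (norm_nonneg _) (pow_le_one₀ (norm_nonneg _) hw)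
      have hzero : ∀ w : ℂ, w ≠ 0 → ∑' k, a k * w ^ k = 0 := by
        intro w hw
        have h1 := hser w
        have h2 : ∑' k, a k * w ^ (k + 1) = w * ∑' k, a k * w ^ k := by
          rw [← tsum_mul_left]
          congr 1
          ext k
          rw [pow_succ]; ring
        rw [h2] at h1
        rcases mul_eq_zero.1 h1 with h3 | h3
        · exact absurd h3 hw
        · exact h3
      have hlim : Tendsto (fun n : ℕ => ((1 / ((n : ℝ) + 1) : ℝ) : ℂ)) atTop
          (𝓝[Metric.closedBall 0 1] (0 : ℂ)) := by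
        apply tendsto_nhdsWithin_iff.2
        constructor
        · have h1 : Tendsto (fun n : ℕ => (1 / ((n : ℝ) + 1) : ℝ)) atTop (𝓝 0) :=
            tendsto_one_div_add_atTop_nhds_zero_nat
          have h2 := (Complex.continuous_ofReal.tendsto 0).comp h1
          rw [Complex.ofReal_zero] at h2
          exact h2
        · apply Eventually.of_forall
          intro n
          rw [mem_closedBall_zero_iff, Complex.norm_real, Real.norm_eq_abs,
            abs_of_nonneg (by positivity), div_le_one (by positivity)]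
          have : (0 : ℝ) ≤ n := Nat.cast_nonneg n
          linarith
      have h5 := (hcont 0 (by simp)).tendsto.comp hlim
      have h6 : ((fun z : ℂ => ∑' k, a k * z ^ k) ∘ fun n : ℕ => ((1 / ((n : ℝ) + 1) : ℝ) : ℂ)) =
          fun _ => 0 := by
        ext n
        apply hzero
        have : (0 : ℝ) < 1 / ((n : ℝ) + 1) := by positivity
        exact Complex.ofReal_ne_zero.2 this.ne'
      rw [h6] at h5
      exact tendsto_nhds_unique h5 tendsto_const_nhds
    · have h1 := hser z
      have h2 : ∑' k, a k * z ^ (k + 1) = z * ∑' k, a k * z ^ k := by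
        rw [← tsum_mul_left]
        congr 1
        ext k
        rw [pow_succ]; ring
      rw [h2] at h1
      rcases mul_eq_zero.1 h1 with h3 | h3
      · exact absurd h3 h0
      · exact h3

end Pool.Agent.Lib.MP_7c4fde_an
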