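import Pool.Agent.Lib.MP_7c4fde_an.Trans
import Pool.Agent.Lib.MP_7c4fde_an.Entire

set_option autoImplicit false

namespace Pool.Agent.Lib.MP_7c4fde_an

open Finset

section

variable {W ε : ℕ → ℝ} {C : ℝ} {hC : ∀ i, ‖tv W 1 i‖ ≤ C}

theorem functional_e0 (hW : Good W ε) (hε : Antitone ε) (hε0 : ∀ k, 0 < ε k)
    (hε1 : ∀ k, ε k ≤ 1) (hL : ∀ l, Link l (W l) (W (l + 1))) (v : E1) (hv : v ≠ 0)
    (ψ : E1 →L[ℂ] ℂ) (hψ : ∀ k, ψ ((TT W C hC ^ k) v) = 0) : ψ (ee W 0) = 0 := by
  have hv0 : 0 < ‖v‖ := norm_pos_iff.2 hv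
  obtain ⟨x, hx⟩ : ∃ x : E1, x = ((‖v‖⁻¹ : ℝ) : ℂ) • v := ⟨_, rfl⟩
  have hx1 : ‖x‖ = 1 := by
    rw [hx, norm_real_smul (by positivity)]
    exact inv_mul_cancel₀ hv0.ne'
  have hx0 : x ≠ 0 := by
    intro h
    rw [h, norm_zero] at hx1
    exact zero_ne_one hx1
  have hψx : ∀ k, ψ ((TT W C hC ^ k) x) = 0 := by
    intro k
    rw [hx, map_smul, map_smul, hψ, smul_zero]
  have hbound : ∀ M : ℕ, ‖ψ (ee W 0)‖ ≤ ‖ψ‖ * (3 / ((M : ℝ) + 1)) := by
    intro M
    obtain ⟨t, hMt, hgood⟩ := exists_good_level hW x hx0 M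
    obtain ⟨a, ha⟩ := approx_unit (C := C) (hC := hC) hW hε hε0 hε1 hL x hx1 t hgood
    set z := ∑ k ∈ range (4 ^ (2 * t + 1)), (a k) • (TT W C hC ^ (3 * 4 ^ (2 * t + 1) + k)) x
      with hz
    have hψz : ψ z = 0 := by
      rw [hz, map_sum]
      apply sum_eq_zero
      intro k _
      rw [map_smul, hψx, smul_zero]
    have h1 : ψ (ee W 0) = -ψ (z - ee W 0) := by
      rw [map_sub, hψz]; ring
    rw [h1, norm_neg]
    refine (ψ.le_opNorm _).trans (mul_le_mul_of_nonneg_left (ha.trans ?_) (norm_nonneg _))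
    have hM1 : (0 : ℝ) < (M : ℝ) + 1 := by positivity
    have hmt := msch_le t
    have h2 : (2 : ℝ) / (((2 * t : ℕ) : ℝ) + 1) ≤ 2 / ((M : ℝ) + 1) := by
      apply div_le_div_of_nonneg_left (by norm_num) hM1
      have : (M : ℝ) ≤ ((2 * t : ℕ) : ℝ) := by exact_mod_cast (by omega : M ≤ 2 * t)
      linarith
    have h3 : (1 : ℝ) / W (src (2 * t)) ≤ 1 / ((M : ℝ) + 1) := by
      apply div_le_div_of_nonneg_left (by norm_num) hM1
      refine le_trans ?_ (hW.succ_le _)
      have h4 : M ≤ src (2 * t) := by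
        rw [src_even (by omega)]
        have : 2 * t / 2 = t := by omega
        rw [this]; omega
      have : (M : ℝ) ≤ (src (2 * t) : ℝ) := by exact_mod_cast h4
      linarith
    have h5 : (3 : ℝ) / ((M : ℝ) + 1) = 2 / ((M : ℝ) + 1) + 1 / ((M : ℝ) + 1) := by ring
    rw [h5]
    linarith
  have hlim : Filter.Tendsto (fun M : ℕ => ‖ψ‖ * (3 / ((M : ℝ) + 1))) Filter.atTop (nhds 0) := by
    have h1 : Filter.Tendsto (fun M : ℕ => (1 : ℝ) / ((M : ℝ) + 1)) Filter.atTop (nhds 0) :=
      tendsto_one_div_add_atTop_nhds_zero_nat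
    have h2 := h1.const_mul (‖ψ‖ * 3)
    rw [mul_zero] at h2
    refine h2.congr ?_
    intro M
    ring
  have : ‖ψ (ee W 0)‖ ≤ 0 := ge_of_tendsto' hlim hbound
  exact norm_le_zero_iff.1 this

theorem functional_zero (hW : Good W ε) (hε : Antitone ε) (hε0 : ∀ k, 0 < ε k)
    (hε1 : ∀ k, ε k ≤ 1) (hL : ∀ l, Link l (W l) (W (l + 1))) (v : E1) (hv : v ≠ 0)
    (φ : E1 →L[ℂ] ℂ) (hφ : ∀ k, φ ((TT W C hC ^ k) v) = 0) : φ = 0 := by
  have h1 : ∀ j, φ (ee W j) = 0 := by
    intro j
    have h2 := functional_e0 (C := C) (hC := hC) hW hε hε0 hε1 hL v hv (φ.comp (TT W C hC ^ j))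
      (by
        intro k
        rw [ContinuousLinearMap.comp_apply, ← mul_apply_eq_comp, ← pow_add]
        exact hφ _)
    rw [ContinuousLinearMap.comp_apply, TT_pow_ee hW, zero_add] at h2
    exact h2
  apply clm_ext
  intro i
  rw [f_eq hW, map_sub, map_smul, map_smul, h1, h1]
  simp

end

/-- For every prescribed decay there is an operator on `ℓ^1` without nontrivial closed invariant
subspaces (in the form: no nonzero functional vanishes on the orbit of a nonzero vector) whose
powers decay at the prescribed rate. -/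
theorem exists_operator (ε : ℕ → ℝ) (hε : Antitone ε) (hε0 : ∀ k, 0 < ε k) (hε1 : ∀ k, ε k ≤ 1) :
    ∃ T : E1 →L[ℂ] E1, (∀ n, 1 ≤ n → ‖T ^ n‖ ≤ ε n) ∧
      ∀ v : E1, v ≠ 0 → ∀ φ : E1 →L[ℂ] ℂ, (∀ k, φ ((T ^ k) v) = 0) → φ = 0 := by
  obtain ⟨W, hW, hL⟩ := exists_W ε hε0
  refine ⟨TT W (ε 1) (norm_tv_eps hW hε hε0 le_rfl), ?_, ?_⟩
  · intro n hn
    exact norm_TT_pow hW hε hε0 hn
  · intro v hv φ hφ
    exact functional_zero hW hε hε0 hε1 hL v hv φ hφ

/-- The decay rate used for the answer. -/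
noncomputable def eps (k : ℕ) : ℝ := 1 / (Nat.factorial (2 * (k + 1)) : ℝ)

theorem eps_pos (k : ℕ) : 0 < eps k := by unfold eps; positivity

theorem eps_antitone : Antitone eps := by
  intro a b hab
  unfold eps
  apply div_le_div_of_nonneg_left (by norm_num) (by positivity)
  exact_mod_cast Nat.factorial_le (by omega)

theorem eps_le_one (k : ℕ) : eps k ≤ 1 := by
  unfold eps
  rw [div_le_one (by positivity)]
  exact_mod_cast Nat.one_le_iff_ne_zero.2 (Nat.factorial_ne_zero _)

theorem answer : ∃ T : E1 →L[ℂ] E1, spectrum ℂ T = {0} ∧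
    ∀ F : E1 →L[ℂ] E1, Module.finrank ℂ (LinearMap.range (F : E1 →ₗ[ℂ] E1)) = 1 →
      spectrum ℂ (T + F) ≠ {0} := by
  obtain ⟨T, hT, hcyc⟩ := exists_operator eps eps_antitone eps_pos eps_le_one
  have hnt : Nontrivial E1 := ⟨⟨f 0, 0, fun h => by
    have := norm_f 0
    rw [h, norm_zero] at this
    exact zero_ne_one this⟩⟩
  have hTk : ∀ k, ‖T ^ k‖ ≤ 2 * eps k := by
    intro k
    rcases Nat.eq_zero_or_pos k with h | h
    · subst h
      rw [pow_zero]
      refine ContinuousLinearMap.norm_id_le.trans ?_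
      unfold eps
      norm_num [Nat.factorial]
    · have := hT k h
      have := eps_pos k
      linarith
  refine ⟨T, ?_, ?_⟩
  · -- the spectrum of `T`
    apply Set.eq_singleton_iff_nonempty_unique_mem.2
    refine ⟨spectrum.nonempty T, ?_⟩
    intro μ hμ
    by_contra hμ0
    have hpos : 0 < ‖μ‖ := norm_pos_iff.2 hμ0
    have h1 : ∀ n : ℕ, ‖μ‖ ^ n ≤ 2 * eps n := by
      intro n
      have h2 := spectrum.pow_mem_pow T n hμ
      have h3 := spectrum.norm_le_norm_of_mem h2
      rw [norm_pow] at h3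
      exact h3.trans (hTk n)
    have h2 : ∀ n : ℕ, 1 ≤ 2 * ((‖μ‖⁻¹) ^ n / (Nat.factorial n : ℝ)) := by
      intro n
      have h3 := h1 n
      have h4 : eps n ≤ 1 / (Nat.factorial n : ℝ) := by
        unfold eps
        apply div_le_div_of_nonneg_left (by norm_num) (by positivity)
        exact_mod_cast Nat.factorial_le (by omega)
      have h5 : (‖μ‖⁻¹) ^ n * ‖μ‖ ^ n = 1 := by
        rw [← mul_pow, inv_mul_cancel₀ hpos.ne', one_pow]
      calc 1 = (‖μ‖⁻¹) ^ n * ‖μ‖ ^ n := h5.symm
        _ ≤ (‖μ‖⁻¹) ^ n * (2 * (1 / (Nat.factorial n : ℝ))) := by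
            apply mul_le_mul_of_nonneg_left _ (by positivity)
            linarith
        _ = _ := by ring
    have h3 := (FloorSemiring.tendsto_pow_div_factorial_atTop (‖μ‖⁻¹)).const_mul 2
    rw [mul_zero] at h3
    have h4 := ge_of_tendsto' h3 h2
    linarith
  · -- no rank-one perturbation is quasinilpotent
    intro F hF hspec
    obtain ⟨v₀, hv₀, hspan⟩ := finrank_eq_one_iff'.1 hF
    obtain ⟨v, hv⟩ : ∃ v : E1, v = (v₀ : E1) := ⟨_, rfl⟩
    have hv0 : v ≠ 0 := by
      rw [hv]
      intro h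
      exact hv₀ (Subtype.ext h)
    have hsp : ∀ y : E1, ∃ c : ℂ, c • v = F y := by
      intro y
      obtain ⟨c, hc⟩ := hspan ⟨F y, ⟨y, rfl⟩⟩
      refine ⟨c, ?_⟩
      rw [hv]
      exact congrArg Subtype.val hc
    choose c hc using hsp
    have hinj : ∀ a b : ℂ, a • v = b • v → a = b := by
      intro a b hab
      have : (a - b) • v = 0 := by rw [sub_smul, hab, sub_self]
      rcases smul_eq_zero.1 this with h | h
      · exact sub_eq_zero.1 h
      · exact absurd h hv0
    have hvpos : 0 < ‖v‖ := norm_pos_iff.2 hv0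
    obtain ⟨φ, hφ⟩ : ∃ φ : E1 →L[ℂ] ℂ, ∀ y, F y = (φ y) • v := by
      refine ⟨LinearMap.mkContinuous
        { toFun := c
          map_add' := fun a b => hinj _ _ (by rw [hc, map_add, add_smul, hc, hc])
          map_smul' := fun a b => hinj _ _ (by
            rw [hc, map_smul, RingHom.id_apply, smul_eq_mul, mul_smul, hc]) }
        (‖F‖ / ‖v‖) (fun y => ?_), fun y => ?_⟩
      · simp only [LinearMap.coe_mk, AddHom.coe_mk]
        have h1 := F.le_opNorm y
        rw [← hc y, norm_smul] at h1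
        rw [div_mul_eq_mul_div, le_div_iff₀ hvpos]
        exact h1
      · show F y = (c y) • v
        rw [hc]
    -- the coefficients
    set a : ℕ → ℂ := fun k => φ ((T ^ k) v) with ha
    have habound : ∀ k, ‖a k‖ ≤ (2 * ‖φ‖ * ‖v‖) * (1 / (Nat.factorial (2 * (k + 1)) : ℝ)) := by
      intro k
      have h1 : ‖(T ^ k) v‖ ≤ 2 * eps k * ‖v‖ := (T ^ k).le_of_opNorm_le (hTk k) v
      calc ‖a k‖ ≤ ‖φ‖ * ‖(T ^ k) v‖ := φ.le_opNorm _
        _ ≤ ‖φ‖ * (2 * eps k * ‖v‖) := mul_le_mul_of_nonneg_left h1 (norm_nonneg _)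
        _ = _ := by unfold eps; ring
    have hazero : ∀ k, a k = 0 := by
      apply entire_trivial a _ habound
      intro z hz
      by_cases hz0 : z = 0
      · subst hz0
        simp at hz
      · -- the eigenvector
        have hsummable : Summable (fun k => z ^ (k + 1) • (T ^ k) v) := by
          apply Summable.of_norm
          have hr := (series_bound (fun k => ((eps k : ℝ) : ℂ)) 1 (by
            intro k
            rw [Complex.norm_real, Real.norm_eq_abs, abs_of_pos (eps_pos k), one_mul]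
            exact le_rfl) ‖z‖ (norm_nonneg _)).1
          apply Summable.of_nonneg_of_le (fun k => norm_nonneg _) (fun k => ?_)
            (hr.mul_left (2 * ‖v‖))
          rw [norm_smul, norm_pow, Complex.norm_real, Real.norm_eq_abs, abs_of_pos (eps_pos k)]
          have h1 : ‖(T ^ k) v‖ ≤ 2 * eps k * ‖v‖ := (T ^ k).le_of_opNorm_le (hTk k) v
          calc ‖z‖ ^ (k + 1) * ‖(T ^ k) v‖ ≤ ‖z‖ ^ (k + 1) * (2 * eps k * ‖v‖) :=
                mul_le_mul_of_nonneg_left h1 (by positivity)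
            _ = _ := by ring
        set u : E1 := ∑' k, z ^ (k + 1) • (T ^ k) v with hu
        have hφu : φ u = 1 := by
          rw [hu, φ.map_tsum hsummable]
          have h1 : (fun k => φ (z ^ (k + 1) • (T ^ k) v)) = fun k => a k * z ^ (k + 1) := by
            ext k
            rw [map_smul, smul_eq_mul, mul_comm]
          rw [h1]
          linear_combination -hz
        have hTu : T u = z⁻¹ • u - v := by
          have h1 : T u = ∑' k, z ^ (k + 1) • (T ^ (k + 1)) v := by
            rw [hu, T.map_tsum hsummable]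
            congr 1
            ext1 k
            rw [map_smul, pow_succ' T k, mul_apply_eq_comp]
          have h2 : z⁻¹ • u = ∑' k, z ^ k • (T ^ k) v := by
            rw [hu, ← hsummable.tsum_const_smul]
            congr 1
            ext1 k
            rw [smul_smul, pow_succ', ← mul_assoc, inv_mul_cancel₀ hz0, one_mul]
          have h3 : Summable (fun k => z ^ k • (T ^ k) v) := by
            have := hsummable.const_smul z⁻¹
            refine this.congr ?_
            intro k
            rw [smul_smul, pow_succ', ← mul_assoc, inv_mul_cancel₀ hz0, one_mul]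
          rw [h1, h2, h3.tsum_eq_zero_add]
          simp
        have hker : (algebraMap ℂ (E1 →L[ℂ] E1) z⁻¹ - (T + F)) u = 0 := by
          rw [_root_.sub_apply, _root_.add_apply, hφ, hφu, hTu, one_smul,
            Algebra.algebraMap_eq_smul_one, _root_.smul_apply, one_apply_eq_self]
          abel
        have hunit : IsUnit (algebraMap ℂ (E1 →L[ℂ] E1) z⁻¹ - (T + F)) := by
          have h1 : z⁻¹ ∉ spectrum ℂ (T + F) := by
            rw [hspec]
            simp [hz0]
          exact spectrum.notMem_iff.1 h1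
        obtain ⟨G, hG⟩ := hunit
        have hu0 : u = 0 := by
          have h1 : (G⁻¹.val * G.val) u = 0 := by
            rw [mul_apply_eq_comp, hG, hker, map_zero]
          rw [Units.inv_mul, one_apply_eq_self] at h1
          exact h1
        rw [hu0, map_zero] at hφu
        exact zero_ne_one hφu
    have hφ0 : φ = 0 := hcyc v hv0 φ hazero
    obtain ⟨y, hy⟩ := v₀.2
    apply hv0
    have h1 : F y = v := by rw [hv]; exact hy
    rw [← h1, hφ, hφ0]
    simp

end Pool.Agent.Lib.MP_7c4fde_an
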