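import Pool.Agent.Lib.MP_7c4fde_an.Oper3

set_option autoImplicit false

namespace Pool.Agent.Lib.MP_7c4fde_an

variable {W ε : ℕ → ℝ}

open Finset

theorem tail_tendsto (s : ℕ → ℝ) (hs : Summable s) :
    Filter.Tendsto (fun n : ℕ => ∑' i, if n ≤ i then s i else 0) Filter.atTop (nhds 0) := by
  have h := tendsto_sum_nat_add s
  refine h.congr ?_
  intro n
  have hg : Summable (fun i => if n ≤ i then s i else 0) := by
    have : (fun i => if n ≤ i then s i else 0) = Set.indicator {i | n ≤ i} s := by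
      ext i
      simp [Set.indicator]
    rw [this]
    exact hs.indicator _
  rw [← hg.sum_add_tsum_nat_add n]
  have h0 : ∑ i ∈ range n, (if n ≤ i then s i else 0) = 0 := by
    apply sum_eq_zero
    intro i hi
    rw [if_neg (by have := mem_range.1 hi; omega)]
  rw [h0, zero_add]
  congr 1
  ext k
  rw [if_pos (by omega)]

/-- Every nonzero vector is good at infinitely many levels. -/
theorem exists_good_level (hW : Good W ε) (x : E1) (hx : x ≠ 0) (M : ℕ) :
    ∃ t, M ≤ msch t ∧ ∃ j, j < 4 ^ (2 * t) ∧ (1 / 16 : ℝ) ^ (2 * t + 1) ≤ ‖YY hW (2 * t) j x‖ := by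
  by_contra hcon
  push Not at hcon
  obtain ⟨M', hM'1, hM'⟩ := msch_succ M
  -- small coordinates
  have hsmall : ∀ i, work i → lev i % 2 = 0 → M' ≤ msch (lev i / 2) →
      cc W i * ‖x i‖ ≤ 1 / ((i : ℝ) + 1) ^ 2 := by
    intro i hw he hm
    obtain ⟨t, ht⟩ : ∃ t, lev i = 2 * t := ⟨lev i / 2, by omega⟩
    have ht2 : lev i / 2 = t := by omega
    rw [ht2] at hm
    have h1 : ∀ t', msch t' ≠ t + 1 := fun t' => msch_ne t t' (by omega)
    have h2 := small_coord hW h1 (δ := (1 / 16 : ℝ) ^ (2 * (t + 1) + 1)) x (by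
      intro j hj
      exact (hcon (t + 1) (hM' t hm) j (by
        rw [show 2 * (t + 1) = 2 * t + 2 by ring]; exact hj)).le) hw ht
    refine h2.trans ?_
    have h3 := lt_pow_lev i
    have h4 : ((i : ℝ) + 1) ≤ 4 ^ (lev i + 1) := by exact_mod_cast h3
    have h5 : ((i : ℝ) + 1) ^ 2 ≤ (4 ^ (lev i + 1)) ^ 2 :=
      pow_le_pow_left₀ (by positivity) h4 2
    rw [le_div_iff₀ (by positivity)]
    have h6 : ((4 : ℝ) ^ (lev i + 1)) ^ 2 = 16 ^ (2 * t + 1) := by
      rw [ht, ← pow_mul, mul_comm, pow_mul]; norm_num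
    rw [h6] at h5
    calc 2 * (1 / 16 : ℝ) ^ (2 * (t + 1) + 1) * ((i : ℝ) + 1) ^ 2
        ≤ 2 * (1 / 16 : ℝ) ^ (2 * (t + 1) + 1) * 16 ^ (2 * t + 1) :=
          mul_le_mul_of_nonneg_left h5 (by positivity)
      _ = 2 * (1 / 16 : ℝ) ^ 2 * ((1 / 16) ^ (2 * t + 1) * 16 ^ (2 * t + 1)) := by
          rw [show 2 * (t + 1) + 1 = 2 + (2 * t + 1) by ring, pow_add]; ring
      _ = 2 * (1 / 16 : ℝ) ^ 2 := by
          rw [← mul_pow]; norm_num
      _ ≤ 1 := by norm_num
  obtain ⟨K, hK⟩ : ∃ K : ℝ, K = W (2 * M') ^ (4 ^ (2 * M')) := ⟨_, rfl⟩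
  have hK0 : 0 ≤ K := by rw [hK]; exact pow_nonneg (hW.pos _).le _
  -- the dominating series
  set s : ℕ → ℝ := fun i => K * ‖x i‖ + 1 / ((i : ℝ) + 1) ^ 2 with hs
  have hs0 : ∀ i, 0 ≤ s i := fun i => by simp only [hs]; positivity
  have hsum : Summable s := by
    apply ((summable_coord x).mul_left K).add
    have h1 : Summable (fun n : ℕ => 1 / (n : ℝ) ^ 2) :=
      Real.summable_one_div_nat_pow.2 (by norm_num)
    have h2 := (summable_nat_add_iff 1).2 h1
    simpa using h2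
  have hterm : ∀ t i, ‖x i‖ * (if 4 ^ (2 * t) ≤ i ∧ work i ∧ src (lev i) ≤ 2 * t then cc W i else 0)
      ≤ if 4 ^ (2 * t) ≤ i then s i else 0 := by
    intro t i
    by_cases h : 4 ^ (2 * t) ≤ i ∧ work i ∧ src (lev i) ≤ 2 * t
    · rw [if_pos h, if_pos h.1]
      obtain ⟨h1, hw, h2⟩ := h
      have hlev : 2 * t ≤ lev i := le_lev_of h1
      have he : lev i % 2 = 0 := by
        by_contra ho
        rw [src_odd (by omega)] at h2
        omega
      by_cases hm : M' ≤ msch (lev i / 2)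
      · have h3 := hsmall i hw he hm
        have h4 : 0 ≤ K * ‖x i‖ := mul_nonneg hK0 (norm_nonneg _)
        simp only [hs]
        linarith
      · push Not at hm
        have h3 : cc W i ≤ K := by
          refine (cc_le hW i).trans ?_
          rw [src_even he, hK]
          calc W (2 * msch (lev i / 2)) ^ (4 ^ (2 * msch (lev i / 2)))
              ≤ W (2 * M') ^ (4 ^ (2 * msch (lev i / 2))) :=
                pow_le_pow_left₀ (hW.pos _).le (hW.mono (by omega)) _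
            _ ≤ W (2 * M') ^ (4 ^ (2 * M')) :=
                pow_le_pow_right₀ (hW.one_le _) (Nat.pow_le_pow_right (by norm_num) (by omega))
        have h4 : ‖x i‖ * cc W i ≤ ‖x i‖ * K := mul_le_mul_of_nonneg_left h3 (norm_nonneg _)
        have h5 : 0 ≤ 1 / ((i : ℝ) + 1) ^ 2 := by positivity
        simp only [hs]
        linarith
    · rw [if_neg h, mul_zero]
      split_ifs
      · exact hs0 i
      · exact le_rfl
  -- a nonzero coordinate
  obtain ⟨i₀, hi₀⟩ : ∃ i, x i ≠ 0 := by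
    by_contra h
    push Not at h
    apply hx
    ext i
    rw [h i]; rfl
  have hη : 0 < ‖x i₀‖ := norm_pos_iff.2 hi₀
  have htail := tail_tendsto s hsum
  have h1 : ∀ᶠ n : ℕ in Filter.atTop, (∑' i, if n ≤ i then s i else 0) < ‖x i₀‖ / 2 :=
    htail.eventually_lt_const (by positivity)
  obtain ⟨T₁, hT₁⟩ := Filter.eventually_atTop.1 h1
  have h2 : Filter.Tendsto (fun n : ℕ => (1 / 4 : ℝ) ^ n) Filter.atTop (nhds 0) :=
    tendsto_pow_atTop_nhds_zero_of_lt_one (by norm_num) (by norm_num)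
  obtain ⟨T₂, hT₂⟩ := Filter.eventually_atTop.1
    (h2.eventually_lt_const (show (0:ℝ) < ‖x i₀‖ / 2 by positivity))
  obtain ⟨t, ht, hMt⟩ := msch_unbounded M (max (max T₁ T₂) i₀)
  have hpow : 2 * t < 4 ^ (2 * t) := Nat.lt_pow_self (by norm_num)
  have ht1 : T₁ ≤ 4 ^ (2 * t) := by
    have := le_max_left T₁ T₂
    have := le_max_left (max T₁ T₂) i₀
    omega
  have ht2 : T₂ ≤ 2 * t := by
    have := le_max_right T₁ T₂
    have := le_max_left (max T₁ T₂) i₀
    omega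
  have ht3 : i₀ < 4 ^ (2 * t) := by
    have := le_max_right (max T₁ T₂) i₀
    omega
  have hrem := remainder hW (2 * t) x
  have hcc0 : ∀ i, 0 ≤ (if 4 ^ (2 * t) ≤ i ∧ work i ∧ src (lev i) ≤ 2 * t then cc W i else 0) := by
    intro i
    split_ifs with h
    · exact cc_nonneg hW i
    · exact le_rfl
  have hsum2 : Summable (fun i => if 4 ^ (2 * t) ≤ i then s i else 0) := by
    apply Summable.of_nonneg_of_le (fun i => ?_) (fun i => ?_) hsum
    · split_ifs
      · exact hs0 i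
      · exact le_rfl
    · split_ifs
      · exact le_rfl
      · exact hs0 i
  have hle : ∑' i, ‖x i‖ * (if 4 ^ (2 * t) ≤ i ∧ work i ∧ src (lev i) ≤ 2 * t then cc W i else 0)
      ≤ ∑' i, if 4 ^ (2 * t) ≤ i then s i else 0 := by
    apply Summable.tsum_le_tsum (hterm t) _ hsum2
    exact Summable.of_nonneg_of_le (fun i => mul_nonneg (norm_nonneg _) (hcc0 i)) (hterm t) hsum2
  have hY : ‖∑ j ∈ range (4 ^ (2 * t)), (YY hW (2 * t) j x) • ee W j‖ ≤ (1 / 4 : ℝ) ^ (2 * t) := by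
    calc ‖∑ j ∈ range (4 ^ (2 * t)), (YY hW (2 * t) j x) • ee W j‖
        ≤ ∑ j ∈ range (4 ^ (2 * t)), ‖(YY hW (2 * t) j x) • ee W j‖ := norm_sum_le _ _
      _ ≤ ∑ j ∈ range (4 ^ (2 * t)), (1 / 16 : ℝ) ^ (2 * t + 1) := by
          apply sum_le_sum
          intro j hj
          rw [norm_smul]
          have h5 := (hcon t hMt j (mem_range.1 hj)).le
          have h6 := norm_ee_le_one hW j
          calc ‖YY hW (2 * t) j x‖ * ‖ee W j‖ ≤ ‖YY hW (2 * t) j x‖ * 1 :=
                mul_le_mul_of_nonneg_left h6 (norm_nonneg _)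
            _ ≤ (1 / 16 : ℝ) ^ (2 * t + 1) := by linarith
      _ = (4 : ℝ) ^ (2 * t) * (1 / 16 : ℝ) ^ (2 * t + 1) := by
          rw [sum_const, card_range, nsmul_eq_mul]; push_cast; ring
      _ = (1 / 16 : ℝ) * (1 / 4 : ℝ) ^ (2 * t) := by
          rw [pow_succ, ← mul_assoc, ← mul_pow]; norm_num; ring
      _ ≤ (1 / 4 : ℝ) ^ (2 * t) := by
          have : (0 : ℝ) ≤ (1 / 4 : ℝ) ^ (2 * t) := by positivity
          linarith
  have hPP := norm_PP (4 ^ (2 * t)) x
  have h5 : ‖x i₀‖ ≤ ∑ i ∈ range (4 ^ (2 * t)), ‖x i‖ :=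
    single_le_sum (f := fun i => ‖x i‖) (fun i _ => norm_nonneg _) (mem_range.2 ht3)
  have h6 : ‖PP (4 ^ (2 * t)) x‖ ≤
      ‖PP (4 ^ (2 * t)) x - ∑ j ∈ range (4 ^ (2 * t)), (YY hW (2 * t) j x) • ee W j‖ +
      ‖∑ j ∈ range (4 ^ (2 * t)), (YY hW (2 * t) j x) • ee W j‖ := by
    have := norm_add_le
      (PP (4 ^ (2 * t)) x - ∑ j ∈ range (4 ^ (2 * t)), (YY hW (2 * t) j x) • ee W j)
      (∑ j ∈ range (4 ^ (2 * t)), (YY hW (2 * t) j x) • ee W j)
    rwa [sub_add_cancel] at this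
  have h7 := hT₁ _ ht1
  have h8 := hT₂ _ ht2
  linarith

end Pool.Agent.Lib.MP_7c4fde_an
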