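import Mathlib

set_option autoImplicit false

namespace Pool.Agent.Lib.MP_7c4fde_an

open scoped ENNReal

/-- The complex Banach space `ℓ^1(ℕ)`. -/
abbrev E1 : Type := lp (fun _ : ℕ => ℂ) 1

/-- The unit vector basis of `ℓ^1`. -/
noncomputable def f (i : ℕ) : E1 := lp.single 1 i (1 : ℂ)

theorem norm_f (i : ℕ) : ‖f i‖ = 1 := by
  unfold f
  rw [lp.norm_single (by norm_num)]
  simp

theorem f_apply (i j : ℕ) : (f i : ℕ → ℂ) j = if j = i then 1 else 0 := by
  unfold f
  rw [lp.single_apply]
  by_cases h : j = i
  · subst h; simp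
  · simp [h]

theorem summable_coord (x : E1) : Summable (fun i => ‖x i‖) := by
  have h := (lp.memℓp x).summable (by norm_num)
  simpa using h

theorem norm_eq_tsum (x : E1) : ‖x‖ = ∑' i, ‖x i‖ := by
  have h := lp.norm_eq_tsum_rpow (p := 1) (by norm_num) x
  simpa using h

theorem smul_f (i : ℕ) (a : ℂ) : a • f i = lp.single 1 i a := by
  unfold f
  rw [← lp.single_smul]
  simp

theorem hasSum_f (x : E1) : HasSum (fun i => (x i) • f i) x := by
  have h := lp.hasSum_single (p := 1) (by norm_num) x
  simpa only [smul_f] using h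

section lift

variable {F : Type*} [NormedAddCommGroup F] [NormedSpace ℂ F]

theorem hasSum_map (Φ : E1 →L[ℂ] F) (x : E1) : HasSum (fun i => (x i) • Φ (f i)) (Φ x) := by
  have h := (hasSum_f x).mapL Φ
  simpa only [map_smul] using h

theorem clm_ext {Φ Ψ : E1 →L[ℂ] F} (h : ∀ i, Φ (f i) = Ψ (f i)) : Φ = Ψ := by
  ext x
  have h1 := hasSum_map Φ x
  have h2 := hasSum_map Ψ x
  simp only [h] at h1
  exact h1.unique h2

theorem norm_map_le_tsum (Φ : E1 →L[ℂ] F) (x : E1) :
    ‖Φ x‖ ≤ ∑' i, ‖x i‖ * ‖Φ (f i)‖ := by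
  have h1 := hasSum_map Φ x
  have hs : Summable (fun i => ‖x i‖ * ‖Φ (f i)‖) := by
    apply Summable.of_nonneg_of_le (fun i => by positivity) (fun i => ?_)
      ((summable_coord x).mul_right ‖Φ‖)
    apply mul_le_mul_of_nonneg_left _ (norm_nonneg _)
    have := Φ.le_opNorm (f i)
    rwa [norm_f, mul_one] at this
  rw [← h1.tsum_eq]
  have hs' : Summable (fun i => ‖(x i) • Φ (f i)‖) := by simpa only [norm_smul] using hs
  have := norm_tsum_le_tsum_norm hs'
  simpa only [norm_smul] using this

theorem norm_map_le (Φ : E1 →L[ℂ] F) {C : ℝ} (hC : ∀ i, ‖Φ (f i)‖ ≤ C) (x : E1) :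
    ‖Φ x‖ ≤ C * ‖x‖ := by
  refine (norm_map_le_tsum Φ x).trans ?_
  rw [norm_eq_tsum, ← tsum_mul_left]
  apply Summable.tsum_le_tsum
  · intro i
    rw [mul_comm]
    exact mul_le_mul_of_nonneg_right (hC i) (norm_nonneg _)
  · apply Summable.of_nonneg_of_le (fun i => by positivity) (fun i => ?_)
      ((summable_coord x).mul_right ‖Φ‖)
    apply mul_le_mul_of_nonneg_left _ (norm_nonneg _)
    have := Φ.le_opNorm (f i)
    rwa [norm_f, mul_one] at this
  · exact (summable_coord x).mul_left C

theorem opNorm_le (Φ : E1 →L[ℂ] F) {C : ℝ} (hC0 : 0 ≤ C) (hC : ∀ i, ‖Φ (f i)‖ ≤ C) :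
    ‖Φ‖ ≤ C :=
  Φ.opNorm_le_bound hC0 (norm_map_le Φ hC)

variable [CompleteSpace F]

theorem summable_lift (v : ℕ → F) (C : ℝ) (hv : ∀ i, ‖v i‖ ≤ C) (x : E1) :
    Summable (fun i => (x i) • v i) := by
  apply Summable.of_norm
  apply Summable.of_nonneg_of_le (fun i => norm_nonneg _) (fun i => ?_)
    ((summable_coord x).mul_right C)
  rw [norm_smul]
  exact mul_le_mul_of_nonneg_left (hv i) (norm_nonneg _)

/-- The bounded operator on `ℓ^1` with prescribed (bounded) values on the basis. -/
noncomputable def lift (v : ℕ → F) (C : ℝ) (hv : ∀ i, ‖v i‖ ≤ C) : E1 →L[ℂ] F :=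
  LinearMap.mkContinuous
    { toFun := fun x => ∑' i, (x i) • v i
      map_add' := fun x y => by
        rw [← (summable_lift v C hv x).tsum_add (summable_lift v C hv y)]
        congr 1
        ext i
        rw [lp.coeFn_add, Pi.add_apply, add_smul]
      map_smul' := fun a x => by
        rw [RingHom.id_apply, ← (summable_lift v C hv x).tsum_const_smul a]
        congr 1
        ext i
        rw [lp.coeFn_smul, Pi.smul_apply, smul_eq_mul, mul_smul] }
    C (fun x => by
      simp only [LinearMap.coe_mk, AddHom.coe_mk]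
      rw [norm_eq_tsum, ← tsum_mul_left]
      have hs : Summable (fun i => ‖(x i) • v i‖) := by
        apply Summable.of_nonneg_of_le (fun i => norm_nonneg _) (fun i => ?_)
          ((summable_coord x).mul_right C)
        rw [norm_smul]
        exact mul_le_mul_of_nonneg_left (hv i) (norm_nonneg _)
      refine (norm_tsum_le_tsum_norm hs).trans ?_
      apply Summable.tsum_le_tsum _ hs ((summable_coord x).mul_left C)
      intro i
      rw [norm_smul, mul_comm]
      exact mul_le_mul_of_nonneg_right (hv i) (norm_nonneg _))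

theorem lift_f (v : ℕ → F) (C : ℝ) (hv : ∀ i, ‖v i‖ ≤ C) (i : ℕ) : lift v C hv (f i) = v i := by
  show ∑' j, (f i j) • v j = v i
  rw [tsum_eq_single i]
  · rw [f_apply]; simp
  · intro j hj
    rw [f_apply, if_neg hj, zero_smul]

end lift

/-- The coordinate functionals. -/
noncomputable def coord (j : ℕ) : E1 →L[ℂ] ℂ :=
  lift (fun i => if i = j then (1 : ℂ) else 0) 1 (fun i => by split_ifs <;> simp)

theorem coord_apply (j : ℕ) (x : E1) : coord j x = x j := by
  have h := hasSum_map (coord j) x
  have h2 : HasSum (fun i => (x i) • coord j (f i)) (x j) := by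
    have : (fun i => (x i) • coord j (f i)) = fun i => if i = j then x j else 0 := by
      ext i
      unfold coord
      rw [lift_f]
      by_cases hij : i = j
      · subst hij; simp
      · simp [hij]
    rw [this]
    exact hasSum_ite_eq j (x j)
  exact h.unique h2

theorem span_f_dense : Dense (Submodule.span ℂ (Set.range f) : Set E1) := by
  intro x
  apply mem_closure_of_tendsto (hasSum_f x)
  apply Filter.Eventually.of_forall
  intro s
  apply Submodule.sum_mem
  intro i _
  exact Submodule.smul_mem _ _ (Submodule.subset_span ⟨i, rfl⟩)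

instance : TopologicalSpace.SeparableSpace E1 := by
  have h1 : TopologicalSpace.IsSeparable (Submodule.span ℂ (Set.range f) : Set E1) :=
    (Set.countable_range f).isSeparable.span
  have h2 := h1.closure
  rw [span_f_dense.closure_eq] at h2
  exact TopologicalSpace.isSeparable_univ_iff.1 h2

theorem linearIndependent_f : LinearIndependent ℂ f := by
  rw [linearIndependent_iff']
  intro s g hg i hi
  have h := congrArg (coord i) hg
  rw [map_sum, map_zero, Finset.sum_eq_single i] at h
  · rw [map_smul, coord_apply, f_apply] at h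
    simpa using h
  · intro j _ hji
    rw [map_smul, coord_apply, f_apply, if_neg hji.symm, smul_zero]
  · intro h; exact absurd hi h

theorem not_finiteDimensional : ¬ FiniteDimensional ℂ E1 := by
  intro h
  have := linearIndependent_f.finite
  exact not_finite ℕ

end Pool.Agent.Lib.MP_7c4fde_an
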