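import Mathlib

set_option autoImplicit false

namespace Pool.Agent.Lib.MP_7c4fde_an

/-- Triangular numbers. -/
def tri : ℕ → ℕ
  | 0 => 0
  | k + 1 => tri k + (k + 1)

theorem tri_strictMono : StrictMono tri := by
  apply strictMono_nat_of_lt_succ
  intro n
  simp only [tri]
  omega

theorem le_tri (k : ℕ) : k ≤ tri k := tri_strictMono.id_le k

/-- The state of the schedule: a countdown inside block `k`. -/
def st : ℕ → ℕ × ℕ
  | 0 => (0, 0)
  | t + 1 => if (st t).1 = 0 then ((st t).2 + 1, (st t).2 + 1) else ((st t).1 - 1, (st t).2)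

theorem st_inv (t : ℕ) : t + (st t).1 = tri (st t).2 + (st t).2 ∧ (st t).1 ≤ (st t).2 := by
  induction t with
  | zero => simp [st, tri]
  | succ t ih =>
    simp only [st]
    split_ifs with h
    · simp only [tri]
      rw [h] at ih
      omega
    · simp only
      omega

/-- The schedule: index of the source. -/
def msch (t : ℕ) : ℕ := tri (st t).1

theorem msch_le (t : ℕ) : msch t ≤ t := by
  have h := st_inv t
  have h1 : msch t ≤ tri (st t).2 := tri_strictMono.monotone h.2
  omega

theorem msch_ne (t t' : ℕ) (h : msch t ≠ 0) : msch t' ≠ t + 1 := by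
  have hi := st_inv t
  have hj : (st t).1 ≠ 0 := by
    intro h0
    apply h
    simp [msch, h0, tri]
  intro h'
  unfold msch at h'
  rcases le_or_gt (st t').1 (st t).2 with hle | hgt
  · have := tri_strictMono.monotone hle
    omega
  · have h2 : tri ((st t).2 + 1) ≤ tri (st t').1 := tri_strictMono.monotone hgt
    simp only [tri] at h2
    omega

theorem st_tri_add (k r : ℕ) (hr : r ≤ k) (h0 : st (tri k) = (k, k)) :
    st (tri k + r) = (k - r, k) := by
  induction r with
  | zero => simpa using h0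
  | succ r ih =>
    have ih' := ih (by omega)
    rw [← add_assoc]
    simp only [st]
    rw [ih']
    simp only
    rw [if_neg (by omega)]
    ext <;> simp
    omega

theorem st_tri (k : ℕ) : st (tri k) = (k, k) := by
  induction k with
  | zero => rfl
  | succ k ih =>
    have h := st_tri_add k k le_rfl ih
    simp only [tri]
    rw [← add_assoc]
    simp only [st]
    rw [h]
    simp

theorem msch_unbounded (M T : ℕ) : ∃ t, T ≤ t ∧ M ≤ msch t := by
  refine ⟨tri (max M T), (le_max_right _ _).trans (le_tri _), ?_⟩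
  unfold msch
  rw [st_tri]
  exact (le_max_left _ _).trans (le_tri _)

theorem msch_succ (M : ℕ) : ∃ M', 1 ≤ M' ∧ ∀ t, M' ≤ msch t → M ≤ msch (t + 1) := by
  refine ⟨tri (M + 1), (by simp only [tri]; omega), ?_⟩
  intro t ht
  unfold msch at ht
  have hj : M + 1 ≤ (st t).1 := tri_strictMono.le_iff_le.1 ht
  unfold msch
  simp only [st]
  rw [if_neg (by omega)]
  simp only
  exact (le_tri M).trans (tri_strictMono.monotone (by omega))

/-- The source level of level `l`. -/
def src (l : ℕ) : ℕ := if l % 2 = 1 then l else 2 * msch (l / 2)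

theorem src_odd {l : ℕ} (h : l % 2 = 1) : src l = l := by simp [src, h]

theorem src_even {l : ℕ} (h : l % 2 = 0) : src l = 2 * msch (l / 2) := by simp [src, h]

theorem src_le (l : ℕ) : src l ≤ l := by
  unfold src
  split_ifs with h
  · exact le_rfl
  · have := msch_le (l / 2)
    omega

/-- The width of the working interval at level `l`. -/
def wid (l : ℕ) : ℕ := if l % 2 = 1 then 4 ^ l / 2 else 4 ^ (src l)

/-- Level of an index. -/
def lev (i : ℕ) : ℕ := Nat.log 4 i

theorem lt_pow_lev (i : ℕ) : i < 4 ^ (lev i + 1) := Nat.lt_pow_succ_log_self (by norm_num) i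

theorem pow_lev_le {i : ℕ} (h : i ≠ 0) : 4 ^ lev i ≤ i := Nat.pow_log_le_self 4 h

theorem lev_lt_iff {i l : ℕ} (hl : 1 ≤ l) : lev i < l ↔ i < 4 ^ l := by
  unfold lev
  rcases Nat.eq_zero_or_pos i with h | h
  · subst h
    simp
    omega
  · exact Nat.log_lt_iff_lt_pow (by norm_num) h.ne'

theorem le_lev_iff {i l : ℕ} (hl : 1 ≤ l) : l ≤ lev i ↔ 4 ^ l ≤ i := by
  rw [← not_lt, ← not_lt, lev_lt_iff hl]

theorem le_lev_of {i l : ℕ} (h : 4 ^ l ≤ i) : l ≤ lev i := by
  rcases Nat.eq_zero_or_pos l with h0 | h0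
  · omega
  · exact (le_lev_iff h0).2 h

theorem lev_mono {i j : ℕ} (h : i ≤ j) : lev i ≤ lev j := Nat.log_mono_right h

/-- `i` belongs to the working interval of its level. -/
def work (i : ℕ) : Prop := 4 ^ (lev i + 1) ≤ i + wid (lev i)

instance (i : ℕ) : Decidable (work i) := by unfold work; infer_instance

/-- The source index of a working index. -/
def kap (i : ℕ) : ℕ := i + 4 ^ (src (lev i)) - 4 ^ (lev i + 1)

theorem wid_le (l : ℕ) : wid l ≤ 4 ^ (src l) := by
  unfold wid
  split_ifs with h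
  · rw [src_odd h]; exact Nat.div_le_self _ _
  · exact le_rfl

theorem pow_src_le (l : ℕ) : 4 ^ src l ≤ 4 ^ l := Nat.pow_le_pow_right (by norm_num) (src_le l)

theorem work_le {i : ℕ} (h : work i) : 4 ^ (lev i + 1) ≤ i + 4 ^ src (lev i) :=
  h.trans (Nat.add_le_add_left (wid_le _) _)

theorem kap_add {i : ℕ} (h : work i) : kap i + 4 ^ (lev i + 1) = i + 4 ^ src (lev i) := by
  have := work_le h
  unfold kap
  omega

theorem kap_lt_src {i : ℕ} (h : work i) : kap i < 4 ^ src (lev i) := by
  have h1 := kap_add h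
  have h2 := lt_pow_lev i
  omega

theorem kap_lt {i : ℕ} (h : work i) : kap i < i := by
  have h1 := kap_add h
  have h2 := pow_src_le (lev i)
  have h3 : 0 < 4 ^ lev i := by positivity
  rw [pow_succ] at h1
  omega

theorem kap_ge_odd {i : ℕ} (h : work i) (ho : lev i % 2 = 1) : 4 ^ lev i / 2 ≤ kap i := by
  have h1 := kap_add h
  unfold work wid at h
  rw [if_pos ho] at h
  rw [src_odd ho] at h1
  omega

/-- A working index is nonzero and large in its level. -/
theorem work_ge {i : ℕ} (h : work i) : 3 * 4 ^ lev i ≤ i := by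
  have h1 := work_le h
  have h2 := pow_src_le (lev i)
  rw [pow_succ] at h1
  omega

theorem lev_eq_of {i l : ℕ} (h1 : 4 ^ l ≤ i) (h2 : i < 4 ^ (l + 1)) : lev i = l := by
  have h3 := le_lev_of h1
  have h4 := (lev_lt_iff (by omega : 1 ≤ l + 1)).2 h2
  omega

/-- Moving inside a working interval. -/
theorem work_add {i n : ℕ} (h : work i) (hn : kap i + n < 4 ^ src (lev i)) :
    lev (i + n) = lev i ∧ work (i + n) ∧ kap (i + n) = kap i + n := by
  have h1 := kap_add h
  have h2 := work_ge h
  have hlt : i + n < 4 ^ (lev i + 1) := by omega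
  have hle : 4 ^ lev i ≤ i + n := by omega
  have h3 : lev (i + n) = lev i := lev_eq_of hle hlt
  refine ⟨h3, ?_, ?_⟩
  · unfold work at h ⊢
    rw [h3]
    omega
  · unfold kap
    rw [h3]
    omega

theorem add_ge_of_overflow {i n : ℕ} (h : work i) (hn : 4 ^ src (lev i) ≤ kap i + n) :
    4 ^ (lev i + 1) ≤ i + n := by
  have h1 := kap_add h
  omega

/-- Index in the working interval of an odd level. -/
theorem work_odd {l j : ℕ} (hl : l % 2 = 1) (h1 : 4 ^ l / 2 ≤ j) (h2 : j < 4 ^ l) :
    lev (3 * 4 ^ l + j) = l ∧ work (3 * 4 ^ l + j) ∧ kap (3 * 4 ^ l + j) = j := by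
  have h3 : lev (3 * 4 ^ l + j) = l := lev_eq_of (by omega) (by rw [pow_succ]; omega)
  have h4 : 4 ^ l % 2 = 0 := by
    rcases Nat.exists_eq_succ_of_ne_zero (by omega : l ≠ 0) with ⟨k, rfl⟩
    rw [pow_succ]
    omega
  refine ⟨h3, ?_, ?_⟩
  · unfold work wid
    rw [h3, if_pos hl, pow_succ]
    omega
  · unfold kap
    rw [h3, src_odd hl, pow_succ]
    omega

/-- First index of the working interval of an even level. -/
theorem work_even {l : ℕ} (hl : l % 2 = 0) :
    lev (4 ^ (l + 1) - 4 ^ src l) = l ∧ work (4 ^ (l + 1) - 4 ^ src l) ∧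
      kap (4 ^ (l + 1) - 4 ^ src l) = 0 := by
  have h1 := pow_src_le l
  have h0 : 0 < 4 ^ src l := by positivity
  have h3 : lev (4 ^ (l + 1) - 4 ^ src l) = l := lev_eq_of (by rw [pow_succ]; omega)
    (by rw [pow_succ]; omega)
  refine ⟨h3, ?_, ?_⟩
  · unfold work wid
    rw [h3, if_neg (by omega), pow_succ]
    omega
  · unfold kap
    rw [h3, pow_succ]
    omega

end Pool.Agent.Lib.MP_7c4fde_an
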