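import Pool.Agent.Lib.MP_7c4fde_an.L1
import Pool.Agent.Lib.MP_7c4fde_an.Schedule

set_option autoImplicit false

namespace Pool.Agent.Lib.MP_7c4fde_an

/-- Growth conditions on the parameter sequence. -/
structure Good (W ε : ℕ → ℝ) : Prop where
  two_le : ∀ l, 2 ≤ W l
  growth : ∀ l, W l ^ (8 * 4 ^ (l + 1)) ≤ W (l + 1)
  eps : ∀ l, 2 ≤ ε (4 ^ (l + 1)) * W l

/-- The lower coefficient. -/
noncomputable def cc (W : ℕ → ℝ) (i : ℕ) : ℝ :=
  if work i then W (src (lev i)) ^ (kap i + 1) else 0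

/-- The leading coefficient. -/
noncomputable def LL (W : ℕ → ℝ) (i : ℕ) : ℝ :=
  if work i then W (src (lev i)) ^ (kap i + 1) * W (lev i) ^ (3 * 4 ^ (lev i + 1))
  else W (lev i) ^ (4 ^ (lev i + 1) + i)

/-- The orbit `e_i = T^i e_0`. -/
noncomputable def ee (W : ℕ → ℝ) (i : ℕ) : E1 :=
  ((LL W i : ℝ) : ℂ)⁻¹ • (f i + if h : work i then ((cc W i : ℝ) : ℂ) • ee W (kap i) else 0)
termination_by i
decreasing_by exact kap_lt h

/-- The vectors `T^n f_i`. -/
noncomputable def tv (W : ℕ → ℝ) (n i : ℕ) : E1 :=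
  ((LL W i : ℝ) : ℂ) • ee W (i + n) - ((cc W i : ℝ) : ℂ) • ee W (kap i + n)

section

variable {W ε : ℕ → ℝ}

theorem Good.one_le (hW : Good W ε) (l : ℕ) : 1 ≤ W l := by linarith [hW.two_le l]

theorem Good.pos (hW : Good W ε) (l : ℕ) : 0 < W l := by linarith [hW.two_le l]

theorem Good.le_succ (hW : Good W ε) (l : ℕ) : W l ≤ W (l + 1) := by
  refine le_trans ?_ (hW.growth l)
  apply le_self_pow₀ (hW.one_le l)
  positivity

theorem Good.mono (hW : Good W ε) : Monotone W := monotone_nat_of_le_succ hW.le_succ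

theorem Good.pow_le (hW : Good W ε) {l l' k : ℕ} (hl : l < l') (hk : k ≤ 8 * 4 ^ (l + 1)) :
    W l ^ k ≤ W l' :=
  ((pow_le_pow_right₀ (hW.one_le l) hk).trans (hW.growth l)).trans (hW.mono hl)

theorem cc_work {i : ℕ} (h : work i) : cc W i = W (src (lev i)) ^ (kap i + 1) := by
  simp [cc, h]

theorem cc_lay {i : ℕ} (h : ¬ work i) : cc W i = 0 := by simp [cc, h]

theorem LL_work {i : ℕ} (h : work i) : LL W i = cc W i * W (lev i) ^ (3 * 4 ^ (lev i + 1)) := by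
  simp [cc, LL, h]

theorem LL_lay {i : ℕ} (h : ¬ work i) : LL W i = W (lev i) ^ (4 ^ (lev i + 1) + i) := by
  simp [LL, h]

theorem cc_nonneg (hW : Good W ε) (i : ℕ) : 0 ≤ cc W i := by
  unfold cc
  split_ifs
  · exact pow_nonneg (hW.pos _).le _
  · exact le_rfl

theorem one_le_cc (hW : Good W ε) {i : ℕ} (h : work i) : 1 ≤ cc W i := by
  rw [cc_work h]
  exact one_le_pow₀ (hW.one_le _)

theorem LL_pos (hW : Good W ε) (i : ℕ) : 0 < LL W i := by
  unfold LL
  split_ifs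
  · exact mul_pos (pow_pos (hW.pos _) _) (pow_pos (hW.pos _) _)
  · exact pow_pos (hW.pos _) _

theorem cc_le (hW : Good W ε) (i : ℕ) : cc W i ≤ W (src (lev i)) ^ (4 ^ src (lev i)) := by
  by_cases h : work i
  · rw [cc_work h]
    exact pow_le_pow_right₀ (hW.one_le _) (kap_lt_src h)
  · rw [cc_lay h]
    exact pow_nonneg (hW.pos _).le _

theorem cc_le' (hW : Good W ε) (i : ℕ) : cc W i ≤ W (lev i) ^ (4 ^ lev i) := by
  refine (cc_le hW i).trans ?_
  calc W (src (lev i)) ^ (4 ^ src (lev i)) ≤ W (lev i) ^ (4 ^ src (lev i)) :=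
        pow_le_pow_left₀ (hW.pos _).le (hW.mono (src_le _)) _
    _ ≤ W (lev i) ^ (4 ^ lev i) := pow_le_pow_right₀ (hW.one_le _) (pow_src_le _)

theorem LL_le (hW : Good W ε) (i : ℕ) : LL W i ≤ W (lev i) ^ (4 * 4 ^ (lev i + 1)) := by
  by_cases h : work i
  · rw [LL_work h]
    calc cc W i * W (lev i) ^ (3 * 4 ^ (lev i + 1))
        ≤ W (lev i) ^ (4 ^ lev i) * W (lev i) ^ (3 * 4 ^ (lev i + 1)) :=
          mul_le_mul_of_nonneg_right (cc_le' hW i) (pow_nonneg (hW.pos _).le _)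
      _ = W (lev i) ^ (4 ^ lev i + 3 * 4 ^ (lev i + 1)) := by rw [← pow_add]
      _ ≤ W (lev i) ^ (4 * 4 ^ (lev i + 1)) := by
          apply pow_le_pow_right₀ (hW.one_le _)
          rw [pow_succ]
          omega
  · rw [LL_lay h]
    apply pow_le_pow_right₀ (hW.one_le _)
    have := lt_pow_lev i
    omega

theorem ee_work {i : ℕ} (h : work i) :
    ee W i = ((LL W i : ℝ) : ℂ)⁻¹ • (f i + ((cc W i : ℝ) : ℂ) • ee W (kap i)) := by
  rw [ee]
  simp [h]

theorem ee_lay {i : ℕ} (h : ¬ work i) : ee W i = ((LL W i : ℝ) : ℂ)⁻¹ • f i := by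
  rw [ee]
  simp [h]

theorem LL_smul_ee (hW : Good W ε) (i : ℕ) :
    ((LL W i : ℝ) : ℂ) • ee W i = f i + ((cc W i : ℝ) : ℂ) • ee W (kap i) := by
  have h0 : ((LL W i : ℝ) : ℂ) ≠ 0 := by
    exact_mod_cast (LL_pos hW i).ne'
  by_cases h : work i
  · rw [ee_work h, smul_smul, mul_inv_cancel₀ h0, one_smul]
  · rw [ee_lay h, smul_smul, mul_inv_cancel₀ h0, one_smul, cc_lay h]
    simp

theorem tv_zero (hW : Good W ε) (i : ℕ) : tv W 0 i = f i := by
  unfold tv
  rw [add_zero, add_zero, LL_smul_ee hW]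
  simp

theorem norm_real_smul {r : ℝ} (hr : 0 ≤ r) (x : E1) : ‖((r : ℝ) : ℂ) • x‖ = r * ‖x‖ := by
  rw [norm_smul, Complex.norm_real, Real.norm_eq_abs, abs_of_nonneg hr]

theorem LL_mul_norm_ee (hW : Good W ε) (i : ℕ) :
    LL W i * ‖ee W i‖ ≤ 1 + cc W i * ‖ee W (kap i)‖ := by
  rw [← norm_real_smul (LL_pos hW i).le, LL_smul_ee hW]
  refine (norm_add_le _ _).trans ?_
  rw [norm_f, norm_real_smul (cc_nonneg hW i)]

theorem norm_ee_lay (hW : Good W ε) {i : ℕ} (h : ¬ work i) :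
    ‖ee W i‖ * W (lev i) ^ (4 ^ (lev i + 1) + i) = 1 := by
  rw [← LL_lay h, mul_comm, ← norm_real_smul (LL_pos hW i).le, LL_smul_ee hW, cc_lay h]
  simp [norm_f]

theorem norm_ee_le_one (hW : Good W ε) (i : ℕ) : ‖ee W i‖ ≤ 1 := by
  induction i using Nat.strong_induction_on with
  | _ i ih =>
    by_cases h : work i
    · have h1 := LL_mul_norm_ee hW i
      have h2 := ih (kap i) (kap_lt h)
      have h3 := one_le_cc hW h
      have h4 : 2 ≤ W (lev i) ^ (3 * 4 ^ (lev i + 1)) :=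
        (hW.two_le _).trans (le_self_pow₀ (hW.one_le _) (by positivity))
      have h5 : 2 * cc W i ≤ LL W i := by
        rw [LL_work h]
        nlinarith
      have h6 : cc W i * ‖ee W (kap i)‖ ≤ cc W i := by
        nlinarith [norm_nonneg (ee W (kap i))]
      have h7 := norm_nonneg (ee W i)
      by_contra hcon
      push Not at hcon
      nlinarith
    · have h1 := norm_ee_lay hW h
      have h4 : 1 ≤ W (lev i) ^ (4 ^ (lev i + 1) + i) := one_le_pow₀ (hW.one_le _)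
      have h7 := norm_nonneg (ee W i)
      nlinarith

theorem norm_ee_work (hW : Good W ε) {i : ℕ} (h : work i) :
    ‖ee W i‖ * W (lev i) ^ (3 * 4 ^ (lev i + 1)) ≤ 2 := by
  have h1 := LL_mul_norm_ee hW i
  rw [LL_work h] at h1
  have h2 := norm_ee_le_one hW (kap i)
  have h3 := one_le_cc hW h
  have h6 : cc W i * ‖ee W (kap i)‖ ≤ cc W i := by
    nlinarith [norm_nonneg (ee W (kap i))]
  have h8 : cc W i * (‖ee W i‖ * W (lev i) ^ (3 * 4 ^ (lev i + 1))) ≤ cc W i * 2 := by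
    nlinarith
  exact le_of_mul_le_mul_left h8 (by linarith)

theorem two_mul_pow_le {w : ℝ} (hw : 2 ≤ w) {a b : ℕ} (h : a < b) : 2 * w ^ a ≤ w ^ b := by
  calc 2 * w ^ a ≤ w * w ^ a := by
        apply mul_le_mul_of_nonneg_right hw (pow_nonneg (by linarith) _)
    _ = w ^ (a + 1) := by rw [pow_succ]; ring
    _ ≤ w ^ b := pow_le_pow_right₀ (by linarith) h

/-- If `x * w^b ≤ 2` and `a < b` then `x * w^a ≤ 1`. -/
theorem mul_pow_le_one_of_le_two {x w : ℝ} (hx : 0 ≤ x) (hw : 2 ≤ w) {a b : ℕ} (h : a < b)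
    (hb : x * w ^ b ≤ 2) : x * w ^ a ≤ 1 := by
  have h1 := mul_le_mul_of_nonneg_left (two_mul_pow_le hw h) hx
  linarith

/-- If `x * w^b ≤ 1` and `a ≤ b` then `x * w^a ≤ 1`. -/
theorem mul_pow_le_one_of_le {x w : ℝ} (hx : 0 ≤ x) (hw : 1 ≤ w) {a b : ℕ} (h : a ≤ b)
    (hb : x * w ^ b ≤ 1) : x * w ^ a ≤ 1 :=
  (mul_le_mul_of_nonneg_left (pow_le_pow_right₀ hw h) hx).trans hb

theorem norm_ee (hW : Good W ε) (i : ℕ) : ‖ee W i‖ * W (lev i) ^ (4 ^ (lev i + 1)) ≤ 1 := by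
  have hp : 0 < 4 ^ (lev i + 1) := by positivity
  by_cases h : work i
  · exact mul_pow_le_one_of_le_two (norm_nonneg _) (hW.two_le _) (by omega) (norm_ee_work hW h)
  · exact mul_pow_le_one_of_le (norm_nonneg _) (hW.one_le _) (by omega) (norm_ee_lay hW h).le

/-- The estimate of `LL i * ‖e_{i+n}‖` when `i + n` has a higher level. -/
theorem LL_mul_norm_ee_add (hW : Good W ε) {i j : ℕ} (hl : lev i < lev j) :
    LL W i * ‖ee W j‖ * W (lev j) ^ (4 ^ (lev j + 1) - 1) ≤ 1 := by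
  have h1 : LL W i ≤ W (lev j) :=
    (LL_le hW i).trans (hW.pow_le hl (by omega))
  have h2 := norm_ee hW j
  have hp : 0 < 4 ^ (lev j + 1) := by positivity
  have h3 : W (lev j) ^ (4 ^ (lev j + 1)) = W (lev j) * W (lev j) ^ (4 ^ (lev j + 1) - 1) := by
    rw [← pow_succ']
    congr 1
    omega
  rw [h3] at h2
  have h4 : 0 ≤ ‖ee W j‖ * W (lev j) ^ (4 ^ (lev j + 1) - 1) :=
    mul_nonneg (norm_nonneg _) (pow_nonneg (hW.pos _).le _)
  calc LL W i * ‖ee W j‖ * W (lev j) ^ (4 ^ (lev j + 1) - 1)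
      = LL W i * (‖ee W j‖ * W (lev j) ^ (4 ^ (lev j + 1) - 1)) := by ring
    _ ≤ W (lev j) * (‖ee W j‖ * W (lev j) ^ (4 ^ (lev j + 1) - 1)) :=
        mul_le_mul_of_nonneg_right h1 h4
    _ = ‖ee W j‖ * (W (lev j) * W (lev j) ^ (4 ^ (lev j + 1) - 1)) := by ring
    _ ≤ 1 := h2

/-- First basic estimate: `i` in a lay-off interval. -/
theorem norm_tv_lay (hW : Good W ε) {i : ℕ} (h : ¬ work i) (n : ℕ) :
    ‖tv W n i‖ * W (lev (i + n)) ^ n ≤ 1 := by
  have h1 : ‖tv W n i‖ = LL W i * ‖ee W (i + n)‖ := by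
    unfold tv
    rw [cc_lay h]
    simp only [Complex.ofReal_zero, zero_smul, sub_zero]
    rw [norm_real_smul (LL_pos hW i).le]
  rw [h1]
  have hlt := lt_pow_lev (i + n)
  rcases (lev_mono (Nat.le_add_right i n)).lt_or_eq with hl | hl
  · have h2 := LL_mul_norm_ee_add hW (i := i) (j := i + n) hl
    refine mul_pow_le_one_of_le (mul_nonneg (LL_pos hW i).le (norm_nonneg _)) (hW.one_le _) ?_ h2
    omega
  · rw [LL_lay h, hl]
    by_cases hw : work (i + n)
    · have h2 := norm_ee_work hW hw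
      have h3 : W (lev (i + n)) ^ (4 ^ (lev (i + n) + 1) + i) * ‖ee W (i + n)‖ *
          W (lev (i + n)) ^ n =
          ‖ee W (i + n)‖ * W (lev (i + n)) ^ (4 ^ (lev (i + n) + 1) + (i + n)) := by
        rw [← add_assoc (4 ^ (lev (i + n) + 1)) i n, pow_add _ (4 ^ (lev (i + n) + 1) + i) n]
        ring
      rw [h3]
      refine mul_pow_le_one_of_le_two (norm_nonneg _) (hW.two_le _) ?_ h2
      omega
    · have h2 := norm_ee_lay hW hw
      have h3 : W (lev (i + n)) ^ (4 ^ (lev (i + n) + 1) + i) * ‖ee W (i + n)‖ *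
          W (lev (i + n)) ^ n =
          ‖ee W (i + n)‖ * W (lev (i + n)) ^ (4 ^ (lev (i + n) + 1) + (i + n)) := by
        rw [← add_assoc (4 ^ (lev (i + n) + 1)) i n, pow_add _ (4 ^ (lev (i + n) + 1) + i) n]
        ring
      rw [h3, h2]

/-- Second basic estimate: moving inside a working interval. -/
theorem norm_tv_work (hW : Good W ε) {i n : ℕ} (h : work i)
    (hn : kap i + n < 4 ^ src (lev i)) :
    ‖tv W n i‖ * W (src (lev i)) ^ n ≤ 1 := by
  obtain ⟨h1, h2, h3⟩ := work_add h hn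
  have hc : cc W (i + n) = cc W i * W (src (lev i)) ^ n := by
    rw [cc_work h2, cc_work h, h1, h3, ← pow_add]
    congr 1
    omega
  have hL : LL W (i + n) = LL W i * W (src (lev i)) ^ n := by
    rw [LL_work h2, LL_work h, hc, h1]
    ring
  have h4 : ((W (src (lev i)) ^ n : ℝ) : ℂ) • tv W n i = f (i + n) := by
    unfold tv
    rw [smul_sub, smul_smul, smul_smul, ← Complex.ofReal_mul, ← Complex.ofReal_mul,
      mul_comm _ (LL W i), mul_comm _ (cc W i), ← hc, ← hL, LL_smul_ee hW, h3]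
    simp
  have h5 := congrArg norm h4
  rw [norm_real_smul (pow_nonneg (hW.pos _).le _), norm_f] at h5
  rw [mul_comm]
  exact h5.le

/-- Third basic estimate: the lower term after leaving a working interval. -/
theorem cc_mul_norm_ee (hW : Good W ε) {i j : ℕ} (hn : 4 ^ src (lev i) ≤ j) :
    cc W i * ‖ee W j‖ * W (lev j) ^ (3 * 4 ^ lev j) ≤ 1 := by
  have hle : src (lev i) ≤ lev j := le_lev_of hn
  have h2 := norm_ee hW j
  have h0 : 0 ≤ ‖ee W j‖ * W (lev j) ^ (3 * 4 ^ lev j) :=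
    mul_nonneg (norm_nonneg _) (pow_nonneg (hW.pos _).le _)
  have h1 : cc W i ≤ W (lev j) ^ (4 ^ lev j) := by
    refine (cc_le hW i).trans ?_
    calc W (src (lev i)) ^ (4 ^ src (lev i)) ≤ W (lev j) ^ (4 ^ src (lev i)) :=
        pow_le_pow_left₀ (hW.pos _).le (hW.mono hle) _
    _ ≤ W (lev j) ^ (4 ^ lev j) :=
        pow_le_pow_right₀ (hW.one_le _) (Nat.pow_le_pow_right (by norm_num) hle)
  calc cc W i * ‖ee W j‖ * W (lev j) ^ (3 * 4 ^ lev j)
      = cc W i * (‖ee W j‖ * W (lev j) ^ (3 * 4 ^ lev j)) := by ring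
    _ ≤ W (lev j) ^ (4 ^ lev j) * (‖ee W j‖ * W (lev j) ^ (3 * 4 ^ lev j)) :=
        mul_le_mul_of_nonneg_right h1 h0
    _ = ‖ee W j‖ * W (lev j) ^ (4 ^ lev j + 3 * 4 ^ lev j) := by rw [pow_add]; ring
    _ = ‖ee W j‖ * W (lev j) ^ (4 ^ (lev j + 1)) := by
        congr 2
        rw [pow_succ]
        omega
    _ ≤ 1 := h2

theorem norm_tv_le (hW : Good W ε) (n i : ℕ) :
    ‖tv W n i‖ ≤ LL W i * ‖ee W (i + n)‖ + cc W i * ‖ee W (kap i + n)‖ := by
  unfold tv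
  refine (norm_sub_le _ _).trans ?_
  rw [norm_real_smul (LL_pos hW i).le, norm_real_smul (cc_nonneg hW i)]

end

end Pool.Agent.Lib.MP_7c4fde_an
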