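import Pool.Agent.Lib.MP_7c4fde_an.Oper

set_option autoImplicit false

namespace Pool.Agent.Lib.MP_7c4fde_an

variable {W ε : ℕ → ℝ}

theorem le_eps_half (hW : Good W ε) (hε : Antitone ε) {l n a : ℕ} {x : ℝ} (hx : 0 ≤ x)
    (ha : 1 ≤ a) (hn : n ≤ 4 ^ (l + 1)) (h : x * W l ^ a ≤ 1) : x ≤ ε n / 2 := by
  have h1 : x * W l ^ 1 ≤ 1 := mul_pow_le_one_of_le hx (hW.one_le l) ha h
  rw [pow_one] at h1
  have h2 := hW.eps l
  have h3 : ε (4 ^ (l + 1)) ≤ ε n := hε hn
  have h4 := hW.pos l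
  have h5 : (2 * x) * W l ≤ ε (4 ^ (l + 1)) * W l := by linarith
  have h6 := le_of_mul_le_mul_right h5 h4
  linarith

theorem norm_tv_eps (hW : Good W ε) (hε : Antitone ε) (hε0 : ∀ k, 0 < ε k) {n : ℕ} (hn : 1 ≤ n)
    (i : ℕ) : ‖tv W n i‖ ≤ ε n := by
  have hp := hε0 n
  by_cases h : work i
  · rcases lt_or_ge (kap i + n) (4 ^ src (lev i)) with h1 | h1
    · have h2 := norm_tv_work hW h h1
      have h3 := le_eps_half hW hε (norm_nonneg _) hn
        (by rw [pow_succ]; omega : n ≤ 4 ^ (src (lev i) + 1)) h2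
      linarith
    · have h2 := add_ge_of_overflow h h1
      have h3 : lev i < lev (i + n) := le_lev_of h2
      have h4 := LL_mul_norm_ee_add hW h3
      have h5 := cc_mul_norm_ee (i := i) hW h1
      have hlt1 := lt_pow_lev (i + n)
      have hlt2 := lt_pow_lev (kap i + n)
      have hpow : 4 ≤ 4 ^ (lev (i + n) + 1) := by
        rw [pow_succ]; have : 0 < 4 ^ lev (i + n) := by positivity
        omega
      have hpow2 : 0 < 4 ^ lev (kap i + n) := by positivity
      have h6 := le_eps_half hW hε (mul_nonneg (LL_pos hW i).le (norm_nonneg (ee W (i + n))))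
        (by omega) (by omega : n ≤ 4 ^ (lev (i + n) + 1)) h4
      have h7 := le_eps_half hW hε (mul_nonneg (cc_nonneg hW i) (norm_nonneg (ee W (kap i + n))))
        (by omega) (by omega : n ≤ 4 ^ (lev (kap i + n) + 1)) h5
      have h8 := norm_tv_le hW n i
      linarith
  · have h2 := norm_tv_lay hW h n
    have hlt1 := lt_pow_lev (i + n)
    have h3 := le_eps_half hW hε (norm_nonneg _) hn
        (by omega : n ≤ 4 ^ (lev (i + n) + 1)) h2
    linarith

/-- The operator `T`. -/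
noncomputable def TT (W : ℕ → ℝ) (C : ℝ) (hC : ∀ i, ‖tv W 1 i‖ ≤ C) : E1 →L[ℂ] E1 :=
  lift (tv W 1) C hC

section

variable {C : ℝ} {hC : ∀ i, ‖tv W 1 i‖ ≤ C}

theorem TT_f (i : ℕ) : TT W C hC (f i) = tv W 1 i := lift_f _ _ _ _

theorem TT_ee (hW : Good W ε) (i : ℕ) : TT W C hC (ee W i) = ee W (i + 1) := by
  induction i using Nat.strong_induction_on with
  | _ i ih =>
    have h0 : ((LL W i : ℝ) : ℂ) ≠ 0 := by exact_mod_cast (LL_pos hW i).ne'
    have h1 := congrArg (TT W C hC) (LL_smul_ee hW i)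
    rw [map_smul, map_add, map_smul, TT_f] at h1
    have h2 : ((cc W i : ℝ) : ℂ) • (TT W C hC) (ee W (kap i)) =
        ((cc W i : ℝ) : ℂ) • ee W (kap i + 1) := by
      by_cases h : work i
      · rw [ih (kap i) (kap_lt h)]
      · rw [cc_lay h]; simp
    rw [h2] at h1
    unfold tv at h1
    rw [sub_add_cancel] at h1
    exact smul_right_injective E1 h0 h1

theorem TT_pow_ee (hW : Good W ε) (k i : ℕ) : (TT W C hC ^ k) (ee W i) = ee W (i + k) := by
  induction k with
  | zero => simp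
  | succ k ih =>
    rw [pow_succ', mul_apply_eq_comp, ih, TT_ee hW]
    rfl

theorem f_eq (hW : Good W ε) (i : ℕ) :
    f i = ((LL W i : ℝ) : ℂ) • ee W i - ((cc W i : ℝ) : ℂ) • ee W (kap i) := by
  rw [LL_smul_ee hW]; simp

theorem TT_pow_f (hW : Good W ε) (k i : ℕ) : (TT W C hC ^ k) (f i) = tv W k i := by
  rw [f_eq hW, map_sub, map_smul, map_smul, TT_pow_ee hW, TT_pow_ee hW]
  rfl

theorem norm_TT_pow (hW : Good W ε) (hε : Antitone ε) (hε0 : ∀ k, 0 < ε k) {n : ℕ}
    (hn : 1 ≤ n) : ‖TT W C hC ^ n‖ ≤ ε n := by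
  apply opNorm_le _ (hε0 n).le
  intro i
  rw [TT_pow_f hW]
  exact norm_tv_eps hW hε hε0 hn i

end

/-- The exponent `b + g` of level `l`. -/
def nl (l : ℕ) : ℕ := 4 ^ (l + 1) - 4 ^ l / 2

/-- The multiplier `B` of level `l`. -/
noncomputable def BB (W : ℕ → ℝ) (l : ℕ) : ℝ := W l ^ (3 * 4 ^ (l + 1))

theorem BB_pos (hW : Good W ε) (l : ℕ) : 0 < BB W l := pow_pos (hW.pos _) _

theorem BB_mul_le (hW : Good W ε) {l l' : ℕ} (h : l < l') : BB W l * W l ≤ W l' := by
  unfold BB
  rw [← pow_succ]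
  apply hW.pow_le h
  have : 0 < 4 ^ (l + 1) := by positivity
  omega

theorem small_of {x w b : ℝ} {a : ℕ} (hx : 0 ≤ x) (hw : 2 ≤ w) (hb : b ≤ w) (ha : 3 ≤ a)
    (h : x * w ^ a ≤ 1) : b * x ≤ 1 / 2 := by
  have h1 : x * w ^ 2 ≤ 1 := mul_pow_le_one_of_le hx (by linarith) (by omega) h
  have h2 : b * x ≤ w * x := mul_le_mul_of_nonneg_right hb hx
  nlinarith

theorem le_nl {l : ℕ} : 4 ^ l ≤ nl l := by
  unfold nl
  rw [pow_succ]
  omega

theorem three_le_nl (l : ℕ) : 3 ≤ nl l := by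
  unfold nl
  have : 1 ≤ 4 ^ l := Nat.one_le_pow _ _ (by norm_num)
  rw [pow_succ]
  omega

theorem add_nl_ge {l i : ℕ} (h : 4 ^ l ≤ i) : 4 ^ (l + 1) ≤ i + nl l := by
  unfold nl
  rw [pow_succ]
  omega

/-- The vectors `Q_l f_i`. -/
noncomputable def qv (W : ℕ → ℝ) (l i : ℕ) : E1 :=
  if i < 4 ^ l then f i
  else if work i ∧ src (lev i) < l then -(((cc W i : ℝ) : ℂ) • ee W (kap i)) else 0

theorem tail_bound (hW : Good W ε) {C : ℝ} {hC : ∀ i, ‖tv W 1 i‖ ≤ C} {l : ℕ}
    (hl : l % 2 = 1) (i : ℕ) :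
    (BB W l * W l) * ‖(TT W C hC ^ nl l) (f i - qv W l i)‖ ≤ 1 := by
  have hβ0 : 0 ≤ BB W l * W l := mul_nonneg (BB_pos hW l).le (hW.pos l).le
  unfold qv
  split_ifs with h1 h2
  · simp
  · -- work, small source
    rw [sub_neg_eq_add, map_add, map_smul, TT_pow_f hW, TT_pow_ee hW]
    unfold tv
    rw [sub_add_cancel, norm_real_smul (LL_pos hW i).le]
    push Not at h1
    have h3 : 4 ^ src (lev i) ≤ kap i + nl l := by
      have h4 : 4 ^ src (lev i) ≤ 4 ^ l := Nat.pow_le_pow_right (by norm_num) h2.2.le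
      have h5 := le_nl (l := l)
      omega
    have h4 : lev i < lev (i + nl l) := le_lev_of (add_ge_of_overflow h2.1 h3)
    have h5 : l < lev (i + nl l) := le_lev_of (add_nl_ge h1)
    have h6 := LL_mul_norm_ee_add hW h4
    have h7 := small_of (mul_nonneg (LL_pos hW i).le (norm_nonneg _)) (hW.two_le _)
      (BB_mul_le hW h5) (by
        have : 4 ≤ 4 ^ (lev (i + nl l) + 1) := by
          rw [pow_succ]; have : 0 < 4 ^ lev (i + nl l) := by positivity
          omega
        omega) h6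
    linarith
  · rw [sub_zero, TT_pow_f hW]
    push Not at h1 h2
    by_cases hw : work i
    · have hs : l ≤ src (lev i) := h2 hw
      rcases lt_or_ge (kap i + nl l) (4 ^ src (lev i)) with h3 | h3
      · have h4 := norm_tv_work hW hw h3
        have h5 : l < src (lev i) := by
          rcases hs.lt_or_eq with h | h
          · exact h
          · exfalso
            rw [← h] at h3
            have := le_nl (l := l)
            omega
        have h6 := small_of (norm_nonneg _) (hW.two_le _) (BB_mul_le hW h5) (three_le_nl l) h4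
        linarith
      · have h4 : lev i < lev (i + nl l) := le_lev_of (add_ge_of_overflow hw h3)
        have h5 : l < lev (i + nl l) := le_lev_of (add_nl_ge h1)
        have h6 := LL_mul_norm_ee_add hW h4
        have h7 := small_of (mul_nonneg (LL_pos hW i).le (norm_nonneg _)) (hW.two_le _)
          (BB_mul_le hW h5) (by
            have : 4 ≤ 4 ^ (lev (i + nl l) + 1) := by
              rw [pow_succ]; have : 0 < 4 ^ lev (i + nl l) := by positivity
              omega
            omega) h6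
        have h8 : l < lev (kap i + nl l) := by
          rcases hs.lt_or_eq with h | h
          · exact lt_of_lt_of_le h (le_lev_of h3)
          · have ho : lev i % 2 = 1 := by
              by_contra hne
              rw [src_even (by omega)] at h
              omega
            have h9 := kap_ge_odd hw ho
            rw [src_odd ho] at h
            rw [← h] at h9
            apply le_lev_of
            unfold nl
            rw [pow_succ]
            omega
        have h9 := cc_mul_norm_ee (i := i) hW h3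
        have h10 := small_of (mul_nonneg (cc_nonneg hW i) (norm_nonneg _)) (hW.two_le _)
          (BB_mul_le hW h8) (by
            have : 0 < 4 ^ lev (kap i + nl l) := by positivity
            omega) h9
        have h11 := mul_le_mul_of_nonneg_left (norm_tv_le hW (nl l) i) hβ0
        rw [mul_add] at h11
        linarith
    · have h3 := norm_tv_lay hW hw (nl l)
      have h5 : l < lev (i + nl l) := le_lev_of (add_nl_ge h1)
      have h6 := small_of (norm_nonneg _) (hW.two_le _) (BB_mul_le hW h5) (three_le_nl l) h3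
      linarith

/-- `B e_{b+j}` is close to `e_j` for `j` in the source interval of an odd level. -/
theorem BB_ee_near (hW : Good W ε) {l j : ℕ} (hl : l % 2 = 1) (h1 : 4 ^ l / 2 ≤ j)
    (h2 : j < 4 ^ l) :
    W l * ‖((BB W l : ℝ) : ℂ) • ee W (3 * 4 ^ l + j) - ee W j‖ ≤ 1 := by
  obtain ⟨h3, h4, h5⟩ := work_odd hl h1 h2
  have h6 := LL_smul_ee hW (3 * 4 ^ l + j)
  rw [LL_work h4, h3, h5] at h6
  have h7 : ((cc W (3 * 4 ^ l + j) : ℝ) : ℂ) •
      (((BB W l : ℝ) : ℂ) • ee W (3 * 4 ^ l + j) - ee W j) = f (3 * 4 ^ l + j) := by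
    rw [smul_sub, smul_smul, ← Complex.ofReal_mul]
    unfold BB
    rw [h6]
    simp
  have h8 := congrArg norm h7
  rw [norm_real_smul (cc_nonneg hW _), norm_f] at h8
  have h9 : W l ≤ cc W (3 * 4 ^ l + j) := by
    rw [cc_work h4, h3, src_odd hl]
    exact le_self_pow₀ (hW.one_le l) (by omega)
  calc W l * ‖((BB W l : ℝ) : ℂ) • ee W (3 * 4 ^ l + j) - ee W j‖
      ≤ cc W (3 * 4 ^ l + j) * ‖((BB W l : ℝ) : ℂ) • ee W (3 * 4 ^ l + j) - ee W j‖ :=
        mul_le_mul_of_nonneg_right h9 (norm_nonneg _)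
    _ = 1 := h8

theorem BB_ee_far (hW : Good W ε) {l j : ℕ} (h2 : 4 ^ l ≤ j) :
    W l * ‖((BB W l : ℝ) : ℂ) • ee W (3 * 4 ^ l + j)‖ ≤ 1 := by
  have h5 : l < lev (3 * 4 ^ l + j) := le_lev_of (by rw [pow_succ]; omega)
  rw [norm_real_smul (BB_pos hW l).le]
  have h6 := small_of (norm_nonneg _) (hW.two_le _) (BB_mul_le hW h5) (by
        have : 4 ≤ 4 ^ (lev (3 * 4 ^ l + j) + 1) := by
          rw [pow_succ]; have : 0 < 4 ^ lev (3 * 4 ^ l + j) := by positivity
          omega
        omega) (norm_ee hW (3 * 4 ^ l + j))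
  linarith

/-- `A e_a` is close to `e_0`, for `a` the beginning of the working interval of an even level. -/
theorem AA_ee_near (hW : Good W ε) {l : ℕ} (hl : l % 2 = 0) :
    W (src l) * ‖((BB W l : ℝ) : ℂ) • ee W (4 ^ (l + 1) - 4 ^ src l) - ee W 0‖ ≤ 1 := by
  obtain ⟨h3, h4, h5⟩ := work_even hl
  have h6 := LL_smul_ee hW (4 ^ (l + 1) - 4 ^ src l)
  rw [LL_work h4, h3, h5] at h6
  have h7 : ((cc W (4 ^ (l + 1) - 4 ^ src l) : ℝ) : ℂ) •
      (((BB W l : ℝ) : ℂ) • ee W (4 ^ (l + 1) - 4 ^ src l) - ee W 0) =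
        f (4 ^ (l + 1) - 4 ^ src l) := by
    rw [smul_sub, smul_smul, ← Complex.ofReal_mul]
    unfold BB
    rw [h6]
    simp
  have h8 := congrArg norm h7
  rw [norm_real_smul (cc_nonneg hW _), norm_f, cc_work h4, h3, h5] at h8
  simp only [zero_add, pow_one] at h8
  exact h8.le

/-! ### The truncation operators -/

theorem qv_bound (hW : Good W ε) (l i : ℕ) : ‖qv W l i‖ ≤ W l ^ (4 ^ l) := by
  have h1 : 1 ≤ W l ^ (4 ^ l) := one_le_pow₀ (hW.one_le _)
  unfold qv
  split_ifs with h2 h3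
  · rw [norm_f]; exact h1
  · rw [norm_neg, norm_real_smul (cc_nonneg hW _)]
    have h4 := norm_ee_le_one hW (kap i)
    have h5 : cc W i ≤ W l ^ (4 ^ l) := by
      refine (cc_le hW i).trans ?_
      calc W (src (lev i)) ^ (4 ^ src (lev i)) ≤ W l ^ (4 ^ src (lev i)) :=
          pow_le_pow_left₀ (hW.pos _).le (hW.mono h3.2.le) _
      _ ≤ W l ^ (4 ^ l) :=
          pow_le_pow_right₀ (hW.one_le _) (Nat.pow_le_pow_right (by norm_num) h3.2.le)
    calc cc W i * ‖ee W (kap i)‖ ≤ cc W i * 1 :=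
          mul_le_mul_of_nonneg_left h4 (cc_nonneg hW _)
      _ ≤ W l ^ (4 ^ l) := by linarith
  · rw [norm_zero]; linarith

/-- The operator `Q_l`. -/
noncomputable def QQ (hW : Good W ε) (l : ℕ) : E1 →L[ℂ] E1 := lift (qv W l) _ (qv_bound hW l)

theorem QQ_f (hW : Good W ε) (l i : ℕ) : QQ hW l (f i) = qv W l i := lift_f _ _ _ _

/-- The values on the basis of the coordinate functional `Y_{l,j}`. -/
noncomputable def yv (W : ℕ → ℝ) (l j i : ℕ) : ℂ :=
  (if i = j then ((LL W i : ℝ) : ℂ) else 0) -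
    (if work i ∧ src (lev i) < l ∧ kap i = j then ((cc W i : ℝ) : ℂ) else 0)

theorem yv_bound (hW : Good W ε) (l j i : ℕ) :
    ‖yv W (l + 1) j i‖ ≤ LL W j + W l ^ (4 * 4 ^ (l + 1)) := by
  have h1 : 0 ≤ W l ^ (4 * 4 ^ (l + 1)) := pow_nonneg (hW.pos _).le _
  unfold yv
  refine (norm_sub_le _ _).trans (add_le_add ?_ ?_)
  · split_ifs with h
    · subst h
      rw [Complex.norm_real, Real.norm_eq_abs, abs_of_pos (LL_pos hW _)]
    · rw [norm_zero]; exact (LL_pos hW _).le
  · split_ifs with h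
    · rw [Complex.norm_real, Real.norm_eq_abs, abs_of_nonneg (cc_nonneg hW _)]
      refine (cc_le hW i).trans ?_
      have h3 : src (lev i) ≤ l := by omega
      calc W (src (lev i)) ^ (4 ^ src (lev i)) ≤ W l ^ (4 ^ src (lev i)) :=
          pow_le_pow_left₀ (hW.pos _).le (hW.mono h3) _
      _ ≤ W l ^ (4 * 4 ^ (l + 1)) := by
          apply pow_le_pow_right₀ (hW.one_le _)
          have h4 : 4 ^ src (lev i) ≤ 4 ^ l := Nat.pow_le_pow_right (by norm_num) h3
          rw [pow_succ]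
          omega
    · rw [norm_zero]; exact h1

/-- The coordinate functional `Y_{l+1,j}`. -/
noncomputable def YY (hW : Good W ε) (l j : ℕ) : E1 →L[ℂ] ℂ :=
  lift (yv W (l + 1) j) _ (yv_bound hW l j)

theorem YY_f (hW : Good W ε) (l j i : ℕ) : YY hW l j (f i) = yv W (l + 1) j i := lift_f _ _ _ _

/-- Bound for the coordinates. -/
theorem norm_YY_le (hW : Good W ε) {l j : ℕ} (hj : j < 4 ^ (l + 1)) (x : E1) :
    ‖YY hW l j x‖ ≤ 2 * W l ^ (4 * 4 ^ (l + 1)) * ‖x‖ := by
  apply norm_map_le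
  intro i
  rw [YY_f]
  refine (yv_bound hW l j i).trans ?_
  have h1 : LL W j ≤ W l ^ (4 * 4 ^ (l + 1)) := by
    refine (LL_le hW j).trans ?_
    have h2 : lev j ≤ l := by
      have := (lev_lt_iff (by omega : 1 ≤ l + 1)).2 hj
      omega
    calc W (lev j) ^ (4 * 4 ^ (lev j + 1)) ≤ W l ^ (4 * 4 ^ (lev j + 1)) :=
          pow_le_pow_left₀ (hW.pos _).le (hW.mono h2) _
      _ ≤ W l ^ (4 * 4 ^ (l + 1)) := by
          apply pow_le_pow_right₀ (hW.one_le _)
          have h4 : 4 ^ (lev j + 1) ≤ 4 ^ (l + 1) := Nat.pow_le_pow_right (by norm_num) (by omega)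
          omega
  linarith

end Pool.Agent.Lib.MP_7c4fde_an
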