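import Pool.Agent.Lib.MP_7c4fde_an.Oper2

set_option autoImplicit false

namespace Pool.Agent.Lib.MP_7c4fde_an

variable {W ε : ℕ → ℝ}

open Finset

theorem sum_yv (l i N : ℕ) (hN : work i → src (lev i) < l → kap i < N) :
    ∑ j ∈ range N, (yv W l j i) • ee W j =
      (if i < N then ((LL W i : ℝ) : ℂ) • ee W i else 0) -
      (if work i ∧ src (lev i) < l then ((cc W i : ℝ) : ℂ) • ee W (kap i) else 0) := by
  unfold yv
  simp_rw [sub_smul]
  rw [sum_sub_distrib]
  congr 1
  · simp_rw [ite_smul, zero_smul]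
    by_cases h : i < N
    · rw [if_pos h, Finset.sum_ite_eq (range N) i (fun j => ((LL W i : ℝ) : ℂ) • ee W j),
        if_pos (mem_range.2 h)]
    · rw [if_neg h, Finset.sum_ite_eq (range N) i (fun j => ((LL W i : ℝ) : ℂ) • ee W j),
        if_neg (by simpa using h)]
  · simp_rw [ite_smul, zero_smul]
    by_cases h : work i ∧ src (lev i) < l
    · rw [if_pos h]
      have : ∀ j, (work i ∧ src (lev i) < l ∧ kap i = j) ↔ kap i = j := by
        intro j; tauto
      simp_rw [this]
      rw [Finset.sum_ite_eq (range N) (kap i) (fun j => ((cc W i : ℝ) : ℂ) • ee W j),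
        if_pos (mem_range.2 (hN h.1 h.2))]
    · rw [if_neg h]
      apply Finset.sum_eq_zero
      intro j _
      rw [if_neg]
      tauto

/-- The truncation operator in the coordinates of the basis `e_j`. -/
theorem QQ_eq (hW : Good W ε) (l : ℕ) (x : E1) :
    QQ hW (l + 1) x = ∑ j ∈ range (4 ^ (l + 1)), (YY hW l j x) • ee W j := by
  have key : QQ hW (l + 1) = ∑ j ∈ range (4 ^ (l + 1)), (YY hW l j).smulRight (ee W j) := by
    apply clm_ext
    intro i
    rw [QQ_f, _root_.sum_apply]
    simp only [ContinuousLinearMap.smulRight_apply, YY_f]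
    rw [sum_yv]
    · unfold qv
      by_cases h : i < 4 ^ (l + 1)
      · rw [if_pos h, if_pos h]
        have hlev : lev i < l + 1 := (lev_lt_iff (by omega)).2 h
        have hs : src (lev i) < l + 1 := lt_of_le_of_lt (src_le _) hlev
        rw [f_eq hW]
        congr 1
        by_cases hw : work i
        · rw [if_pos ⟨hw, hs⟩]
        · rw [if_neg (by tauto), cc_lay hw]
          simp
      · rw [if_neg h, if_neg h, zero_sub]
        split_ifs <;> simp
    · intro hw hs
      exact (kap_lt_src hw).trans_le (Nat.pow_le_pow_right (by norm_num) hs.le)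
  rw [key, _root_.sum_apply]
  rfl

/-- Projection on the first `N` coordinates. -/
noncomputable def PP (N : ℕ) : E1 →L[ℂ] E1 :=
  lift (fun i => if i < N then f i else 0) 1 (fun i => by
    split_ifs
    · rw [norm_f]
    · simp)

theorem PP_f (N i : ℕ) : PP N (f i) = if i < N then f i else 0 := lift_f _ _ _ _

theorem norm_PP (N : ℕ) (x : E1) : ∑ i ∈ range N, ‖x i‖ ≤ ‖PP N x‖ := by
  have h : ∀ i, i < N → (PP N x) i = x i := by
    intro i hi
    rw [← coord_apply, ← coord_apply]
    have : (coord i).comp (PP N) = coord i := by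
      apply clm_ext
      intro j
      rw [ContinuousLinearMap.comp_apply, PP_f]
      by_cases hj : j < N
      · rw [if_pos hj]
      · rw [if_neg hj, map_zero, coord_apply, f_apply, if_neg (by omega)]
    exact congrArg (fun Φ => Φ x) this
  rw [norm_eq_tsum]
  calc ∑ i ∈ range N, ‖x i‖ = ∑ i ∈ range N, ‖(PP N x) i‖ := by
        apply sum_congr rfl
        intro i hi
        rw [h i (mem_range.1 hi)]
    _ ≤ ∑' i, ‖(PP N x) i‖ :=
        (summable_coord _).sum_le_tsum _ (fun i _ => norm_nonneg _)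

/-- The remainder operator `P_N - ∑_{j<N} Y_{l,j} e_j`, with `N = 4^(l)` and level `l + 1`. -/
theorem remainder (hW : Good W ε) (l : ℕ) (x : E1) :
    ‖PP (4 ^ l) x - ∑ j ∈ range (4 ^ l), (YY hW l j x) • ee W j‖ ≤
      ∑' i, ‖x i‖ * (if 4 ^ l ≤ i ∧ work i ∧ src (lev i) ≤ l then cc W i else 0) := by
  have key : ∀ x, PP (4 ^ l) x - ∑ j ∈ range (4 ^ l), (YY hW l j x) • ee W j =
      (PP (4 ^ l) - ∑ j ∈ range (4 ^ l), (YY hW l j).smulRight (ee W j)) x := by
    intro x
    rw [_root_.sub_apply, _root_.sum_apply]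
    rfl
  rw [key]
  have hval : ∀ i, ‖(PP (4 ^ l) - ∑ j ∈ range (4 ^ l), (YY hW l j).smulRight (ee W j)) (f i)‖ ≤
      (if 4 ^ l ≤ i ∧ work i ∧ src (lev i) ≤ l then cc W i else 0) := by
    intro i
    rw [← key, PP_f]
    simp only [YY_f]
    rw [sum_yv]
    · by_cases h : i < 4 ^ l
      · rw [if_pos h, if_pos h,
          if_neg (show ¬ (4 ^ l ≤ i ∧ work i ∧ src (lev i) ≤ l) from fun h' => by
            have := h'.1; omega)]
        have hs : work i → src (lev i) < l + 1 := by
          intro hw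
          have h1 := work_ge hw
          have h2 : lev i < l := by
            by_contra hcon
            push Not at hcon
            have h3 : 4 ^ l ≤ 4 ^ lev i := Nat.pow_le_pow_right (by norm_num) hcon
            have h4 : 0 < 4 ^ lev i := by positivity
            omega
          have := src_le (lev i)
          omega
        by_cases hw : work i
        · rw [if_pos ⟨hw, hs hw⟩, ← f_eq hW, sub_self, norm_zero]
        · rw [if_neg (by tauto)]
          conv_lhs => rw [f_eq hW i]
          rw [cc_lay hw]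
          simp
      · have h' := h
        push Not at h
        rw [if_neg h', if_neg h']
        by_cases hw : work i ∧ src (lev i) < l + 1
        · rw [if_pos hw, if_pos ⟨h, hw.1, by omega⟩]
          simp only [zero_sub, neg_neg]
          rw [norm_real_smul (cc_nonneg hW _)]
          have := norm_ee_le_one hW (kap i)
          nlinarith [cc_nonneg hW i]
        · rw [if_neg hw]
          simp only [sub_zero, norm_zero]
          split_ifs
          · exact cc_nonneg hW i
          · exact le_rfl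
    · intro hw hs
      exact (kap_lt_src hw).trans_le (Nat.pow_le_pow_right (by norm_num) (by omega))
  refine (norm_map_le_tsum _ x).trans ?_
  have hcc : ∀ i, (if 4 ^ l ≤ i ∧ work i ∧ src (lev i) ≤ l then cc W i else 0) ≤
      W l ^ (4 ^ l) := by
    intro i
    split_ifs with h
    · refine (cc_le hW i).trans ?_
      calc W (src (lev i)) ^ (4 ^ src (lev i)) ≤ W l ^ (4 ^ src (lev i)) :=
          pow_le_pow_left₀ (hW.pos _).le (hW.mono h.2.2) _
      _ ≤ W l ^ (4 ^ l) :=
          pow_le_pow_right₀ (hW.one_le _) (Nat.pow_le_pow_right (by norm_num) h.2.2)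
    · exact pow_nonneg (hW.pos _).le _
  have hcc0 : ∀ i, 0 ≤ (if 4 ^ l ≤ i ∧ work i ∧ src (lev i) ≤ l then cc W i else 0) := by
    intro i
    split_ifs with h
    · exact cc_nonneg hW i
    · exact le_rfl
  have hs2 : Summable (fun i => ‖x i‖ *
      (if 4 ^ l ≤ i ∧ work i ∧ src (lev i) ≤ l then cc W i else 0)) := by
    apply Summable.of_nonneg_of_le (fun i => mul_nonneg (norm_nonneg _) (hcc0 i)) (fun i => ?_)
      ((summable_coord x).mul_right (W l ^ (4 ^ l)))
    exact mul_le_mul_of_nonneg_left (hcc i) (norm_nonneg _)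
  apply Summable.tsum_le_tsum _ _ hs2
  · intro i
    exact mul_le_mul_of_nonneg_left (hval i) (norm_nonneg _)
  · apply Summable.of_nonneg_of_le (fun i => by positivity) (fun i => ?_) hs2
    exact mul_le_mul_of_nonneg_left (hval i) (norm_nonneg _)

/-- Step 1: failure at level `2t+3` makes the coordinates of level `2t` tiny. -/
theorem small_coord (hW : Good W ε) {t : ℕ} (ht : ∀ t', msch t' ≠ t + 1) {δ : ℝ} (x : E1)
    (hfail : ∀ j, j < 4 ^ (2 * t + 2) → ‖YY hW (2 * t + 2) j x‖ ≤ δ) {j : ℕ}
    (hj : work j) (hlev : lev j = 2 * t) : cc W j * ‖x j‖ ≤ 2 * δ := by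
  -- the index `i = j + 3 * 4^(2t+1)`
  have hj1 := work_ge hj
  have hj2 := lt_pow_lev j
  rw [hlev] at hj1 hj2
  have hjw := work_le hj
  have hps := pow_src_le (lev j)
  rw [hlev] at hjw hps
  have hsplit : (4 : ℕ) ^ (2 * t + 1) = 4 * 4 ^ (2 * t) := by rw [pow_succ]; ring
  have hsplit2 : (4 : ℕ) ^ (2 * t + 2) = 16 * 4 ^ (2 * t) := by
    rw [pow_succ, pow_succ]; ring
  have hpos : 0 < 4 ^ (2 * t) := by positivity
  have h1 : 4 ^ (2 * t + 1) / 2 ≤ j := by omega
  obtain ⟨g1, g2, g3⟩ := work_odd (l := 2 * t + 1) (j := j) (by omega) h1 hj2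
  set i₀ := 3 * 4 ^ (2 * t + 1) + j with hi₀
  -- uniqueness of the preimages
  have huniq : ∀ i, work i → src (lev i) < 2 * t + 3 → 4 ^ (2 * t) ≤ kap i →
      lev i = 2 * t + 1 := by
    intro i hw hs hk
    have hk2 := kap_lt_src hw
    have hs2 : 2 * t < src (lev i) := by
      by_contra hcon
      push Not at hcon
      have : 4 ^ src (lev i) ≤ 4 ^ (2 * t) := Nat.pow_le_pow_right (by norm_num) hcon
      omega
    rcases Nat.mod_two_eq_zero_or_one (lev i) with he | ho
    · exfalso
      rw [src_even he] at hs hs2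
      exact ht (lev i / 2) (by omega)
    · rw [src_odd ho] at hs hs2
      omega
  have hYj : YY hW (2 * t + 2) j =
      ((LL W j : ℝ) : ℂ) • coord j - ((cc W i₀ : ℝ) : ℂ) • coord i₀ := by
    apply clm_ext
    intro i
    rw [YY_f, _root_.sub_apply, _root_.smul_apply,
      _root_.smul_apply, coord_apply, coord_apply, f_apply, f_apply]
    unfold yv
    congr 1
    · by_cases h : i = j
      · subst h; simp
      · rw [if_neg h, if_neg (fun h' => h h'.symm)]; simp
    · by_cases h : i = i₀
      · subst h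
        rw [if_pos ⟨g2, by rw [g1, src_odd (by omega)]; omega, g3⟩]
        simp
      · rw [if_neg, if_neg (fun h' => h h'.symm)]
        · simp
        · rintro ⟨hw, hs, hk⟩
          apply h
          have h5 := huniq i hw hs (by omega)
          have h6 := kap_add hw
          rw [h5, src_odd (by omega), hk] at h6
          rw [hi₀]
          have : (4 : ℕ) ^ (2 * t + 1 + 1) = 16 * 4 ^ (2 * t) := hsplit2
          omega
  have hYi : YY hW (2 * t + 2) i₀ = ((LL W i₀ : ℝ) : ℂ) • coord i₀ := by
    apply clm_ext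
    intro i
    rw [YY_f, _root_.smul_apply, coord_apply, f_apply]
    unfold yv
    rw [if_neg (show ¬ (work i ∧ src (lev i) < 2 * t + 2 + 1 ∧ kap i = i₀) from ?_), sub_zero]
    · by_cases h : i = i₀
      · subst h; simp
      · rw [if_neg h, if_neg (fun h' => h h'.symm)]; simp
    · rintro ⟨hw, hs, hk⟩
      have h5 := huniq i hw hs (by omega)
      have h6 := kap_lt_src hw
      rw [h5, src_odd (by omega)] at h6
      omega
  have hi₀lt : i₀ < 4 ^ (2 * t + 2) := by omega
  have hfj := hfail j (by omega)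
  have hfi := hfail i₀ hi₀lt
  rw [hYj, _root_.sub_apply, _root_.smul_apply,
    _root_.smul_apply, coord_apply, coord_apply, smul_eq_mul, smul_eq_mul] at hfj
  rw [hYi, _root_.smul_apply, coord_apply, smul_eq_mul, norm_mul,
    Complex.norm_real, Real.norm_eq_abs, abs_of_pos (LL_pos hW _)] at hfi
  have hcL : cc W i₀ ≤ LL W i₀ := by
    rw [LL_work g2]
    have := one_le_pow₀ (n := 3 * 4 ^ (lev i₀ + 1)) (hW.one_le (lev i₀))
    nlinarith [cc_nonneg hW i₀]
  have hcLj : cc W j ≤ LL W j := by
    rw [LL_work hj]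
    have := one_le_pow₀ (n := 3 * 4 ^ (lev j + 1)) (hW.one_le (lev j))
    nlinarith [cc_nonneg hW j]
  have h7 : ‖((LL W j : ℝ) : ℂ) * x j‖ ≤ δ + ‖((cc W i₀ : ℝ) : ℂ) * x i₀‖ := by
    have := norm_sub_norm_le (((LL W j : ℝ) : ℂ) * x j) (((cc W i₀ : ℝ) : ℂ) * x i₀)
    linarith
  rw [norm_mul, norm_mul, Complex.norm_real, Complex.norm_real, Real.norm_eq_abs,
    Real.norm_eq_abs, abs_of_pos (LL_pos hW _), abs_of_nonneg (cc_nonneg hW _)] at h7
  have h8 : cc W i₀ * ‖x i₀‖ ≤ LL W i₀ * ‖x i₀‖ :=
    mul_le_mul_of_nonneg_right hcL (norm_nonneg _)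
  have h9 : cc W j * ‖x j‖ ≤ LL W j * ‖x j‖ :=
    mul_le_mul_of_nonneg_right hcLj (norm_nonneg _)
  linarith

end Pool.Agent.Lib.MP_7c4fde_an
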