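import Mathlib

set_option autoImplicit false

namespace Pool.Agent.Lib.MP_7c4fde_an

open Finset

/-- Exact solution: a power series of order `< n0` can be multiplied into `X^a`. -/
theorem exact_inverse (N n0 a g : ℕ) (hg : g + n0 ≤ a + 1) (y : ℕ → ℂ)
    (hy : ∃ j, j < n0 ∧ y j ≠ 0) :
    ∃ p : ℕ → ℂ, (∀ k, p k ≠ 0 → g ≤ k ∧ k < N) ∧
      ∀ r, r < N → ∑ kj ∈ antidiagonal r, p kj.1 * y kj.2 = if r = a then 1 else 0 := by
  classical
  -- the order
  obtain ⟨j₁, hj₁, hj₁'⟩ := hy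
  have hex : ∃ j, y j ≠ 0 := ⟨j₁, hj₁'⟩
  set j₀ := Nat.find hex with hj₀
  have hj₀y : y j₀ ≠ 0 := Nat.find_spec hex
  have hj₀n : j₀ < n0 := lt_of_le_of_lt (Nat.find_min' hex hj₁') hj₁
  have hlow : ∀ j, j < j₀ → y j = 0 := by
    intro j hj
    by_contra h
    exact Nat.find_min hex hj h
  set ψ : PowerSeries ℂ := PowerSeries.mk (fun n => y (n + j₀)) with hψ
  have hψ0 : PowerSeries.constantCoeff ψ ≠ 0 := by
    rw [hψ, ← PowerSeries.coeff_zero_eq_constantCoeff_apply, PowerSeries.coeff_mk, zero_add]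
    exact hj₀y
  have hφ : PowerSeries.mk y = PowerSeries.X ^ j₀ * ψ := by
    ext n
    rw [PowerSeries.coeff_mk, PowerSeries.coeff_X_pow_mul']
    split_ifs with h
    · rw [hψ, PowerSeries.coeff_mk, Nat.sub_add_cancel h]
    · exact hlow n (by omega)
  set P : PowerSeries ℂ := PowerSeries.X ^ (a - j₀) * ψ⁻¹ with hP
  have hmul : P * PowerSeries.mk y = PowerSeries.X ^ a := by
    rw [hφ, hP]
    calc PowerSeries.X ^ (a - j₀) * ψ⁻¹ * (PowerSeries.X ^ j₀ * ψ)
        = PowerSeries.X ^ (a - j₀) * PowerSeries.X ^ j₀ * (ψ * ψ⁻¹) := by ring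
      _ = PowerSeries.X ^ a := by
          rw [PowerSeries.mul_inv_cancel ψ hψ0, mul_one, ← pow_add]
          congr 1
          omega
  refine ⟨fun k => if k < N then PowerSeries.coeff k P else 0, ?_, ?_⟩
  · intro k hk
    by_cases hkN : k < N
    · simp only [hkN, if_true] at hk
      refine ⟨?_, hkN⟩
      by_contra hcon
      push Not at hcon
      apply hk
      rw [hP, PowerSeries.coeff_X_pow_mul', if_neg (by omega)]
    · simp [hkN] at hk
  · intro r hr
    have h1 : PowerSeries.coeff r (P * PowerSeries.mk y) = if r = a then 1 else 0 := by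
      rw [hmul, PowerSeries.coeff_X_pow]
    rw [PowerSeries.coeff_mul] at h1
    rw [← h1]
    apply sum_congr rfl
    intro kj hkj
    have h2 : kj.1 + kj.2 = r := mem_antidiagonal.1 hkj
    beta_reduce
    rw [if_pos (by omega), PowerSeries.coeff_mk]

/-- Uniform approximate inversion (by compactness). -/
theorem poly_bound (N n0 a g : ℕ) (haN : a < N) (hg : g + n0 ≤ a + 1) (R δ η : ℝ)
    (hδ : 0 < δ) (hη : 0 < η) :
    ∃ B : ℝ, 0 ≤ B ∧ ∀ y : ℕ → ℂ, (∀ j, j < N → ‖y j‖ ≤ R) → (∃ j, j < n0 ∧ δ ≤ ‖y j‖) →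
      ∃ p : ℕ → ℂ, (∀ k, p k ≠ 0 → g ≤ k ∧ k < N) ∧ (∀ k, ‖p k‖ ≤ B) ∧
        ∀ r, r < N →
          ‖(∑ kj ∈ antidiagonal r, p kj.1 * y kj.2) - (if r = a then 1 else 0)‖ ≤ η := by
  classical
  have hn0N : n0 ≤ N := by omega
  -- extension by zero
  let ex : (Fin N → ℂ) → ℕ → ℂ := fun u j => if h : j < N then u ⟨j, h⟩ else 0
  let K : Set (Fin N → ℂ) := {u | (∀ j, ‖u j‖ ≤ R) ∧ ∃ j : Fin N, j.1 < n0 ∧ δ ≤ ‖u j‖}
  have hKc : IsCompact K := by
    apply Metric.isCompact_of_isClosed_isBounded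
    · have h1 : IsClosed {u : Fin N → ℂ | ∀ j, ‖u j‖ ≤ R} := by
        have : {u : Fin N → ℂ | ∀ j, ‖u j‖ ≤ R} = ⋂ j, {u : Fin N → ℂ | ‖u j‖ ≤ R} := by
          ext u; simp
        rw [this]
        apply isClosed_iInter
        intro j
        exact isClosed_le (continuous_apply j).norm continuous_const
      have h2 : IsClosed {u : Fin N → ℂ | ∃ j : Fin N, j.1 < n0 ∧ δ ≤ ‖u j‖} := by
        have : {u : Fin N → ℂ | ∃ j : Fin N, j.1 < n0 ∧ δ ≤ ‖u j‖} =
            ⋃ j : Fin N, {u : Fin N → ℂ | j.1 < n0 ∧ δ ≤ ‖u j‖} := by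
          ext u; simp
        rw [this]
        apply isClosed_iUnion_of_finite
        intro j
        by_cases hj : j.1 < n0
        · have : {u : Fin N → ℂ | j.1 < n0 ∧ δ ≤ ‖u j‖} = {u : Fin N → ℂ | δ ≤ ‖u j‖} := by
            ext u; simp [hj]
          rw [this]
          exact isClosed_le continuous_const (continuous_apply j).norm
        · have : {u : Fin N → ℂ | j.1 < n0 ∧ δ ≤ ‖u j‖} = ∅ := by
            ext u; simp [hj]
          rw [this]
          exact isClosed_empty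
      exact h1.inter h2
    · apply (Metric.isBounded_closedBall (x := (0 : Fin N → ℂ)) (r := max R 0)).subset
      intro u hu
      rw [mem_closedBall_zero_iff, pi_norm_le_iff_of_nonneg (le_max_right _ _)]
      intro j
      exact (hu.1 j).trans (le_max_left _ _)
  have hex : ∀ u : Fin N → ℂ, ∃ p : ℕ → ℂ, u ∈ K → ((∀ k, p k ≠ 0 → g ≤ k ∧ k < N) ∧
      ∀ r, r < N → ∑ kj ∈ antidiagonal r, p kj.1 * ex u kj.2 = if r = a then 1 else 0) := by
    intro u
    by_cases hu : u ∈ K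
    · obtain ⟨j, hj, hj'⟩ := hu.2
      obtain ⟨p, hp⟩ := exact_inverse N n0 a g hg (ex u) ⟨j.1, hj, by
        simp only [ex, j.2, dif_pos]
        intro h0
        rw [show (⟨j.1, j.2⟩ : Fin N) = j from rfl] at h0
        rw [h0, norm_zero] at hj'
        linarith⟩
      exact ⟨p, fun _ => hp⟩
    · exact ⟨0, fun h => absurd h hu⟩
  choose pp hpp using hex
  let U : (Fin N → ℂ) → Set (Fin N → ℂ) := fun u => {v | ∀ r ∈ range N,
    ‖(∑ kj ∈ antidiagonal r, pp u kj.1 * ex v kj.2) - (if r = a then 1 else 0)‖ < η}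
  have hcont : ∀ j, Continuous (fun v : Fin N → ℂ => ex v j) := by
    intro j
    by_cases h : j < N
    · simp only [ex, h, dif_pos]
      exact continuous_apply _
    · simp only [ex, h, dif_neg, not_false_eq_true]
      exact continuous_const
  have hU : ∀ u ∈ K, U u ∈ nhds u := by
    intro u hu
    apply IsOpen.mem_nhds
    · have : U u = ⋂ r ∈ range N, {v | ‖(∑ kj ∈ antidiagonal r, pp u kj.1 * ex v kj.2) -
          (if r = a then 1 else 0)‖ < η} := by
        ext v; simp [U]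
      rw [this]
      apply isOpen_biInter_finset
      intro r _
      apply isOpen_lt _ continuous_const
      apply Continuous.norm
      apply Continuous.sub _ continuous_const
      apply continuous_finsetSum
      intro kj _
      exact continuous_const.mul (hcont _)
    · intro r hr
      rw [(hpp u hu).2 r (mem_range.1 hr), sub_self, norm_zero]
      exact hη
  obtain ⟨t, htK, htc⟩ := hKc.elim_nhds_subcover U hU
  refine ⟨∑ u ∈ t, ∑ k ∈ range N, ‖pp u k‖, by positivity, ?_⟩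
  intro y hyR hyδ
  set u₀ : Fin N → ℂ := fun j => y j.1 with hu₀
  have hu₀K : u₀ ∈ K := by
    refine ⟨fun j => hyR j.1 j.2, ?_⟩
    obtain ⟨j, hj, hj'⟩ := hyδ
    exact ⟨⟨j, by omega⟩, hj, hj'⟩
  obtain ⟨u, hut, hu⟩ := Set.mem_iUnion₂.1 (htc hu₀K)
  refine ⟨pp u, (hpp u (htK u hut)).1, ?_, ?_⟩
  · intro k
    by_cases hk : pp u k = 0
    · rw [hk, norm_zero]; positivity
    · have hkN := ((hpp u (htK u hut)).1 k hk).2
      calc ‖pp u k‖ ≤ ∑ k ∈ range N, ‖pp u k‖ :=
            single_le_sum (f := fun k => ‖pp u k‖) (fun i _ => norm_nonneg _) (mem_range.2 hkN)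
        _ ≤ ∑ u ∈ t, ∑ k ∈ range N, ‖pp u k‖ :=
            single_le_sum (f := fun u => ∑ k ∈ range N, ‖pp u k‖)
              (fun i _ => by positivity) hut
  · intro r hr
    have h1 := hu r (mem_range.2 hr)
    have h2 : ∑ kj ∈ antidiagonal r, pp u kj.1 * y kj.2 =
        ∑ kj ∈ antidiagonal r, pp u kj.1 * ex u₀ kj.2 := by
      apply sum_congr rfl
      intro kj hkj
      have h3 : kj.1 + kj.2 = r := mem_antidiagonal.1 hkj
      have h4 : kj.2 < N := by omega
      simp only [ex, h4, dif_pos, hu₀]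
    rw [h2]
    exact h1.le

end Pool.Agent.Lib.MP_7c4fde_an
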