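import Pool.Agent.Lib.MP_7c4fde_an.GoodLevel
import Pool.Agent.Lib.MP_7c4fde_an.Poly

set_option autoImplicit false

namespace Pool.Agent.Lib.MP_7c4fde_an

open Finset

/-- The compactness requirement linking two consecutive parameters (`w = W l`, `w' = W (l+1)`). -/
def Link (l : ℕ) (w w' : ℝ) : Prop :=
  ∀ y : ℕ → ℂ, (∀ j, j < 4 ^ (l + 1) → ‖y j‖ ≤ 2 * w ^ (4 * 4 ^ (l + 1))) →
    (∃ j, j < 4 ^ l ∧ (1 / 16 : ℝ) ^ (l + 1) ≤ ‖y j‖) →
    ∃ p : ℕ → ℂ, (∀ k, p k ≠ 0 → 4 ^ (l + 1) / 2 ≤ k ∧ k < 4 ^ (l + 1)) ∧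
      (∀ k, ((l : ℝ) + 1) * w ^ (3 * 4 ^ (l + 1)) * 4 ^ (l + 1) *
        (1 + 4 ^ (l + 1) * (2 * w ^ (4 * 4 ^ (l + 1)))) * ‖p k‖ ≤ w') ∧
      ∀ r, r < 4 ^ (l + 1) → ((l : ℝ) + 1) * w ^ (3 * 4 ^ (l + 1)) * 4 ^ (l + 1) *
        ‖(∑ kj ∈ antidiagonal r, p kj.1 * y kj.2) -
          (if r = 4 ^ (l + 1) - 4 ^ src l then 1 else 0)‖ ≤ 1

theorem Link.mono {l : ℕ} {w w' w'' : ℝ} (h : Link l w w') (hw : w' ≤ w'') : Link l w w'' := by
  intro y h1 h2
  obtain ⟨p, hp1, hp2, hp3⟩ := h y h1 h2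
  exact ⟨p, hp1, fun k => (hp2 k).trans hw, hp3⟩

theorem exists_link (l : ℕ) {w : ℝ} (hw : 2 ≤ w) : ∃ w', Link l w w' := by
  have hA : 0 < ((l : ℝ) + 1) * w ^ (3 * 4 ^ (l + 1)) * 4 ^ (l + 1) := by positivity
  have hps := pow_src_le l
  have hp0 : 0 < 4 ^ src l := by positivity
  obtain ⟨B, hB0, hB⟩ := poly_bound (4 ^ (l + 1)) (4 ^ l) (4 ^ (l + 1) - 4 ^ src l)
    (4 ^ (l + 1) / 2) (by rw [pow_succ]; omega) (by rw [pow_succ]; omega)
    (2 * w ^ (4 * 4 ^ (l + 1))) ((1 / 16 : ℝ) ^ (l + 1))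
    (1 / (((l : ℝ) + 1) * w ^ (3 * 4 ^ (l + 1)) * 4 ^ (l + 1))) (by positivity) (by positivity)
  refine ⟨((l : ℝ) + 1) * w ^ (3 * 4 ^ (l + 1)) * 4 ^ (l + 1) *
        (1 + 4 ^ (l + 1) * (2 * w ^ (4 * 4 ^ (l + 1)))) * B, ?_⟩
  intro y h1 h2
  obtain ⟨p, hp1, hp2, hp3⟩ := hB y h1 h2
  refine ⟨p, hp1, ?_, ?_⟩
  · intro k
    exact mul_le_mul_of_nonneg_left (hp2 k) (by positivity)
  · intro r hr
    have := hp3 r hr
    rw [le_div_iff₀ hA] at this
    linarith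

/-- Existence of a parameter sequence. -/
theorem exists_W (ε : ℕ → ℝ) (hε0 : ∀ k, 0 < ε k) :
    ∃ W : ℕ → ℝ, Good W ε ∧ ∀ l, Link l (W l) (W (l + 1)) := by
  have hstep : ∀ (l : ℕ) (w : ℝ), ∃ w' : ℝ, 2 ≤ w → (2 ≤ w' ∧ w ^ (8 * 4 ^ (l + 1)) ≤ w' ∧
      2 ≤ ε (4 ^ (l + 2)) * w' ∧ Link l w w') := by
    intro l w
    by_cases hw : 2 ≤ w
    · obtain ⟨w₁, hw₁⟩ := exists_link l hw
      refine ⟨max (max 2 (w ^ (8 * 4 ^ (l + 1)))) (max (2 / ε (4 ^ (l + 2))) w₁), fun _ =>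
        ⟨?_, ?_, ?_, ?_⟩⟩
      · exact (le_max_left _ _).trans (le_max_left _ _)
      · exact (le_max_right _ _).trans (le_max_left _ _)
      · have h1 : 2 / ε (4 ^ (l + 2)) ≤
            max (max 2 (w ^ (8 * 4 ^ (l + 1)))) (max (2 / ε (4 ^ (l + 2))) w₁) :=
          (le_max_left _ _).trans (le_max_right _ _)
        rw [div_le_iff₀ (hε0 _)] at h1
        linarith
      · exact hw₁.mono ((le_max_right _ _).trans (le_max_right _ _))
    · exact ⟨0, fun h => absurd h hw⟩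
  choose Φ hΦ using hstep
  let W : ℕ → ℝ := fun n => Nat.rec (max 2 (2 / ε (4 ^ 1))) (fun l w => Φ l w) n
  have hW0 : W 0 = max 2 (2 / ε (4 ^ 1)) := rfl
  have hWs : ∀ l, W (l + 1) = Φ l (W l) := fun l => rfl
  have h2 : ∀ l, 2 ≤ W l := by
    intro l
    induction l with
    | zero => rw [hW0]; exact le_max_left _ _
    | succ l ih => rw [hWs]; exact (hΦ l (W l) ih).1
  refine ⟨W, ⟨h2, fun l => (hΦ l (W l) (h2 l)).2.1, ?_⟩, fun l => (hΦ l (W l) (h2 l)).2.2.2⟩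
  intro l
  cases l with
  | zero =>
    have h1 : 2 / ε (4 ^ 1) ≤ W 0 := by rw [hW0]; exact le_max_right _ _
    rw [div_le_iff₀ (hε0 _)] at h1
    rw [zero_add]
    linarith
  | succ l => exact (hΦ l (W l) (h2 l)).2.2.1

section

variable {W ε : ℕ → ℝ}

theorem Good.succ_le (hW : Good W ε) (l : ℕ) : (l : ℝ) + 1 ≤ W l := by
  induction l with
  | zero => have := hW.two_le 0; push_cast; linarith
  | succ l ih =>
    have h1 : W l ^ 2 ≤ W (l + 1) := hW.pow_le (Nat.lt_succ_self l) (by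
      have : 0 < 4 ^ (l + 1) := by positivity
      omega)
    have h2 := hW.two_le l
    push_cast
    nlinarith

/-- Regrouping of a double sum. -/
theorem double_sum (N : ℕ) (p y : ℕ → ℂ) (e : ℕ → E1) :
    ∑ k ∈ range N, ∑ j ∈ range N, (p k * y j) • (if k + j < N then e (k + j) else 0) =
      ∑ r ∈ range N, (∑ kj ∈ antidiagonal r, p kj.1 * y kj.2) • e r := by
  classical
  rw [← sum_product' (range N) (range N)
    (fun k j => (p k * y j) • (if k + j < N then e (k + j) else 0))]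
  have h1 : ∑ x ∈ range N ×ˢ range N, (p x.1 * y x.2) • (if x.1 + x.2 < N then e (x.1 + x.2) else 0)
      = ∑ x ∈ (range N ×ˢ range N).filter (fun x => x.1 + x.2 < N),
        (p x.1 * y x.2) • e (x.1 + x.2) := by
    rw [sum_filter]
    apply sum_congr rfl
    intro x _
    split_ifs <;> simp
  rw [h1, ← sum_fiberwise_of_maps_to (t := range N) (g := fun x => x.1 + x.2)]
  · apply sum_congr rfl
    intro r hr
    rw [sum_smul]
    have h2 : ((range N ×ˢ range N).filter (fun x => x.1 + x.2 < N)).filter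
        (fun x => x.1 + x.2 = r) = antidiagonal r := by
      ext x
      simp only [mem_filter, mem_product, mem_range, HasAntidiagonal.mem_antidiagonal] at hr ⊢
      constructor
      · rintro ⟨_, h⟩; exact h
      · intro h; omega
    rw [h2]
    apply sum_congr rfl
    intro x hx
    rw [HasAntidiagonal.mem_antidiagonal.1 hx]
  · intro x hx
    simp only [mem_filter, mem_product, mem_range] at hx ⊢
    exact hx.2

variable {C : ℝ} {hC : ∀ i, ‖tv W 1 i‖ ≤ C}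

/-- Approximation of `e_0` from a unit vector at a good level. -/
theorem approx_unit (hW : Good W ε) (hε : Antitone ε) (hε0 : ∀ k, 0 < ε k)
    (hε1 : ∀ k, ε k ≤ 1) (hL : ∀ l, Link l (W l) (W (l + 1))) (x : E1) (hx : ‖x‖ = 1) (t : ℕ)
    (ht : ∃ j, j < 4 ^ (2 * t) ∧ (1 / 16 : ℝ) ^ (2 * t + 1) ≤ ‖YY hW (2 * t) j x‖) :
    ∃ a : ℕ → ℂ, ‖(∑ k ∈ range (4 ^ (2 * t + 1)), (a k) • (TT W C hC ^ (3 * 4 ^ (2 * t + 1) + k)) x)
      - ee W 0‖ ≤ 2 / ((2 * t : ℕ) + 1 : ℝ) + 1 / W (src (2 * t)) := by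
  set l := 2 * t with hl
  have hleven : l % 2 = 0 := by omega
  have hodd : (l + 1) % 2 = 1 := by omega
  set N := 4 ^ (l + 1) with hN
  set y : ℕ → ℂ := fun j => YY hW l j x with hy
  obtain ⟨R, hR⟩ : ∃ R : ℝ, R = 2 * W l ^ (4 * 4 ^ (l + 1)) := ⟨_, rfl⟩
  have hyR : ∀ j, j < N → ‖y j‖ ≤ R := by
    intro j hj
    have := norm_YY_le hW hj x
    rw [hx, mul_one] at this
    rw [hR]
    exact this
  have hR0 : 0 ≤ R := by
    rw [hR]
    have := pow_nonneg (hW.pos l).le (4 * 4 ^ (l + 1))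
    linarith
  obtain ⟨p, hp1, hp2, hp3⟩ := hL l y (by rw [← hR]; exact hyR) ht
  rw [← hR] at hp2
  obtain ⟨A, hA⟩ : ∃ A : ℝ, A = BB W l := ⟨_, rfl⟩
  have hA0 : 0 < A := by rw [hA]; exact BB_pos hW l
  have hAdef : W l ^ (3 * 4 ^ (l + 1)) = A := by rw [hA]; rfl
  rw [hAdef] at hp2 hp3
  obtain ⟨w, hw⟩ : ∃ w : ℝ, w = W (l + 1) := ⟨_, rfl⟩
  have hw0 : 0 < w := by rw [hw]; exact hW.pos _
  obtain ⟨B, hB⟩ : ∃ B : ℝ, B = BB W (l + 1) := ⟨_, rfl⟩
  have hB0 : 0 < B := by rw [hB]; exact BB_pos hW _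
  set T := TT W C hC with hT
  have hNpos : (0 : ℝ) < (N : ℝ) := by rw [hN]; positivity
  have hNcast : ((4 : ℝ) ^ (l + 1)) = (N : ℝ) := by rw [hN]; push_cast; rfl
  rw [hNcast] at hp2 hp3
  have hl1 : (0 : ℝ) < (l : ℝ) + 1 := by positivity
  rw [← hw] at hp2
  refine ⟨fun k => ((A : ℝ) : ℂ) * ((B : ℝ) : ℂ) * p k, ?_⟩
  -- the vectors `u_r = B e_{b+r}` and their approximations
  set u : ℕ → E1 := fun r => ((B : ℝ) : ℂ) • ee W (3 * 4 ^ (l + 1) + r) with hu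
  set v : ℕ → E1 := fun r => if r < N then ee W r else 0 with hv
  have huv : ∀ r, N / 2 ≤ r → ‖u r - v r‖ ≤ 1 / w := by
    intro r hr
    rw [le_div_iff₀ hw0, mul_comm]
    simp only [hu, hv]
    by_cases h : r < N
    · rw [if_pos h, hw, hB]
      exact BB_ee_near hW hodd hr h
    · rw [if_neg h, sub_zero, hw, hB]
      push Not at h
      exact BB_ee_far hW h
  -- splitting of the vector
  have hsplit : (∑ k ∈ range N, (((A : ℝ) : ℂ) * ((B : ℝ) : ℂ) * p k) •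
      (T ^ (3 * 4 ^ (l + 1) + k)) x) =
      ((A : ℝ) : ℂ) • ((∑ k ∈ range N, (p k) • (((B : ℝ) : ℂ) •
        (T ^ (3 * 4 ^ (l + 1) + k)) (x - QQ hW (l + 1) x))) +
      ∑ k ∈ range N, ∑ j ∈ range N, (p k * y j) • u (k + j)) := by
    have h1 : ∀ k, ∑ j ∈ range N, (p k * y j) • u (k + j) =
        (p k) • (((B : ℝ) : ℂ) • (T ^ (3 * 4 ^ (l + 1) + k)) (QQ hW (l + 1) x)) := by
      intro k
      rw [QQ_eq, map_sum, smul_sum, smul_sum]
      apply sum_congr rfl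
      intro j _
      rw [map_smul, TT_pow_ee hW]
      simp only [hu, hy]
      rw [smul_comm ((B : ℝ) : ℂ) (YY hW l j x),
        show j + (3 * 4 ^ (l + 1) + k) = 3 * 4 ^ (l + 1) + (k + j) by ring, ← smul_smul]
    simp_rw [h1]
    rw [← sum_add_distrib, smul_sum]
    apply sum_congr rfl
    intro k _
    rw [← smul_add, ← smul_add, ← map_add, sub_add_cancel, smul_smul, smul_smul]
    congr 1
    ring
  rw [hsplit]
  -- the first error
  have herr1 : ∀ k, ‖(p k) • (((B : ℝ) : ℂ) • (T ^ (3 * 4 ^ (l + 1) + k))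
      (x - QQ hW (l + 1) x))‖ ≤ ‖p k‖ * (1 / w) := by
    intro k
    rw [norm_smul]
    by_cases hpk : p k = 0
    · rw [hpk]; simp
    · apply mul_le_mul_of_nonneg_left _ (norm_nonneg _)
      obtain ⟨hk1, hk2⟩ := hp1 k hpk
      have h4 : N % 2 = 0 := by rw [hN, pow_succ]; omega
      obtain ⟨k', hk'⟩ : ∃ k', 3 * 4 ^ (l + 1) + k = k' + nl (l + 1) := by
        refine ⟨k - N / 2, ?_⟩
        unfold nl
        rw [pow_succ 4 (l + 1)]
        omega
      have hpow : T ^ (3 * 4 ^ (l + 1) + k) = T ^ k' * T ^ (nl (l + 1)) := by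
        rw [hk', pow_add]
      have hTk : ‖T ^ k'‖ ≤ 1 := by
        rcases Nat.eq_zero_or_pos k' with h0 | h0
        · rw [h0, pow_zero]
          exact ContinuousLinearMap.norm_id_le
        · exact (norm_TT_pow hW hε hε0 h0).trans (hε1 _)
      have hmain : ∀ z : E1, (B * w) * ‖(T ^ (nl (l + 1))) (z - QQ hW (l + 1) z)‖ ≤ ‖z‖ := by
        intro z
        have h5 : ‖(((B * w : ℝ) : ℂ) • (T ^ (nl (l + 1)) -
            (T ^ (nl (l + 1))).comp (QQ hW (l + 1)))) z‖ ≤ 1 * ‖z‖ := by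
          apply norm_map_le
          intro i
          have h6 := tail_bound (C := C) (hC := hC) hW hodd i
          rw [_root_.smul_apply, norm_real_smul (by positivity), _root_.sub_apply,
            ContinuousLinearMap.comp_apply, QQ_f, ← map_sub, hB, hw]
          exact h6
        rw [_root_.smul_apply, norm_real_smul (by positivity), _root_.sub_apply,
            ContinuousLinearMap.comp_apply, ← map_sub, one_mul] at h5
        exact h5
      have h7 := hmain x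
      rw [hx] at h7
      rw [norm_real_smul hB0.le, le_div_iff₀ hw0, hpow, mul_apply_eq_comp]
      calc B * ‖(T ^ k') ((T ^ nl (l + 1)) (x - (QQ hW (l + 1)) x))‖ * w
          ≤ B * (1 * ‖(T ^ nl (l + 1)) (x - (QQ hW (l + 1)) x)‖) * w := by
            apply mul_le_mul_of_nonneg_right _ hw0.le
            apply mul_le_mul_of_nonneg_left _ hB0.le
            exact (T ^ k').le_of_opNorm_le hTk _
        _ = (B * w) * ‖(T ^ nl (l + 1)) (x - (QQ hW (l + 1)) x)‖ := by ring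
        _ ≤ 1 := h7
  -- the second error
  have herr2 : ‖(∑ k ∈ range N, ∑ j ∈ range N, (p k * y j) • u (k + j)) -
      ∑ k ∈ range N, ∑ j ∈ range N, (p k * y j) • v (k + j)‖ ≤
      ∑ k ∈ range N, (N : ℝ) * (‖p k‖ * R * (1 / w)) := by
    rw [← sum_sub_distrib]
    refine (norm_sum_le _ _).trans (sum_le_sum ?_)
    intro k _
    rw [← sum_sub_distrib]
    refine (norm_sum_le _ _).trans ?_
    calc ∑ j ∈ range N, ‖(p k * y j) • u (k + j) - (p k * y j) • v (k + j)‖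
        ≤ ∑ j ∈ range N, ‖p k‖ * R * (1 / w) := by
          apply sum_le_sum
          intro j hj
          rw [← smul_sub, norm_smul, norm_mul]
          by_cases hpk : p k = 0
          · rw [hpk]; simp
          · have h8 := huv (k + j) (by have := (hp1 k hpk).1; omega)
            have h9 := hyR j (mem_range.1 hj)
            calc ‖p k‖ * ‖y j‖ * ‖u (k + j) - v (k + j)‖
                ≤ ‖p k‖ * ‖y j‖ * (1 / w) := by
                  apply mul_le_mul_of_nonneg_left h8 (by positivity)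
              _ ≤ ‖p k‖ * R * (1 / w) := by
                  apply mul_le_mul_of_nonneg_right _ (by positivity)
                  exact mul_le_mul_of_nonneg_left h9 (norm_nonneg _)
      _ = (N : ℝ) * (‖p k‖ * R * (1 / w)) := by
          rw [sum_const, card_range, nsmul_eq_mul]
  -- the third error
  set a₀ := 4 ^ (l + 1) - 4 ^ src l with ha₀
  have ha₀N : a₀ < N := by
    have : 0 < 4 ^ src l := by positivity
    omega
  have herr3 : ‖((A : ℝ) : ℂ) • (∑ k ∈ range N, ∑ j ∈ range N, (p k * y j) • v (k + j)) -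
      ((A : ℝ) : ℂ) • ee W a₀‖ ≤ 1 / ((l : ℝ) + 1) := by
    simp only [hv]
    rw [double_sum]
    have h10 : ee W a₀ = ∑ r ∈ range N, (if r = a₀ then (1 : ℂ) else 0) • ee W r := by
      simp_rw [ite_smul, one_smul, zero_smul]
      rw [Finset.sum_ite_eq' (range N) a₀ (fun r => ee W r), if_pos (mem_range.2 ha₀N)]
    rw [← smul_sub, norm_real_smul hA0.le]
    conv_lhs => rw [h10]
    rw [← sum_sub_distrib]
    have h11 : ‖∑ r ∈ range N, ((∑ kj ∈ antidiagonal r, p kj.1 * y kj.2) • ee W r -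
        (if r = a₀ then (1 : ℂ) else 0) • ee W r)‖ ≤
        ∑ r ∈ range N, 1 / (((l : ℝ) + 1) * A * N) := by
      refine (norm_sum_le _ _).trans (sum_le_sum ?_)
      intro r hr
      rw [← sub_smul, norm_smul]
      have h12 := hp3 r (mem_range.1 hr)
      have h13 := norm_ee_le_one hW r
      rw [le_div_iff₀ (by positivity)]
      calc ‖∑ kj ∈ antidiagonal r, p kj.1 * y kj.2 - (if r = a₀ then (1 : ℂ) else 0)‖ * ‖ee W r‖ *
            (((l : ℝ) + 1) * A * N)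
          = (((l : ℝ) + 1) * A * N *
            ‖∑ kj ∈ antidiagonal r, p kj.1 * y kj.2 - (if r = a₀ then (1 : ℂ) else 0)‖) * ‖ee W r‖ := by
              ring
        _ ≤ 1 * 1 := mul_le_mul h12 h13 (norm_nonneg _) (by norm_num)
        _ = 1 := by ring
    calc A * ‖∑ r ∈ range N, ((∑ kj ∈ antidiagonal r, p kj.1 * y kj.2) • ee W r -
        (if r = a₀ then (1 : ℂ) else 0) • ee W r)‖ ≤
          A * ∑ r ∈ range N, 1 / (((l : ℝ) + 1) * A * N) :=
            mul_le_mul_of_nonneg_left h11 hA0.le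
      _ = 1 / ((l : ℝ) + 1) := by
          rw [sum_const, card_range, nsmul_eq_mul]
          field_simp
  have herr4 : ‖((A : ℝ) : ℂ) • ee W a₀ - ee W 0‖ ≤ 1 / W (src l) := by
    rw [le_div_iff₀ (hW.pos _), mul_comm, hA]
    exact AA_ee_near hW hleven
  -- total of the first two errors
  have htot : A * (∑ k ∈ range N, ‖p k‖ * (1 / w) +
      ∑ k ∈ range N, (N : ℝ) * (‖p k‖ * R * (1 / w))) ≤ 1 / ((l : ℝ) + 1) := by
    rw [← sum_add_distrib]
    have h14 : ∀ k ∈ range N, ‖p k‖ * (1 / w) + (N : ℝ) * (‖p k‖ * R * (1 / w)) ≤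
        1 / (((l : ℝ) + 1) * A * N) := by
      intro k _
      have h15 := hp2 k
      rw [le_div_iff₀ (by positivity)]
      have h16 : (‖p k‖ * (1 / w) + (N : ℝ) * (‖p k‖ * R * (1 / w))) * (((l : ℝ) + 1) * A * N) =
          (((l : ℝ) + 1) * A * N * (1 + N * R) * ‖p k‖) / w := by
        field_simp
      rw [h16, div_le_one hw0]
      exact h15
    calc A * ∑ k ∈ range N, (‖p k‖ * (1 / w) + (N : ℝ) * (‖p k‖ * R * (1 / w)))
        ≤ A * ∑ k ∈ range N, 1 / (((l : ℝ) + 1) * A * N) :=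
          mul_le_mul_of_nonneg_left (sum_le_sum h14) hA0.le
      _ = 1 / ((l : ℝ) + 1) := by
          rw [sum_const, card_range, nsmul_eq_mul]
          field_simp
  have herr1' : ‖∑ k ∈ range N, (p k) • (((B : ℝ) : ℂ) • (T ^ (3 * 4 ^ (l + 1) + k))
      (x - QQ hW (l + 1) x))‖ ≤ ∑ k ∈ range N, ‖p k‖ * (1 / w) :=
    (norm_sum_le _ _).trans (sum_le_sum fun k _ => herr1 k)
  -- conclusion
  set S1 := ∑ k ∈ range N, (p k) • (((B : ℝ) : ℂ) • (T ^ (3 * 4 ^ (l + 1) + k))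
      (x - QQ hW (l + 1) x)) with hS1
  set S2 := ∑ k ∈ range N, ∑ j ∈ range N, (p k * y j) • u (k + j) with hS2
  set S3 := ∑ k ∈ range N, ∑ j ∈ range N, (p k * y j) • v (k + j) with hS3
  have hdecomp : ((A : ℝ) : ℂ) • (S1 + S2) - ee W 0 =
      ((A : ℝ) : ℂ) • S1 + ((A : ℝ) : ℂ) • (S2 - S3) +
      (((A : ℝ) : ℂ) • S3 - ((A : ℝ) : ℂ) • ee W a₀) + (((A : ℝ) : ℂ) • ee W a₀ - ee W 0) := by
    rw [smul_add, smul_sub]
    abel
  rw [hdecomp]
  have hn1 : ‖((A : ℝ) : ℂ) • S1‖ ≤ A * ∑ k ∈ range N, ‖p k‖ * (1 / w) := by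
    rw [norm_real_smul hA0.le]
    exact mul_le_mul_of_nonneg_left herr1' hA0.le
  have hn2 : ‖((A : ℝ) : ℂ) • (S2 - S3)‖ ≤
      A * ∑ k ∈ range N, (N : ℝ) * (‖p k‖ * R * (1 / w)) := by
    rw [norm_real_smul hA0.le]
    exact mul_le_mul_of_nonneg_left herr2 hA0.le
  have hnn := norm_add_le (((A : ℝ) : ℂ) • S1 + ((A : ℝ) : ℂ) • (S2 - S3) +
      (((A : ℝ) : ℂ) • S3 - ((A : ℝ) : ℂ) • ee W a₀)) (((A : ℝ) : ℂ) • ee W a₀ - ee W 0)
  have hnn2 := norm_add_le (((A : ℝ) : ℂ) • S1 + ((A : ℝ) : ℂ) • (S2 - S3))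
      (((A : ℝ) : ℂ) • S3 - ((A : ℝ) : ℂ) • ee W a₀)
  have hnn3 := norm_add_le (((A : ℝ) : ℂ) • S1) (((A : ℝ) : ℂ) • (S2 - S3))
  rw [mul_add] at htot
  have hfin : (2 : ℝ) / ((l : ℝ) + 1) = 1 / ((l : ℝ) + 1) + 1 / ((l : ℝ) + 1) := by ring
  rw [hfin]
  linarith

end

end Pool.Agent.Lib.MP_7c4fde_an
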