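import Pool.Agent.Lib.MP_7c4fde_an.Eigen

set_option autoImplicit false

namespace Pool.Agent.Lib.MP_7c4fde_an

/-- The strong form of the answer on every Banach space isomorphic to `ℓ^1`. -/
theorem strong_answer_iso {X : Type*} [NormedAddCommGroup X] [NormedSpace ℂ X]
    (e : X ≃L[ℂ] lp (fun _ : ℕ => ℂ) 1) (ε : ℕ → ℝ) (hε : ∀ n, 0 < ε n) : ∃ T : X →L[ℂ] X,
    (∀ n, 1 ≤ n → ‖T ^ n‖ ≤ ε n) ∧ spectrum ℂ T = {0} ∧
    (∀ M : Submodule ℂ X, IsClosed (M : Set X) → (∀ x ∈ M, T x ∈ M) → M = ⊥ ∨ M = ⊤) ∧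
    ∀ F : X →L[ℂ] X, Module.finrank ℂ (LinearMap.range (F : X →ₗ[ℂ] X)) = 1 →
      {μ : ℂ | ∃ u : X, u ≠ 0 ∧ (T + F) u = μ • u}.Infinite := by
  set c : ℝ := ‖(e.symm : lp (fun _ : ℕ => ℂ) 1 →L[ℂ] X)‖ *
    ‖(e : X →L[ℂ] lp (fun _ : ℕ => ℂ) 1)‖ + 1 with hc
  have hc0 : 0 < c := by positivity
  obtain ⟨T, h1, h2, h3, h4⟩ := strong_answer (fun n => ε n / c) (fun n => div_pos (hε n) hc0)
  have hpow : ∀ n : ℕ, e.symm.conjContinuousAlgEquiv (T ^ n) =
      (e.symm.conjContinuousAlgEquiv T) ^ n := fun n => map_pow _ _ _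
  refine ⟨e.symm.conjContinuousAlgEquiv T, ?_, ?_, ?_, ?_⟩
  · intro n hn
    rw [← hpow]
    have h5 := h1 n hn
    have h6 : ‖e.symm.conjContinuousAlgEquiv (T ^ n)‖ ≤
        ‖(e.symm : lp (fun _ : ℕ => ℂ) 1 →L[ℂ] X)‖ * (‖T ^ n‖ *
          ‖(e : X →L[ℂ] lp (fun _ : ℕ => ℂ) 1)‖) := by
      rw [ContinuousLinearEquiv.conjContinuousAlgEquiv_apply]
      refine (ContinuousLinearMap.opNorm_comp_le _ _).trans ?_
      exact mul_le_mul_of_nonneg_left (ContinuousLinearMap.opNorm_comp_le _ _) (norm_nonneg _)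
    refine h6.trans ?_
    have h7 : ‖(e.symm : lp (fun _ : ℕ => ℂ) 1 →L[ℂ] X)‖ * (‖T ^ n‖ *
          ‖(e : X →L[ℂ] lp (fun _ : ℕ => ℂ) 1)‖) = (c - 1) * ‖T ^ n‖ := by
      rw [hc]; ring
    rw [h7]
    have h8 : (c - 1) * ‖T ^ n‖ ≤ c * ‖T ^ n‖ := by
      have := norm_nonneg (T ^ n)
      nlinarith
    refine h8.trans ?_
    rw [le_div_iff₀ hc0] at h5
    linarith
  · have h5 := AlgEquiv.spectrum_eq (R := ℂ) (e.symm.conjContinuousAlgEquiv.toAlgEquiv) T
    rw [← h2, ← h5]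
    rfl
  · intro M hM hinv
    have h5 := h3 (M.comap ((e.symm : lp (fun _ : ℕ => ℂ) 1 →L[ℂ] X) :
        lp (fun _ : ℕ => ℂ) 1 →ₗ[ℂ] X)) (hM.preimage e.symm.continuous) (fun x hx => by
      have h6 := hinv _ hx
      simp only [Submodule.mem_comap, ContinuousLinearMap.coe_coe,
        ContinuousLinearEquiv.coe_coe] at h6 ⊢
      rw [ContinuousLinearEquiv.conjContinuousAlgEquiv_apply_apply] at h6
      simpa using h6)
    rcases h5 with h5 | h5
    · left
      rw [Submodule.eq_bot_iff] at h5 ⊢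
      intro x hx
      have h6 := h5 (e x) (by
        simp only [Submodule.mem_comap, ContinuousLinearMap.coe_coe,
          ContinuousLinearEquiv.coe_coe, ContinuousLinearEquiv.symm_apply_apply]
        exact hx)
      simpa using h6
    · right
      rw [Submodule.eq_top_iff'] at h5 ⊢
      intro x
      have h6 := h5 (e x)
      simp only [Submodule.mem_comap, ContinuousLinearMap.coe_coe,
        ContinuousLinearEquiv.coe_coe, ContinuousLinearEquiv.symm_apply_apply] at h6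
      exact h6
  · intro F hF
    obtain ⟨v, φ, hv, hφ, hFv⟩ := rank_one_repr F hF
    -- the transported rank-one operator
    have h5 := h4 (e.conjContinuousAlgEquiv F) (by
      rw [finrank_eq_one_iff']
      obtain ⟨y, hy⟩ : ∃ y, φ y ≠ 0 := by
        by_contra hcon
        push Not at hcon
        exact hφ (ContinuousLinearMap.ext hcon)
      have hev : e v ∈ LinearMap.range ((e.conjContinuousAlgEquiv F :
          lp (fun _ : ℕ => ℂ) 1 →L[ℂ] lp (fun _ : ℕ => ℂ) 1) :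
          lp (fun _ : ℕ => ℂ) 1 →ₗ[ℂ] lp (fun _ : ℕ => ℂ) 1) := by
        have hφy : φ ((φ y)⁻¹ • y) = 1 := by
          rw [map_smul, smul_eq_mul, inv_mul_cancel₀ hy]
        refine ⟨e ((φ y)⁻¹ • y), ?_⟩
        rw [ContinuousLinearMap.coe_coe, ContinuousLinearEquiv.conjContinuousAlgEquiv_apply_apply,
          ContinuousLinearEquiv.symm_apply_apply, hFv, hφy, one_smul]
      refine ⟨⟨e v, hev⟩, ?_, ?_⟩
      · intro h
        have h6 : e v = 0 := congrArg Subtype.val h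
        apply hv
        simpa using h6
      · rintro ⟨_, ⟨w, rfl⟩⟩
        refine ⟨φ (e.symm w), ?_⟩
        apply Subtype.ext
        simp only [Submodule.coe_smul, ContinuousLinearMap.coe_coe,
          ContinuousLinearEquiv.conjContinuousAlgEquiv_apply_apply, hFv, map_smul])
    refine h5.mono ?_
    rintro μ ⟨u, hu0, hu⟩
    refine ⟨e.symm u, fun h => hu0 (by simpa using h), ?_⟩
    rw [_root_.add_apply, ContinuousLinearEquiv.conjContinuousAlgEquiv_apply_apply] at hu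
    have h6 : e.symm (T u + e (F (e.symm u))) = e.symm (μ • u) := by rw [hu]
    rw [map_add, map_smul, ContinuousLinearEquiv.symm_apply_apply] at h6
    rw [_root_.add_apply, ContinuousLinearEquiv.conjContinuousAlgEquiv_apply_apply]
    rw [ContinuousLinearEquiv.symm_symm, ContinuousLinearEquiv.apply_symm_apply]
    exact h6

end Pool.Agent.Lib.MP_7c4fde_an
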